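import Mathlib

/-!
# Chords on `y² = x³ + a x + b` and the passage from a Weierstrass curve to its short form
-/

set_option autoImplicit false

open WeierstrassCurve

namespace Pool.Agent.Y680.M

section chord

variable {F : Type*} [Field F]

/-- the chord (or tangent) data of two points on `y² = x³ + a x + b` -/
structure Chord (a b x1 y1 x2 y2 l : F) : Prop where
  e1 : y1 ^ 2 = x1 ^ 3 + a * x1 + b
  e2 : y2 ^ 2 = x2 ^ 3 + a * x2 + b
  h1 : l * (y1 + y2) = x1 ^ 2 + x1 * x2 + x2 ^ 2 + a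
  h2 : y1 - y2 = l * (x1 - x2)

lemma Chord.vieta2 {a b x1 y1 x2 y2 l : F} (h : Chord a b x1 y1 x2 y2 l) :
    x1 * x2 + (x1 + x2) * (l ^ 2 - x1 - x2) = a - 2 * l * (y1 - l * x1) := by
  linear_combination (1 : F) * h.h1 + l * h.h2

lemma Chord.vieta3 {a b x1 y1 x2 y2 l : F} (h : Chord a b x1 y1 x2 y2 l) :
    x1 * x2 * (l ^ 2 - x1 - x2) = (y1 - l * x1) ^ 2 - b := by
  linear_combination x1 * h.h1 + x1 * l * h.h2 - h.e1

/-- a short Weierstrass curve -/
structure IsShort (W : WeierstrassCurve F) : Prop where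
  a1 : W.a₁ = 0
  a2 : W.a₂ = 0
  a3 : W.a₃ = 0

variable {W : WeierstrassCurve F}

lemma IsShort.negY (h : IsShort W) (x y : F) : W.toAffine.negY x y = -y := by
  simp [Affine.negY, h.a1, h.a3]

lemma IsShort.eqn (h : IsShort W) {x y : F} :
    W.toAffine.Equation x y ↔ y ^ 2 = x ^ 3 + W.a₄ * x + W.a₆ := by
  rw [Affine.equation_iff]
  simp only [h.a1, h.a2, h.a3]
  constructor <;> intro h <;> linear_combination h

lemma IsShort.delta (h : IsShort W) : W.Δ = -16 * (4 * W.a₄ ^ 3 + 27 * W.a₆ ^ 2) := by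
  simp only [WeierstrassCurve.Δ, WeierstrassCurve.b₂, WeierstrassCurve.b₄, WeierstrassCurve.b₆,
    WeierstrassCurve.b₈, h.a1, h.a2, h.a3]
  ring

lemma nonsing {x y : F} (hD : W.Δ ≠ 0) (h : W.toAffine.Equation x y) :
    W.toAffine.Nonsingular x y :=
  (Affine.equation_iff_nonsingular_of_Δ_ne_zero hD).mp h

lemma IsShort.neg_some (h : IsShort W) {x y : F} (hp : W.toAffine.Nonsingular x y)
    (hn : W.toAffine.Nonsingular x (-y)) :
    -(Affine.Point.some x y hp) = Affine.Point.some x (-y) hn := by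
  rw [Affine.Point.neg_some]
  congr 1
  exact h.negY x y

lemma IsShort.nonsing_neg (h : IsShort W) {x y : F} (hp : W.toAffine.Nonsingular x y) :
    W.toAffine.Nonsingular x (-y) := by
  have := (Affine.nonsingular_neg (W' := W.toAffine) x y).mpr hp
  rwa [h.negY] at this

variable [DecidableEq F]

/-- the addition of two points which are not opposite to each other -/
lemma IsShort.add_some [NeZero (2 : F)] (h : IsShort W) {x1 y1 x2 y2 : F}
    (p1 : W.toAffine.Nonsingular x1 y1) (p2 : W.toAffine.Nonsingular x2 y2)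
    (hne : ¬(x1 = x2 ∧ y1 = -y2)) :
    ∃ (l : F) (hn : W.toAffine.Nonsingular (l ^ 2 - x1 - x2) (-(l * (l ^ 2 - x1 - x2 - x1) + y1))),
      Chord W.a₄ W.a₆ x1 y1 x2 y2 l ∧
      Affine.Point.some x1 y1 p1 + Affine.Point.some x2 y2 p2 = Affine.Point.some _ _ hn := by
  have hne' : ¬(x1 = x2 ∧ y1 = W.toAffine.negY x2 y2) := by rwa [h.negY]
  have q1 := h.eqn.mp p1.1
  have q2 := h.eqn.mp p2.1
  have h2 : (2 : F) ≠ 0 := NeZero.ne 2
  set l := W.toAffine.slope x1 x2 y1 y2 with hl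
  have hX : W.toAffine.addX x1 x2 l = l ^ 2 - x1 - x2 := by
    rw [Affine.addX, h.a1, h.a2]; ring
  have hY : W.toAffine.addY x1 x2 y1 l = -(l * (l ^ 2 - x1 - x2 - x1) + y1) := by
    rw [Affine.addY, h.negY, Affine.negAddY, hX]
  have hs := Affine.Point.add_some hne' (h₁ := p1) (h₂ := p2)
  have hn := Affine.nonsingular_add p1 p2 hne'
  rw [← hl, hX, hY] at hn
  refine ⟨l, hn, ?_, ?_⟩
  · by_cases hx : x1 = x2
    · have hy : y1 ≠ W.toAffine.negY x2 y2 := fun hh => hne' ⟨hx, hh⟩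
      have hyy : y1 = y2 := by
        have := Affine.Y_eq_of_Y_ne p1.1 p2.1 hx hy
        exact this
      subst hx hyy
      have hy0 : y1 ≠ 0 := by
        intro h0
        apply hy
        rw [h.negY, h0, _root_.neg_zero]
      have hl' : l = (3 * x1 ^ 2 + W.a₄) / (2 * y1) := by
        rw [hl, Affine.slope_of_Y_ne rfl hy, h.negY, h.a1, h.a2]
        congr 1 <;> ring
      have h2y : (2 : F) * y1 ≠ 0 := mul_ne_zero h2 hy0
      refine ⟨q1, q2, ?_, by ring⟩
      rw [hl']
      field_simp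
      ring
    · have hx' : x1 - x2 ≠ 0 := sub_ne_zero.mpr hx
      have hl' : l = (y1 - y2) / (x1 - x2) := by
        rw [hl, Affine.slope_of_X_ne hx]
      refine ⟨q1, q2, ?_, ?_⟩
      · rw [hl']
        field_simp
        linear_combination q1 - q2
      · rw [hl']
        field_simp
  · rw [hs]
    simp only [Affine.Point.some.injEq]
    exact ⟨hX, hY⟩

/-- three collinear points with different abscissas -/
lemma IsShort.collinear [NeZero (2 : F)] (h : IsShort W) {x1 y1 x2 y2 x3 y3 : F}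
    (p1 : W.toAffine.Nonsingular x1 y1) (p2 : W.toAffine.Nonsingular x2 y2)
    (p3 : W.toAffine.Nonsingular x3 y3) (h12 : x1 ≠ x2) (h13 : x3 ≠ x1) (h23 : x3 ≠ x2)
    (hc : (y1 - y2) * (x3 - x1) = (y3 - y1) * (x1 - x2)) :
    Affine.Point.some x1 y1 p1 + Affine.Point.some x2 y2 p2 = -Affine.Point.some x3 y3 p3 := by
  obtain ⟨l, hn, hch, hs⟩ := h.add_some p1 p2 (fun hh => h12 hh.1)
  rw [hs, h.neg_some p3 (h.nonsing_neg p3)]
  have hx' : x1 - x2 ≠ 0 := sub_ne_zero.mpr h12
  have h13' : x3 - x1 ≠ 0 := sub_ne_zero.mpr h13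
  have h23' : x3 - x2 ≠ 0 := sub_ne_zero.mpr h23
  have q3 := h.eqn.mp p3.1
  have hy3 : y3 = l * (x3 - x1) + y1 := by
    have : (y3 - y1) * (x1 - x2) = (l * (x3 - x1)) * (x1 - x2) := by
      rw [← hc, hch.h2]; ring
    have := mul_right_cancel₀ hx' this
    linear_combination this
  have hx3 : x3 = l ^ 2 - x1 - x2 := by
    have key : (x3 - x1) * ((x3 - x2) * (x3 - (l ^ 2 - x1 - x2))) = 0 := by
      have v2 := hch.vieta2
      have v3 := hch.vieta3
      rw [hy3] at q3
      linear_combination (-1 : F) * q3 + x3 * v2 - v3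
    have k2 := (mul_eq_zero.mp key).resolve_left h13'
    have k3 := (mul_eq_zero.mp k2).resolve_left h23'
    exact sub_eq_zero.mp k3
  simp only [Affine.Point.some.injEq]
  refine ⟨hx3.symm, ?_⟩
  rw [hy3, hx3]

end chord

end Pool.Agent.Y680.M
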