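import Mathlib
import Pool.Agent.TH942.Par
import Pool.Agent.Y680.M.Chord

/-!
# The `p`-adic filtration on `y² = x³ + k` over `ℚ`
-/

set_option autoImplicit false
set_option linter.unusedSectionVars false

open WeierstrassCurve

namespace Pool.Agent.Y680.M

open Pool.Agent.TH942

section core

variable {p : ℕ} [hp : Fact p.Prime]

lemma v_one_add {z : ℚ} (h : padicNorm p z < 1) : padicNorm p (1 + z) = 1 := by
  have hne : padicNorm p 1 ≠ padicNorm p z := by
    rw [padicNorm.one]; exact (ne_of_lt h).symm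
  rw [padicNorm.add_eq_max_of_ne hne, padicNorm.one]
  exact max_eq_left h.le

lemma v_add_le {a b r : ℚ} (ha : padicNorm p a ≤ r) (hb : padicNorm p b ≤ r) :
    padicNorm p (a + b) ≤ r :=
  padicNorm.nonarchimedean.trans (max_le ha hb)

lemma v_sub_le {a b r : ℚ} (ha : padicNorm p a ≤ r) (hb : padicNorm p b ≤ r) :
    padicNorm p (a - b) ≤ r :=
  padicNorm.sub.trans (max_le ha hb)

lemma v_mul_le {a b r s : ℚ} (hr : 0 ≤ r) (ha : padicNorm p a ≤ r) (hb : padicNorm p b ≤ s) :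
    padicNorm p (a * b) ≤ r * s := by
  rw [padicNorm.mul]
  exact mul_le_mul ha hb (padicNorm.nonneg _) hr

/-- the basic estimate -/
lemma chord_core {k ρ x1 y1 x2 y2 l : ℚ} (hc : Chord 0 k x1 y1 x2 y2 l) (hρ : 0 < ρ)
    (hk : padicNorm p k * ρ ^ 6 < 1) (hy1 : y1 ≠ 0) (hy2 : y2 ≠ 0)
    (ht1 : padicNorm p (x1 / y1) ≤ ρ) (hw1 : padicNorm p (1 / y1) ≤ ρ ^ 3)
    (ht2 : padicNorm p (x2 / y2) ≤ ρ) (hw2 : padicNorm p (1 / y2) ≤ ρ ^ 3) :
    let x3 := l ^ 2 - x1 - x2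
    let yR := l * (x3 - x1) + y1
    yR ≠ 0 ∧ padicNorm p (x3 / yR) ≤ ρ ∧ padicNorm p (1 / yR) ≤ ρ ^ 3 ∧
      padicNorm p (x3 / yR + x1 / y1 + x2 / y2) ≤ padicNorm p (3 * k) * ρ ^ 7 := by
  intro x3 yR
  obtain ⟨e1, e2, h1, h2⟩ := hc
  have vv2 := (Chord.mk e1 e2 h1 h2).vieta2
  have vv3 := (Chord.mk e1 e2 h1 h2).vieta3
  set μ := y1 - l * x1 with hμ
  have hx3 : x3 = l ^ 2 - x1 - x2 := rfl
  have hyR : yR = l * x3 + μ := by rw [hμ]; ring
  rw [← hx3] at vv2 vv3
  have hy1' : y1 = l * x1 + μ := by rw [hμ]; ring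
  have hy2' : y2 = l * x2 + μ := by rw [hμ]; linear_combination (-1 : ℚ) * h2
  have hk1 : k = y1 ^ 2 - x1 ^ 3 := by linear_combination (-1 : ℚ) * e1
  set t1 := x1 / y1 with ht1d
  set t2 := x2 / y2 with ht2d
  set w1 := 1 / y1 with hw1d
  set w2 := 1 / y2 with hw2d
  have hx1t : x1 = t1 * y1 := by rw [ht1d]; field_simp
  have hx2t : x2 = t2 * y2 := by rw [ht2d]; field_simp
  have hwy1 : w1 * y1 = 1 := by rw [hw1d]; field_simp
  have hwy2 : w2 * y2 = 1 := by rw [hw2d]; field_simp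
  set D := 1 - k * (w1 ^ 2 + w1 * w2 + w2 ^ 2) with hD
  set N := t1 ^ 2 + t1 * t2 + t2 ^ 2 with hN
  have hρ3 : 0 < ρ ^ 3 := pow_pos hρ 3
  have hww : padicNorm p (w1 ^ 2 + w1 * w2 + w2 ^ 2) ≤ ρ ^ 6 := by
    have a : padicNorm p (w1 ^ 2) ≤ ρ ^ 6 := by
      have := v_mul_le hρ3.le hw1 hw1
      rw [pow_two]; calc _ ≤ _ := this
        _ = _ := by ring
    have b : padicNorm p (w1 * w2) ≤ ρ ^ 6 := by
      have := v_mul_le hρ3.le hw1 hw2
      calc _ ≤ _ := this
        _ = _ := by ring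
    have c : padicNorm p (w2 ^ 2) ≤ ρ ^ 6 := by
      have := v_mul_le hρ3.le hw2 hw2
      rw [pow_two]; calc _ ≤ _ := this
        _ = _ := by ring
    exact v_add_le (v_add_le a b) c
  have hkw : padicNorm p (-(k * (w1 ^ 2 + w1 * w2 + w2 ^ 2))) < 1 := by
    rw [padicNorm.neg, padicNorm.mul]
    exact lt_of_le_of_lt (mul_le_mul_of_nonneg_left hww (padicNorm.nonneg _)) hk
  have hDv : padicNorm p D = 1 := by
    rw [hD, sub_eq_add_neg]; exact v_one_add hkw
  have hD0 : D ≠ 0 := by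
    intro h; rw [h, padicNorm.zero] at hDv; norm_num at hDv
  have hNv : padicNorm p N ≤ ρ ^ 2 := by
    have a : padicNorm p (t1 ^ 2) ≤ ρ ^ 2 := by
      rw [pow_two, pow_two]; exact v_mul_le hρ.le ht1 ht1
    have b : padicNorm p (t1 * t2) ≤ ρ ^ 2 := by
      rw [pow_two]; exact v_mul_le hρ.le ht1 ht2
    have c : padicNorm p (t2 ^ 2) ≤ ρ ^ 2 := by
      rw [pow_two, pow_two]; exact v_mul_le hρ.le ht2 ht2
    exact v_add_le (v_add_le a b) c
  have hE : μ * N = -(l * D) := by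
    have hy12 : y1 ^ 2 * y2 ^ 2 ≠ 0 := mul_ne_zero (pow_ne_zero 2 hy1) (pow_ne_zero 2 hy2)
    have key : μ * (x1 ^ 2 * y2 ^ 2 + x1 * x2 * y1 * y2 + x2 ^ 2 * y1 ^ 2) +
        l * (y1 ^ 2 * y2 ^ 2 - k * (y1 ^ 2 + y1 * y2 + y2 ^ 2)) = 0 := by
      rw [hk1, hy2', hy1']
      rw [hy2', hy1'] at h1
      linear_combination (-(l * x1 + μ) ^ 3) * h1
    have e3 : (μ * N + l * D) * (y1 ^ 2 * y2 ^ 2) = 0 := by
      rw [← key, hN, hD, ht1d, ht2d, hw1d, hw2d]
      field_simp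
      ring
    have := (mul_eq_zero.mp e3).resolve_right hy12
    linear_combination this
  have hμ0 : μ ≠ 0 := by
    intro h
    rw [h, zero_mul] at hE
    have hl : l = 0 := (mul_eq_zero.mp (neg_eq_zero.mp hE.symm)).resolve_right hD0
    apply hy1
    rw [hy1', h, hl]; ring
  set lam := N / D with hlam
  have hlamv : padicNorm p lam ≤ ρ ^ 2 := by
    rw [hlam, padicNorm.div, hDv, div_one]; exact hNv
  have hl : l = -(lam * μ) := by
    have : l * D = -(N * μ) := by linear_combination hE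
    rw [hlam]
    field_simp
    linear_combination this
  set ν := 1 / μ with hν
  have hνμ : ν * μ = 1 := by rw [hν]; field_simp
  have hw1e : w1 = ν + lam * t1 := by
    have : w1 * μ = 1 + lam * t1 * μ := by
      have a : μ = y1 + lam * μ * x1 := by
        calc μ = y1 - l * x1 := hμ
          _ = _ := by rw [hl]; ring
      calc w1 * μ = w1 * (y1 + lam * μ * x1) := by rw [← a]
        _ = w1 * y1 + lam * μ * (w1 * x1) := by ring
        _ = 1 + lam * μ * (w1 * (t1 * y1)) := by rw [hwy1, ← hx1t]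
        _ = 1 + lam * μ * t1 * (w1 * y1) := by ring
        _ = _ := by rw [hwy1]; ring
    have h3 : w1 * μ = (ν + lam * t1) * μ := by
      rw [this]; linear_combination (-1 : ℚ) * hνμ
    exact mul_right_cancel₀ hμ0 h3
  have hνv : padicNorm p ν ≤ ρ ^ 3 := by
    have : ν = w1 - lam * t1 := by linear_combination (-1 : ℚ) * hw1e
    rw [this]
    apply v_sub_le hw1
    have := v_mul_le (pow_pos hρ 2).le hlamv ht1
    calc _ ≤ _ := this
      _ = _ := by ring
  have hklam : padicNorm p (k * lam ^ 3) < 1 := by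
    have h3 : padicNorm p (lam ^ 3) ≤ ρ ^ 6 := by
      have a := v_mul_le (pow_pos hρ 2).le hlamv hlamv
      have b := v_mul_le (mul_pos (pow_pos hρ 2) (pow_pos hρ 2)).le a hlamv
      calc padicNorm p (lam ^ 3) = padicNorm p (lam * lam * lam) := by ring_nf
        _ ≤ _ := b
        _ = _ := by ring
    rw [padicNorm.mul]
    exact lt_of_le_of_lt (mul_le_mul_of_nonneg_left h3 (padicNorm.nonneg _)) hk
  have hU : padicNorm p (1 + k * lam ^ 3) = 1 := v_one_add hklam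
  have hU0 : 1 + k * lam ^ 3 ≠ 0 := by
    intro h; rw [h, padicNorm.zero] at hU; norm_num at hU
  have hprod : y1 * y2 * yR = μ ^ 3 * (1 + k * lam ^ 3) := by
    have : y1 * y2 * yR = μ ^ 3 - k * l ^ 3 := by
      rw [hyR, hy1', hy2']
      linear_combination l ^ 3 * vv3 + l ^ 2 * μ * vv2 + l * μ ^ 2 * hx3
    rw [this, hl]; ring
  have hyR0 : yR ≠ 0 := by
    intro h
    rw [h, mul_zero] at hprod
    exact (mul_ne_zero (pow_ne_zero 3 hμ0) hU0) hprod.symm
  have hsum : x3 / yR + t1 + t2 = -(3 * k * lam ^ 2 * ν) / (1 + k * lam ^ 3) := by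
    have s1 : x3 * y1 * y2 + x1 * y2 * yR + x2 * y1 * yR = -3 * k * l ^ 2 := by
      rw [hyR, hy1', hy2']
      linear_combination 3 * l ^ 2 * vv3 + 2 * l * μ * vv2 + μ ^ 2 * hx3
    have s2 : x3 / yR + t1 + t2 = (x3 * y1 * y2 + x1 * y2 * yR + x2 * y1 * yR) /
        (y1 * y2 * yR) := by
      rw [ht1d, ht2d]
      field_simp
    rw [s2, s1, hprod, hl, hν]
    field_simp
  have hsumv : padicNorm p (x3 / yR + t1 + t2) ≤ padicNorm p (3 * k) * ρ ^ 7 := by
    rw [hsum, padicNorm.div, hU, div_one, padicNorm.neg]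
    have a := v_mul_le (pow_pos hρ 2).le hlamv hlamv
    have b := v_mul_le (mul_pos (pow_pos hρ 2) (pow_pos hρ 2)).le a hνv
    have c := v_mul_le (padicNorm.nonneg (p := p) (3 * k)) (le_refl (padicNorm p (3 * k))) b
    calc padicNorm p (3 * k * lam ^ 2 * ν) = padicNorm p (3 * k * (lam * lam * ν)) := by
          congr 1; ring
      _ ≤ _ := c
      _ = _ := by ring
  have hρ7 : padicNorm p (3 * k) * ρ ^ 7 ≤ ρ := by
    have h3 : padicNorm p (3 * k) ≤ padicNorm p k := by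
      rw [padicNorm.mul]
      have : padicNorm p 3 ≤ 1 := padicNorm.of_int 3
      calc padicNorm p 3 * padicNorm p k ≤ 1 * padicNorm p k :=
            mul_le_mul_of_nonneg_right this (padicNorm.nonneg _)
        _ = _ := one_mul _
    calc padicNorm p (3 * k) * ρ ^ 7 ≤ padicNorm p k * ρ ^ 7 :=
          mul_le_mul_of_nonneg_right h3 (pow_pos hρ 7).le
      _ = (padicNorm p k * ρ ^ 6) * ρ := by ring
      _ ≤ 1 * ρ := mul_le_mul_of_nonneg_right hk.le hρ.le
      _ = ρ := one_mul _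
  have htR : padicNorm p (x3 / yR) ≤ ρ := by
    have : x3 / yR = (x3 / yR + t1 + t2) - t1 - t2 := by ring
    rw [this]
    exact v_sub_le (v_sub_le (hsumv.trans hρ7) ht1) ht2
  have hwR : 1 / yR = ν + lam * (x3 / yR) := by
    have a : yR = μ - lam * μ * x3 := by rw [hyR, hl]; ring
    have b : 1 * μ = (ν * yR + lam * x3) * μ := by
      calc 1 * μ = yR + lam * μ * x3 := by rw [a]; ring
        _ = (ν * μ) * yR + lam * μ * x3 := by rw [hνμ, one_mul]
        _ = _ := by ring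
    have b' := mul_right_cancel₀ hμ0 b
    field_simp
    linear_combination b'
  refine ⟨hyR0, htR, ?_, hsumv⟩
  rw [hwR]
  apply v_add_le hνv
  have := v_mul_le (pow_pos hρ 2).le hlamv htR
  calc _ ≤ _ := this
    _ = _ := by ring

end core

section pts

variable {k : ℚ}

lemma sw_short (k : ℚ) : IsShort (sw (0 : ℚ) k) := ⟨rfl, rfl, rfl⟩

lemma sw_D {k : ℚ} (hk : k ≠ 0) : (sw (0 : ℚ) k).Δ ≠ 0 := by
  rw [sw_Δ]
  have : (-16 : ℚ) ≠ 0 := by norm_num
  apply mul_ne_zero this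
  simpa using hk

/-- the parameter `x / y` -/
def tt : SPt (0 : ℚ) k → ℚ
  | 0 => 0
  | .some x y _ => x / y

/-- the abscissa -/
def xc : SPt (0 : ℚ) k → ℚ
  | 0 => 0
  | .some x _ _ => x

/-- the ordinate -/
def yc : SPt (0 : ℚ) k → ℚ
  | 0 => 0
  | .some _ y _ => y

/-- the filtration -/
def InG (p : ℕ) (ρ : ℚ) : SPt (0 : ℚ) k → Prop
  | 0 => True
  | .some x y _ => y ≠ 0 ∧ padicNorm p (x / y) ≤ ρ ∧ padicNorm p (1 / y) ≤ ρ ^ 3

variable {p : ℕ} [hp : Fact p.Prime]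

lemma inG_add {ρ : ℚ} (hρ : 0 < ρ) (hk : padicNorm p k * ρ ^ 6 < 1) (P Q : SPt (0 : ℚ) k)
    (hP : InG p ρ P) (hQ : InG p ρ Q) : InG p ρ (P + Q) ∧
      padicNorm p (tt (P + Q) - tt P - tt Q) ≤ padicNorm p (3 * k) * ρ ^ 7 := by
  have hpos : 0 ≤ padicNorm p (3 * k) * ρ ^ 7 :=
    mul_nonneg (padicNorm.nonneg _) (pow_pos hρ 7).le
  match P, Q, hP, hQ with
  | 0, Q, _, hQ =>
    rw [zero_add]
    refine ⟨hQ, ?_⟩
    have : tt Q - tt (0 : SPt (0 : ℚ) k) - tt Q = 0 := by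
      change tt Q - 0 - tt Q = 0
      ring
    rw [this, padicNorm.zero]; exact hpos
  | P, 0, hP, _ =>
    rw [add_zero]
    refine ⟨hP, ?_⟩
    have : tt P - tt P - tt (0 : SPt (0 : ℚ) k) = 0 := by
      change tt P - tt P - 0 = 0
      ring
    rw [this, padicNorm.zero]; exact hpos
  | .some x1 y1 p1, .some x2 y2 p2, hP, hQ =>
    obtain ⟨hy1, ht1, hw1⟩ := hP
    obtain ⟨hy2, ht2, hw2⟩ := hQ
    by_cases hne : x1 = x2 ∧ y1 = -y2
    · have h0 : (Affine.Point.some x1 y1 p1 : SPt (0 : ℚ) k) + Affine.Point.some x2 y2 p2 = 0 := by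
        apply Affine.Point.add_of_Y_eq hne.1
        rw [(sw_short k).negY]; exact hne.2
      rw [h0]
      refine ⟨trivial, ?_⟩
      have : tt (0 : SPt (0 : ℚ) k) - tt (Affine.Point.some x1 y1 p1 : SPt (0 : ℚ) k) -
          tt (Affine.Point.some x2 y2 p2 : SPt (0 : ℚ) k) = 0 := by
        change 0 - x1 / y1 - x2 / y2 = 0
        rw [hne.1, hne.2]
        field_simp
        ring
      rw [this, padicNorm.zero]; exact hpos
    · have n2 : NeZero (2 : ℚ) := ⟨by norm_num⟩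
      obtain ⟨l, hn, hch, hs⟩ := (sw_short k).add_some p1 p2 hne
      obtain ⟨c1, c2, c3, c4⟩ := chord_core (k := k) hch hρ hk hy1 hy2 ht1 hw1 ht2 hw2
      rw [hs]
      set yR := l * (l ^ 2 - x1 - x2 - x1) + y1 with hyR
      refine ⟨⟨neg_ne_zero.mpr c1, ?_, ?_⟩, ?_⟩
      · rw [div_neg, padicNorm.neg]; exact c2
      · rw [div_neg, padicNorm.neg]; exact c3
      · have : tt (Affine.Point.some (l ^ 2 - x1 - x2) (-yR) hn : SPt (0 : ℚ) k) -
            tt (Affine.Point.some x1 y1 p1 : SPt (0 : ℚ) k) -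
            tt (Affine.Point.some x2 y2 p2 : SPt (0 : ℚ) k) =
            -((l ^ 2 - x1 - x2) / yR + x1 / y1 + x2 / y2) := by
          change (l ^ 2 - x1 - x2) / (-yR) - x1 / y1 - x2 / y2 = _
          rw [div_neg]; ring
        rw [this, padicNorm.neg]
        exact c4

lemma tt_neg (P : SPt (0 : ℚ) k) : tt (-P) = - tt P := by
  match P with
  | 0 => change (0 : ℚ) = -0; ring
  | .some x y n =>
    rw [(sw_short k).neg_some n ((sw_short k).nonsing_neg n)]
    change x / -y = -(x / y)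
    rw [div_neg]

lemma inG_neg {ρ : ℚ} (P : SPt (0 : ℚ) k) (hP : InG p ρ P) : InG p ρ (-P) := by
  match P, hP with
  | 0, _ => trivial
  | .some x y n, hP =>
    rw [(sw_short k).neg_some n ((sw_short k).nonsing_neg n)]
    obtain ⟨a, b, c⟩ := hP
    refine ⟨neg_ne_zero.mpr a, ?_, ?_⟩
    · rw [div_neg, padicNorm.neg]; exact b
    · rw [div_neg, padicNorm.neg]; exact c

lemma inG_nsmul {ρ : ℚ} (hρ : 0 < ρ) (hk : padicNorm p k * ρ ^ 6 < 1) (P : SPt (0 : ℚ) k)
    (hP : InG p ρ P) (n : ℕ) : InG p ρ (n • P) ∧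
      padicNorm p (tt (n • P) - n * tt P) ≤ padicNorm p (3 * k) * ρ ^ 7 := by
  induction n with
  | zero =>
    rw [zero_smul]
    refine ⟨trivial, ?_⟩
    have : tt (0 : SPt (0 : ℚ) k) - ((0 : ℕ) : ℚ) * tt P = 0 := by
      change (0 : ℚ) - _ = 0
      simp
    rw [this, padicNorm.zero]
    exact mul_nonneg (padicNorm.nonneg _) (pow_pos hρ 7).le
  | succ n ih =>
    rw [add_smul, one_smul]
    obtain ⟨a, b⟩ := inG_add hρ hk _ _ ih.1 hP
    refine ⟨a, ?_⟩
    have : tt (n • P + P) - ((n + 1 : ℕ) : ℚ) * tt P =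
        (tt (n • P + P) - tt (n • P) - tt P) + (tt (n • P) - n * tt P) := by
      push_cast; ring
    rw [this]
    exact v_add_le b ih.2

lemma w_norm {ρ : ℚ} (hρ : 0 < ρ) (hk : padicNorm p k * ρ ^ 6 < 1) {x y : ℚ}
    (n : (sw (0 : ℚ) k).toAffine.Nonsingular x y)
    (h : InG p ρ (Affine.Point.some x y n : SPt (0 : ℚ) k)) :
    padicNorm p (1 / y) = padicNorm p (x / y) ^ 3 := by
  obtain ⟨hy, ht, hw⟩ := h
  have q : y ^ 2 = x ^ 3 + k := by
    have := (sw_short k).eqn.mp n.1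
    rw [this]
    change x ^ 3 + 0 * x + k = _
    ring
  have e : (1 / y) * (1 - k * (1 / y) ^ 2) = (x / y) ^ 3 := by
    field_simp
    linear_combination q
  have hkw : padicNorm p (-(k * (1 / y) ^ 2)) < 1 := by
    rw [padicNorm.neg, padicNorm.mul]
    have a := v_mul_le (pow_pos hρ 3).le hw hw
    have b : padicNorm p ((1 / y) ^ 2) ≤ ρ ^ 6 := by
      rw [pow_two]
      calc _ ≤ _ := a
        _ = _ := by ring
    exact lt_of_le_of_lt (mul_le_mul_of_nonneg_left b (padicNorm.nonneg _)) hk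
  have h1 : padicNorm p (1 - k * (1 / y) ^ 2) = 1 := by
    rw [sub_eq_add_neg]; exact v_one_add hkw
  have e2 := congrArg (padicNorm p) e
  rw [padicNorm.mul, h1, mul_one] at e2
  rw [e2, pow_succ, pow_succ, pow_one, padicNorm.mul, padicNorm.mul]
  ring

lemma inG_of_t {ρ τ : ℚ} (hρ : 0 < ρ) (hk : padicNorm p k * ρ ^ 6 < 1) (P : SPt (0 : ℚ) k)
    (hP : InG p ρ P) (ht : padicNorm p (tt P) ≤ τ) : InG p τ P := by
  match P, hP, ht with
  | 0, _, _ => trivial
  | .some x y n, hP, ht =>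
    have hw := w_norm hρ hk n hP
    refine ⟨hP.1, ht, ?_⟩
    rw [hw]
    exact pow_le_pow_left₀ (padicNorm.nonneg _) ht 3

lemma tt_ne {ρ : ℚ} (hρ : 0 < ρ) (hk : padicNorm p k * ρ ^ 6 < 1) (P : SPt (0 : ℚ) k)
    (hP : InG p ρ P) (h0 : P ≠ 0) : tt P ≠ 0 := by
  match P, hP, h0 with
  | 0, _, h0 => exact absurd rfl h0
  | .some x y n, hP, _ =>
    intro h
    have hw := w_norm hρ hk n hP
    change x / y = 0 at h
    rw [h, padicNorm.zero] at hw
    have hy : (1 / y) ≠ 0 := one_div_ne_zero hP.1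
    apply padicNorm.nonzero hy (p := p)
    rw [hw]; norm_num

lemma inG_le {ρ : ℚ} (P : SPt (0 : ℚ) k) (hρ : 0 < ρ) (hP : InG p ρ P) :
    padicNorm p (tt P) ≤ ρ := by
  match P, hP with
  | 0, _ =>
    change padicNorm p 0 ≤ ρ
    rw [padicNorm.zero]; exact hρ.le
  | .some x y n, hP => exact hP.2.1

/-- exact multiplication, one step -/
lemma exact_one {ρ : ℚ} (hρ : 0 < ρ) (hk : padicNorm p k * ρ ^ 6 < 1) (P : SPt (0 : ℚ) k)
    (hP : InG p ρ P) (h0 : P ≠ 0) (n : ℕ)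
    (hn : padicNorm p (3 * k) * ρ ^ 6 < padicNorm p n) :
    InG p ρ (n • P) ∧ n • P ≠ 0 ∧ padicNorm p (tt (n • P)) = padicNorm p n * padicNorm p (tt P) := by
  set τ := padicNorm p (tt P) with hτ
  have ht0 := tt_ne hρ hk P hP h0
  have hτ0 : 0 < τ := lt_of_le_of_ne (padicNorm.nonneg _) (Ne.symm (padicNorm.nonzero ht0))
  have hτρ : τ ≤ ρ := inG_le P hρ hP
  have hpow : τ ^ 6 ≤ ρ ^ 6 := pow_le_pow_left₀ hτ0.le hτρ 6
  have hPτ := inG_of_t hρ hk P hP (le_refl τ)
  have hkτ : padicNorm p k * τ ^ 6 < 1 :=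
    lt_of_le_of_lt (mul_le_mul_of_nonneg_left hpow (padicNorm.nonneg _)) hk
  obtain ⟨a, b⟩ := inG_nsmul hτ0 hkτ P hPτ n
  have hlt : padicNorm p (tt (n • P) - n * tt P) < padicNorm p (n * tt P) := by
    rw [padicNorm.mul, ← hτ]
    calc _ ≤ _ := b
      _ = padicNorm p (3 * k) * τ ^ 6 * τ := by ring
      _ < padicNorm p n * τ := by
        apply mul_lt_mul_of_pos_right _ hτ0
        exact lt_of_le_of_lt (mul_le_mul_of_nonneg_left hpow (padicNorm.nonneg _)) hn
  have e : padicNorm p (tt (n • P)) = padicNorm p (n * tt P) := by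
    have h1 : tt (n • P) = (tt (n • P) - n * tt P) + n * tt P := by ring
    rw [h1, padicNorm.add_eq_max_of_ne (ne_of_lt hlt)]
    exact max_eq_right hlt.le
  rw [padicNorm.mul] at e
  refine ⟨(inG_nsmul hρ hk P hP n).1, ?_, e⟩
  intro h
  rw [h] at e
  change padicNorm p 0 = _ at e
  rw [padicNorm.zero] at e
  have hn0 : 0 < padicNorm p (n : ℚ) :=
    lt_of_le_of_lt (mul_nonneg (padicNorm.nonneg _) (pow_pos hρ 6).le) hn
  exact absurd e.symm (mul_pos hn0 hτ0).ne'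

/-- exact multiplication -/
lemma exact_all {ρ : ℚ} (hρ : 0 < ρ) (hk : padicNorm p k * ρ ^ 6 < 1)
    (hk3 : padicNorm p (3 * k) * ρ ^ 6 < (p : ℚ)⁻¹) (n : ℕ) (hn : n ≠ 0) (P : SPt (0 : ℚ) k)
    (hP : InG p ρ P) (h0 : P ≠ 0) :
    InG p ρ (n • P) ∧ n • P ≠ 0 ∧ padicNorm p (tt (n • P)) = padicNorm p n * padicNorm p (tt P) := by
  induction n using Nat.strong_induction_on generalizing P with
  | _ n ih =>
    have hp1 : (1 : ℚ) < p := by exact_mod_cast hp.out.one_lt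
    by_cases hd : p ∣ n
    · obtain ⟨m, rfl⟩ := hd
      have hm : m ≠ 0 := by rintro rfl; exact hn (mul_zero _)
      have hlt : m < p * m := by
        have := hp.out.one_lt
        nlinarith [Nat.pos_of_ne_zero hm]
      obtain ⟨a, b, c⟩ := exact_one hρ hk P hP h0 p (by
        rw [padicNorm.padicNorm_p_of_prime]; exact hk3)
      obtain ⟨a', b', c'⟩ := ih m hlt hm (p • P) a b
      have e : (p * m) • P = m • (p • P) := by rw [mul_comm, mul_smul]
      rw [e]
      refine ⟨a', b', ?_⟩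
      rw [c', c]
      push_cast
      rw [padicNorm.mul]
      ring
    · have h1 : padicNorm p (n : ℚ) = 1 := (padicNorm.nat_eq_one_iff n).mpr hd
      apply exact_one hρ hk P hP h0 n
      rw [h1]
      have : (p : ℚ)⁻¹ < 1 := inv_lt_one_of_one_lt₀ hp1
      linarith

/-- the abscissa and the parameter -/
lemma xc_tt {ρ : ℚ} (hρ : 0 < ρ) (hk : padicNorm p k * ρ ^ 6 < 1) (P : SPt (0 : ℚ) k)
    (hP : InG p ρ P) (h0 : P ≠ 0) : padicNorm p (xc P) * padicNorm p (tt P) ^ 2 = 1 := by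
  have ht := tt_ne hρ hk P hP h0
  match P, hP, h0, ht with
  | 0, _, h0, _ => exact absurd rfl h0
  | .some x y n, hP, _, ht =>
    have hw := w_norm hρ hk n hP
    change padicNorm p x * padicNorm p (x / y) ^ 2 = 1
    change x / y ≠ 0 at ht
    have h3 : padicNorm p (x / y) ≠ 0 := padicNorm.nonzero ht
    have hxy : x = (x / y) / (1 / y) := by
      have := hP.1
      field_simp
    have : padicNorm p x = padicNorm p (x / y) / padicNorm p (x / y) ^ 3 := by
      conv_lhs => rw [hxy]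
      rw [padicNorm.div, hw]
    rw [this]
    field_simp

end pts

end Pool.Agent.Y680.M
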