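import Mathlib
import Pool.Agent.Y680.M.Filt

/-!
# The point `(c₄, c₆)` on `y² = x³ - 1728 Δ`
-/

set_option autoImplicit false
set_option linter.unusedSectionVars false

open WeierstrassCurve

namespace Pool.Agent.Y680.M

open Pool.Agent.TH942

/-- the local conditions on `c₄`, `c₆` and `Δ` of a semistable curve -/
structure Base (c4 c6 D : ℤ) : Prop where
  rel : c4 ^ 3 - c6 ^ 2 = 1728 * D
  D0 : D ≠ 0
  cop : IsCoprime c4 D
  two : 2 ∣ c4 → 16 ∣ c4 ∧ ∃ u, c6 = 8 * (2 * u + 1)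
  three : 3 ∣ c4 → ¬ 9 ∣ c4 ∧ 27 ∣ c6

lemma base_of (W : WeierstrassCurve ℤ) (hD : W.Δ ≠ 0) (hc : IsCoprime W.c₄ W.Δ) :
    Base W.c₄ W.c₆ W.Δ := by
  have hrel := W.c_relation
  refine ⟨hrel.symm, hD, hc, ?_, ?_⟩
  · intro h2
    have hnD : ¬ (2 ∣ W.Δ) := by
      intro h
      have := hc.isUnit_of_dvd' h2 h
      rw [Int.isUnit_iff] at this
      omega
    have hb2 : W.b₂ = W.a₁ ^ 2 + 4 * W.a₂ := rfl
    have hb4 : W.b₄ = 2 * W.a₄ + W.a₁ * W.a₃ := rfl
    have hb6 : W.b₆ = W.a₃ ^ 2 + 4 * W.a₆ := rfl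
    have hc4 : W.c₄ = W.b₂ ^ 2 - 24 * W.b₄ := rfl
    have hc6 : W.c₆ = -W.b₂ ^ 3 + 36 * W.b₂ * W.b₄ - 216 * W.b₆ := rfl
    have ha1 : 2 ∣ W.a₁ := by
      have h1 : 2 ∣ W.b₂ ^ 2 := by
        have : W.b₂ ^ 2 = W.c₄ + 2 * (12 * W.b₄) := by rw [hc4]; ring
        rw [this]
        exact dvd_add h2 (dvd_mul_right _ _)
      have h2' := Int.prime_two.dvd_of_dvd_pow h1
      have h3 : 2 ∣ W.a₁ ^ 2 := by
        have : W.a₁ ^ 2 = W.b₂ + 2 * (-2 * W.a₂) := by rw [hb2]; ring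
        rw [this]
        exact dvd_add h2' (dvd_mul_right _ _)
      exact Int.prime_two.dvd_of_dvd_pow h3
    obtain ⟨a, ha⟩ := ha1
    have hb6' : ¬ (2 ∣ W.b₆) := by
      rintro ⟨e, he⟩
      apply hnD
      have hΔ : W.Δ = -W.b₂ ^ 2 * W.b₈ - 8 * W.b₄ ^ 3 - 27 * W.b₆ ^ 2 + 9 * W.b₂ * W.b₄ * W.b₆ := rfl
      rw [hΔ, hb2, ha, he]
      refine ⟨-2 * (2 * a ^ 2 + 2 * W.a₂) ^ 2 * W.b₈ - 4 * W.b₄ ^ 3 - 54 * e ^ 2 +
        9 * ((2 * a) ^ 2 + 4 * W.a₂) * W.b₄ * e, ?_⟩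
      ring
    have ha3 : ¬ (2 ∣ W.a₃) := by
      rintro ⟨e, he⟩
      apply hb6'
      rw [hb6, he]
      exact ⟨2 * e ^ 2 + 2 * W.a₆, by ring⟩
    obtain ⟨b, hb⟩ : ∃ b, W.a₃ = 2 * b + 1 := by
      have := Int.emod_two_eq_zero_or_one W.a₃
      rcases this with h | h
      · exact absurd (Int.dvd_of_emod_eq_zero h) ha3
      · exact ⟨W.a₃ / 2, by omega⟩
    constructor
    · rw [hc4, hb2, hb4, ha, hb]
      refine ⟨(a ^ 2 + W.a₂) ^ 2 - 3 * (W.a₄ + a * (2 * b + 1)), ?_⟩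
      ring
    · rw [hc6, hb2, hb4, hb6, ha, hb]
      refine ⟨-4 * (a ^ 2 + W.a₂) ^ 3 + 18 * (a ^ 2 + W.a₂) * (W.a₄ + a * (2 * b + 1)) -
        54 * (b ^ 2 + b + W.a₆) - 14, ?_⟩
      ring
  · intro h3
    have hb2 : 3 ∣ W.b₂ := by
      have h1 : 3 ∣ W.b₂ ^ 2 := by
        have : W.b₂ ^ 2 = W.c₄ + 3 * (8 * W.b₄) := by
          have hc4 : W.c₄ = W.b₂ ^ 2 - 24 * W.b₄ := rfl
          rw [hc4]; ring
        rw [this]
        exact dvd_add h3 (dvd_mul_right _ _)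
      exact Int.prime_three.dvd_of_dvd_pow h1
    obtain ⟨b, hb⟩ := hb2
    have hc4 : W.c₄ = W.b₂ ^ 2 - 24 * W.b₄ := rfl
    have hc6 : W.c₆ = -W.b₂ ^ 3 + 36 * W.b₂ * W.b₄ - 216 * W.b₆ := rfl
    have hΔ : W.Δ = -W.b₂ ^ 2 * W.b₈ - 8 * W.b₄ ^ 3 - 27 * W.b₆ ^ 2 + 9 * W.b₂ * W.b₄ * W.b₆ := rfl
    constructor
    · rintro ⟨m, hm⟩
      have hb4 : 3 ∣ W.b₄ := by
        have h1 : (3 : ℤ) ∣ 8 * W.b₄ := by
          refine ⟨b ^ 2 - m, ?_⟩
          have : (3 : ℤ) * (8 * W.b₄) = 3 * (3 * (b ^ 2 - m)) := by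
            rw [hc4, hb] at hm
            linear_combination (-1 : ℤ) * hm
          exact mul_left_cancel₀ (by norm_num) this
        exact (Int.prime_three.dvd_or_dvd h1).resolve_left (by norm_num)
      obtain ⟨e, he⟩ := hb4
      have hnD : ¬ (3 ∣ W.Δ) := by
        intro h
        have := hc.isUnit_of_dvd' h3 h
        rw [Int.isUnit_iff] at this
        omega
      apply hnD
      rw [hΔ, hb, he]
      exact ⟨-3 * b ^ 2 * W.b₈ - 72 * e ^ 3 - 9 * W.b₆ ^ 2 + 27 * b * e * W.b₆, by ring⟩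
    · rw [hc6, hb]
      exact ⟨-b ^ 3 + 4 * b * W.b₄ - 8 * W.b₆, by ring⟩

section point

variable {c4 c6 D : ℤ}

lemma Base.c4_ne (h : Base c4 c6 D) : c4 ≠ 0 := by
  rintro rfl
  have hD : D = 1 ∨ D = -1 := by
    have := h.cop
    rw [isCoprime_zero_left] at this
    exact Int.isUnit_iff.mp this
  have := h.rel
  obtain ⟨-, u, hu⟩ := h.two (by norm_num)
  rw [hu] at this
  rcases hD with rfl | rfl
  · have : (2 * u + 1) ^ 2 = -27 := by linarith
    nlinarith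
  · have h27 : (2 * u + 1) ^ 2 = 27 := by linarith
    have : u * (u + 1) * 2 = 13 := by linarith
    omega

/-- the constant `k = c₆² - c₄³` -/
def kk (c4 c6 : ℤ) : ℚ := (c6 : ℚ) ^ 2 - (c4 : ℚ) ^ 3

lemma Base.kk_eq (h : Base c4 c6 D) : kk c4 c6 = -1728 * (D : ℚ) := by
  have := h.rel
  have h2 : ((c4 ^ 3 - c6 ^ 2 : ℤ) : ℚ) = ((1728 * D : ℤ) : ℚ) := by rw [this]
  push_cast at h2
  rw [kk]
  linarith

lemma Base.kk_ne (h : Base c4 c6 D) : kk c4 c6 ≠ 0 := by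
  rw [h.kk_eq]
  have : (D : ℚ) ≠ 0 := by exact_mod_cast h.D0
  simpa using this

lemma q0_ns (h : Base c4 c6 D) :
    (sw (0 : ℚ) (kk c4 c6)).toAffine.Nonsingular (c4 : ℚ) (c6 : ℚ) := by
  apply nonsing (sw_D h.kk_ne)
  rw [(sw_short _).eqn]
  change (c6 : ℚ) ^ 2 = (c4 : ℚ) ^ 3 + 0 * (c4 : ℚ) + kk c4 c6
  rw [kk]; ring

/-- the point `(c₄, c₆)` -/
def q0 (h : Base c4 c6 D) : SPt (0 : ℚ) (kk c4 c6) := .some _ _ (q0_ns h)

variable {k : ℚ} {p : ℕ} [hp : Fact p.Prime]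

/-- a point with a large abscissa -/
lemma inG_one (hk : padicNorm p k < 1) {x y : ℚ} (n : (sw (0 : ℚ) k).toAffine.Nonsingular x y)
    (hx : 1 ≤ padicNorm p x) : InG p 1 (Affine.Point.some x y n : SPt (0 : ℚ) k) := by
  have q : y ^ 2 = x ^ 3 + k := by
    have := (sw_short k).eqn.mp n.1
    rw [this]
    change x ^ 3 + 0 * x + k = _
    ring
  have hx3 : padicNorm p (x ^ 3) = padicNorm p x ^ 3 := by
    rw [pow_succ, pow_succ, pow_one, padicNorm.mul, padicNorm.mul]; ring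
  have h1 : 1 ≤ padicNorm p x ^ 3 := one_le_pow₀ hx
  have hlt : padicNorm p k < padicNorm p (x ^ 3) := by rw [hx3]; linarith
  have hy2 : padicNorm p y ^ 2 = padicNorm p x ^ 3 := by
    have a : padicNorm p (y ^ 2) = padicNorm p y ^ 2 := by
      rw [pow_two, pow_two, padicNorm.mul]
    rw [← a, q, padicNorm.add_eq_max_of_ne (ne_of_gt hlt), ← hx3]
    exact max_eq_left hlt.le
  have hy1 : 1 ≤ padicNorm p y := by
    by_contra hcon
    push Not at hcon
    have : padicNorm p y ^ 2 < 1 := pow_lt_one₀ (padicNorm.nonneg _) hcon (by norm_num)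
    linarith
  have hy0 : y ≠ 0 := by
    rintro rfl
    rw [padicNorm.zero] at hy1
    norm_num at hy1
  have hypos : 0 < padicNorm p y := by linarith
  refine ⟨hy0, ?_, ?_⟩
  · rw [padicNorm.div, div_le_one hypos]
    by_contra hcon
    push Not at hcon
    have h2 : padicNorm p y ^ 2 < padicNorm p x ^ 2 := by
      apply pow_lt_pow_left₀ hcon hypos.le; norm_num
    have h3 : padicNorm p x ^ 2 ≤ padicNorm p x ^ 3 := by
      apply pow_le_pow_right₀ hx; norm_num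
    linarith
  · rw [padicNorm.div, padicNorm.one, one_pow, div_le_one hypos]
    exact hy1

lemma v_lt_add {a b : ℚ} (h : padicNorm p b < padicNorm p a) :
    padicNorm p (a + b) = padicNorm p a := by
  rw [padicNorm.add_eq_max_of_ne (ne_of_gt h)]
  exact max_eq_left h.le

lemma v_lt_sub {a b : ℚ} (h : padicNorm p b < padicNorm p a) :
    padicNorm p (a - b) = padicNorm p a := by
  rw [sub_eq_add_neg]
  apply v_lt_add
  rwa [padicNorm.neg]

lemma Base.k_lt (h : Base c4 c6 D) (hp : (p : ℤ) ∣ 1728 * D) : padicNorm p (kk c4 c6) < 1 := by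
  rw [h.kk_eq]
  have : (-1728 * (D : ℚ)) = ((-(1728 * D) : ℤ) : ℚ) := by push_cast; ring
  rw [this, padicNorm.int_lt_one_iff]
  exact (dvd_neg).mpr hp

lemma v_sq (a : ℚ) : padicNorm p (a ^ 2) = padicNorm p a ^ 2 := by
  rw [pow_two, pow_two, padicNorm.mul]

lemma loc_two (h : Base c4 c6 D) (h2 : 2 ∣ c4) :
    ∃ x y n, 3 • q0 h = (Affine.Point.some x y n : SPt (0 : ℚ) (kk c4 c6)) ∧
      1 ≤ padicNorm 2 x := by
  obtain ⟨⟨e, he⟩, u, hu⟩ := h.two h2
  have f2 : Fact (Nat.Prime 2) := ⟨Nat.prime_two⟩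
  have e0 : e ≠ 0 := by
    rintro rfl
    exact h.c4_ne (by rw [he]; ring)
  have n2 : NeZero (2 : ℚ) := ⟨by norm_num⟩
  set a := padicNorm 2 (e : ℚ) with ha
  have ha1 : a ≤ 1 := padicNorm.of_int e
  have ha0 : 0 < a := lt_of_le_of_ne (padicNorm.nonneg _)
    (Ne.symm (padicNorm.nonzero (by exact_mod_cast e0)))
  have vv2 : padicNorm 2 (2 : ℚ) = 1 / 2 := by
    have := padicNorm.padicNorm_p_of_prime (p := 2)
    push_cast at this
    rw [this]; norm_num
  have v16 : padicNorm 2 (16 : ℚ) = 1 / 16 := by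
    have : (16 : ℚ) = 2 * 2 * 2 * 2 := by norm_num
    rw [this, padicNorm.mul, padicNorm.mul, padicNorm.mul, vv2]; norm_num
  have v8 : padicNorm 2 (8 : ℚ) = 1 / 8 := by
    have : (8 : ℚ) = 2 * 2 * 2 := by norm_num
    rw [this, padicNorm.mul, padicNorm.mul, vv2]; norm_num
  have v3 : padicNorm 2 (3 : ℚ) = 1 := by
    have := (padicNorm.int_eq_one_iff (p := 2) 3).mpr (by norm_num)
    exact_mod_cast this
  have vx1 : padicNorm 2 (c4 : ℚ) = a / 16 := by
    rw [he]; push_cast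
    rw [padicNorm.mul, v16, ← ha]; ring
  have vy1 : padicNorm 2 (c6 : ℚ) = 1 / 8 := by
    rw [hu]
    have h1 : padicNorm 2 (((2 * u + 1 : ℤ)) : ℚ) = 1 := by
      rw [padicNorm.int_eq_one_iff]
      norm_num
    push_cast at h1 ⊢
    rw [padicNorm.mul, v8, h1]; norm_num
  have y10 : (c6 : ℚ) ≠ 0 := by
    intro h0; rw [h0, padicNorm.zero] at vy1; norm_num at vy1
  have hS := sw_short (kk c4 c6)
  obtain ⟨l, hn, hch, hs⟩ := hS.add_some (q0_ns h) (q0_ns h) (by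
    rintro ⟨-, h1⟩
    apply y10
    linarith)
  have vl : padicNorm 2 l = a ^ 2 / 16 := by
    have h1 := hch.h1
    have h1' : l * (2 * (c6 : ℚ)) = 3 * (c4 : ℚ) ^ 2 := by
      have : (sw (0 : ℚ) (kk c4 c6)).a₄ = 0 := rfl
      rw [this] at h1
      linear_combination h1
    have h3 := congrArg (padicNorm 2) h1'
    rw [padicNorm.mul, padicNorm.mul, padicNorm.mul, v_sq, vx1, vy1, vv2, v3] at h3
    linarith
  set x2 := l ^ 2 - (c4 : ℚ) - (c4 : ℚ) with hx2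
  set y2 := -(l * (x2 - (c4 : ℚ)) + (c6 : ℚ)) with hy2
  have vd : padicNorm 2 (x2 - (c4 : ℚ)) = a / 16 := by
    have e1 : x2 - (c4 : ℚ) = -(3 * (c4 : ℚ) - l ^ 2) := by rw [hx2]; ring
    rw [e1, padicNorm.neg, v_lt_sub]
    · rw [padicNorm.mul, v3, vx1, one_mul]
    · rw [padicNorm.mul, v3, vx1, one_mul, v_sq, vl]
      have : a ^ 4 ≤ a := by
        calc a ^ 4 ≤ a ^ 1 := pow_le_pow_of_le_one ha0.le ha1 (by norm_num)
          _ = a := pow_one a
      nlinarith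
  have hd0 : x2 - (c4 : ℚ) ≠ 0 := by
    intro h0
    rw [h0, padicNorm.zero] at vd
    linarith
  obtain ⟨l', hn', hch', hs'⟩ := hS.add_some hn (q0_ns h) (fun hh => hd0 (sub_eq_zero.mpr hh.1))
  have e3 : 3 • q0 h = (q0 h + q0 h) + q0 h := by
    rw [show (3 : ℕ) = 1 + 1 + 1 from rfl, add_smul, add_smul, one_smul]
  refine ⟨_, _, hn', ?_, ?_⟩
  · rw [e3, ← hs']
    congr 1
  · have hh2 := hch'.h2
    have vnum : padicNorm 2 (y2 - (c6 : ℚ)) = 1 / 16 := by
      have e1 : y2 - (c6 : ℚ) = -(2 * (c6 : ℚ) + l * (x2 - (c4 : ℚ))) := by rw [hy2]; ring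
      rw [e1, padicNorm.neg, v_lt_add]
      · rw [padicNorm.mul, vv2, vy1]; norm_num
      · rw [padicNorm.mul, padicNorm.mul, vv2, vy1, vl, vd]
        have : a ^ 3 ≤ 1 := pow_le_one₀ ha0.le ha1
        nlinarith
    have vl' : padicNorm 2 l' * (a / 16) = 1 / 16 := by
      have := congrArg (padicNorm 2) hh2
      rw [padicNorm.mul, vd, vnum] at this
      exact this.symm
    have vl1 : 1 ≤ padicNorm 2 l' := by
      have h0 := padicNorm.nonneg (p := 2) l'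
      nlinarith
    have vl2 : 1 ≤ padicNorm 2 l' ^ 2 := one_le_pow₀ vl1
    have e4 : l' ^ 2 - x2 - (c4 : ℚ) = l' ^ 2 - ((x2 - (c4 : ℚ)) + 2 * (c4 : ℚ)) := by ring
    rw [e4, v_lt_sub]
    · rw [v_sq]; exact vl2
    · rw [v_sq]
      have hle : padicNorm 2 ((x2 - (c4 : ℚ)) + 2 * (c4 : ℚ)) ≤ 1 / 16 := by
        apply v_add_le
        · rw [vd]; linarith
        · rw [padicNorm.mul, vv2, vx1]; linarith
      linarith

lemma loc_three (h : Base c4 c6 D) (h3 : 3 ∣ c4) : InG 3 1 (2 • q0 h) := by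
  obtain ⟨h9, h27⟩ := h.three h3
  have f3 : Fact (Nat.Prime 3) := ⟨Nat.prime_three⟩
  have n2 : NeZero (2 : ℚ) := ⟨by norm_num⟩
  have hS := sw_short (kk c4 c6)
  rw [two_smul]
  by_cases hy : (c6 : ℚ) = 0
  · have : q0 h + q0 h = 0 := by
      apply Affine.Point.add_self_of_Y_eq
      rw [hS.negY, hy, _root_.neg_zero]
    rw [this]
    trivial
  · obtain ⟨l, hn, hch, hs⟩ := hS.add_some (q0_ns h) (q0_ns h) (by
      rintro ⟨-, h1⟩
      apply hy
      linarith)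
    have e : q0 h + q0 h = Affine.Point.some _ _ hn := hs
    rw [e]
    apply inG_one
    · apply h.k_lt
      exact ⟨576 * D, by push_cast; ring⟩
    · have vv3 : padicNorm 3 (3 : ℚ) = 1 / 3 := by
        have := padicNorm.padicNorm_p_of_prime (p := 3)
        push_cast at this
        rw [this]; norm_num
      have vv2 : padicNorm 3 (2 : ℚ) = 1 := by
        have := (padicNorm.int_eq_one_iff (p := 3) 2).mpr (by norm_num)
        exact_mod_cast this
      obtain ⟨c, hc⟩ := h3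
      have hc3 : ¬ ((3 : ℕ) : ℤ) ∣ c := by
        rintro ⟨m, hm⟩
        apply h9
        rw [hc, hm]
        exact ⟨m, by push_cast; ring⟩
      have vx1 : padicNorm 3 (c4 : ℚ) = 1 / 3 := by
        rw [hc]
        have : padicNorm 3 (c : ℚ) = 1 := (padicNorm.int_eq_one_iff (p := 3) c).mpr hc3
        push_cast
        rw [padicNorm.mul, vv3, this, mul_one]
      have vy1 : padicNorm 3 (c6 : ℚ) ≤ 1 / 27 := by
        obtain ⟨m, hm⟩ := h27
        rw [hm]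
        have h1 : padicNorm 3 (m : ℚ) ≤ 1 := padicNorm.of_int m
        have : ((27 * m : ℤ) : ℚ) = 3 * (3 * (3 * (m : ℚ))) := by push_cast; ring
        rw [this, padicNorm.mul, padicNorm.mul, padicNorm.mul, vv3]
        linarith
      have hy0 : 0 < padicNorm 3 (c6 : ℚ) :=
        lt_of_le_of_ne (padicNorm.nonneg _) (Ne.symm (padicNorm.nonzero hy))
      have h1' : l * (2 * (c6 : ℚ)) = 3 * (c4 : ℚ) ^ 2 := by
        have h1 := hch.h1
        have : (sw (0 : ℚ) (kk c4 c6)).a₄ = 0 := rfl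
        rw [this] at h1
        linear_combination h1
      have h3 := congrArg (padicNorm 3) h1'
      rw [padicNorm.mul, padicNorm.mul, padicNorm.mul, v_sq, vx1, vv2, vv3, one_mul] at h3
      have vl : 1 ≤ padicNorm 3 l := by
        by_contra hcon
        push Not at hcon
        have := padicNorm.nonneg (p := 3) l
        nlinarith
      have e4 : l ^ 2 - (c4 : ℚ) - (c4 : ℚ) = l ^ 2 - 2 * (c4 : ℚ) := by ring
      have vl2 : 1 ≤ padicNorm 3 l ^ 2 := one_le_pow₀ vl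
      rw [e4, v_lt_sub]
      · rw [v_sq]; exact vl2
      · rw [v_sq, padicNorm.mul, vv2, vx1]; linarith

lemma loc_unit (h : Base c4 c6 D) (hp : (p : ℤ) ∣ 1728 * D) (hc : ¬ (p : ℤ) ∣ c4) :
    InG p 1 (q0 h) := by
  apply inG_one (h.k_lt hp)
  rw [(padicNorm.int_eq_one_iff c4).mpr hc]

/-- at every bad prime some small multiple of the point lies in the filtration -/
lemma loc_all (h : Base c4 c6 D) (hp' : (p : ℤ) ∣ 1728 * D) : InG p 1 (6 • q0 h) := by
  have hk := h.k_lt hp'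
  have hk1 : padicNorm p (kk c4 c6) * (1 : ℚ) ^ 6 < 1 := by rw [one_pow, mul_one]; exact hk
  by_cases hc : (p : ℤ) ∣ c4
  · have hpD : ¬ (p : ℤ) ∣ D := by
      intro hd
      have := h.cop.isUnit_of_dvd' hc hd
      rw [Int.isUnit_iff] at this
      have := hp.out.two_le
      omega
    have h1728 : p ∣ 1728 := by
      have := (Nat.prime_iff_prime_int.mp hp.out).dvd_or_dvd hp'
      rcases this with h1 | h1
      · exact_mod_cast h1
      · exact absurd h1 hpD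
    have hp23 : p = 2 ∨ p = 3 := by
      have : 1728 = 2 ^ 6 * 3 ^ 3 := by norm_num
      rw [this, hp.out.dvd_mul] at h1728
      rcases h1728 with h1 | h1
      · left; exact (Nat.prime_dvd_prime_iff_eq hp.out Nat.prime_two).mp (hp.out.dvd_of_dvd_pow h1)
      · right; exact (Nat.prime_dvd_prime_iff_eq hp.out Nat.prime_three).mp (hp.out.dvd_of_dvd_pow h1)
    rcases hp23 with rfl | rfl
    · obtain ⟨x, y, n, e, hx⟩ := loc_two h (by exact_mod_cast hc)
      have h3 : InG 2 1 (3 • q0 h) := by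
        rw [e]; exact inG_one hk n hx
      have := (inG_nsmul one_pos hk1 _ h3 2).1
      rwa [smul_smul] at this
    · have h2 := loc_three h (by exact_mod_cast hc)
      have := (inG_nsmul one_pos hk1 _ h2 3).1
      rwa [smul_smul] at this
  · exact (inG_nsmul one_pos hk1 _ (loc_unit h hp' hc) 6).1

/-- the point has infinite order -/
lemma q0_inf (h : Base c4 c6 D) (n : ℕ) (hn : n ≠ 0) : n • q0 h ≠ 0 := by
  have f2 : Fact (Nat.Prime 2) := ⟨Nat.prime_two⟩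
  have hd : ((2 : ℕ) : ℤ) ∣ 1728 * D := ⟨864 * D, by push_cast; ring⟩
  have hk := h.k_lt hd
  have hk1 : padicNorm 2 (kk c4 c6) * (1 : ℚ) ^ 6 < 1 := by rw [one_pow, mul_one]; exact hk
  have vv2 : padicNorm 2 (2 : ℚ) = 1 / 2 := by
    have := padicNorm.padicNorm_p_of_prime (p := 2)
    push_cast at this
    rw [this]; norm_num
  have hk3 : padicNorm 2 (3 * kk c4 c6) * (1 : ℚ) ^ 6 < ((2 : ℕ) : ℚ)⁻¹ := by
    rw [one_pow, mul_one, h.kk_eq]
    have e : (3 * (-1728 * (D : ℚ))) = 2 * (2 * (((-1296 * D : ℤ)) : ℚ)) := by push_cast; ring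
    rw [e, padicNorm.mul, padicNorm.mul, vv2]
    have : padicNorm 2 (((-1296 * D : ℤ)) : ℚ) ≤ 1 := padicNorm.of_int _
    have e2 : ((2 : ℕ) : ℚ)⁻¹ = 1 / 2 := by norm_num
    rw [e2]
    linarith
  have key : ∃ c : ℕ, InG 2 1 (c • q0 h) ∧ c • q0 h ≠ 0 := by
    by_cases hc : 2 ∣ c4
    · obtain ⟨x, y, m, e, hx⟩ := loc_two h hc
      refine ⟨3, ?_, ?_⟩
      · rw [e]; exact inG_one hk m hx
      · rw [e]; exact Affine.Point.some_ne_zero _
    · refine ⟨1, ?_, ?_⟩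
      · rw [one_smul]; exact loc_unit h hd (by exact_mod_cast hc)
      · rw [one_smul]; exact Affine.Point.some_ne_zero _
  obtain ⟨c, hc1, hc2⟩ := key
  intro h0
  have := (exact_all one_pos hk1 hk3 n hn _ hc1 hc2).2.1
  apply this
  rw [smul_smul, mul_comm, mul_smul, h0, smul_zero]

end point

end Pool.Agent.Y680.M
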