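import Mathlib
import Pool.Agent.Y680.M.Chord

/-!
# Isomorphisms between the `m`-torsion subgroups of two groups with an action
-/

set_option autoImplicit false

namespace Pool.Agent.Y680.M

/-- mutually inverse equivariant isomorphisms between the `m`-torsion of `A` and of `B` -/
structure TI {A B Γ : Type*} [AddCommGroup A] [AddCommGroup B] (m : ℕ) (aA : Γ → A →+ A)
    (aB : Γ → B →+ B) (f : A → B) (g : B → A) : Prop where
  ft : ∀ P, m • P = 0 → m • f P = 0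
  gt : ∀ P, m • P = 0 → m • g P = 0
  gf : ∀ P, m • P = 0 → g (f P) = P
  fg : ∀ P, m • P = 0 → f (g P) = P
  add : ∀ P Q, m • P = 0 → m • Q = 0 → f (P + Q) = f P + f Q
  act : ∀ σ P, m • P = 0 → f (aA σ P) = aB σ (f P)

namespace TI

variable {A B C Γ : Type*} [AddCommGroup A] [AddCommGroup B] [AddCommGroup C]
  {aA : Γ → A →+ A} {aB : Γ → B →+ B} {aC : Γ → C →+ C}

lemma symm {m : ℕ} {f : A → B} {g : B → A} (h : TI m aA aB f g) : TI m aB aA g f where
  ft := h.gt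
  gt := h.ft
  gf := h.fg
  fg := h.gf
  add P Q hP hQ := by
    have h1 := h.add (g P) (g Q) (h.gt P hP) (h.gt Q hQ)
    rw [h.fg P hP, h.fg Q hQ] at h1
    rw [← h1, h.gf]
    rw [nsmul_add, h.gt P hP, h.gt Q hQ, add_zero]
  act σ P hP := by
    have h1 := h.act σ (g P) (h.gt P hP)
    rw [h.fg P hP] at h1
    rw [← h1, h.gf]
    rw [← map_nsmul, h.gt P hP, map_zero]

lemma trans {m : ℕ} {f : A → B} {g : B → A} {f' : B → C} {g' : C → B} (h : TI m aA aB f g)
    (h' : TI m aB aC f' g') : TI m aA aC (f' ∘ f) (g ∘ g') where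
  ft P hP := h'.ft _ (h.ft _ hP)
  gt P hP := h.gt _ (h'.gt _ hP)
  gf P hP := by
    simp only [Function.comp_apply]
    rw [h'.gf _ (h.ft _ hP), h.gf _ hP]
  fg P hP := by
    simp only [Function.comp_apply]
    rw [h.fg _ (h'.gt _ hP), h'.fg _ hP]
  add P Q hP hQ := by
    simp only [Function.comp_apply]
    rw [h.add P Q hP hQ, h'.add _ _ (h.ft _ hP) (h.ft _ hQ)]
  act σ P hP := by
    simp only [Function.comp_apply]
    rw [h.act σ P hP, h'.act _ _ (h.ft _ hP)]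

lemma ofEquiv (m : ℕ) (e : A ≃+ B) (he : ∀ σ P, e (aA σ P) = aB σ (e P)) :
    TI m aA aB e e.symm where
  ft P hP := by rw [← map_nsmul, hP, map_zero]
  gt P hP := by rw [← map_nsmul, hP, map_zero]
  gf P _ := e.symm_apply_apply P
  fg P _ := e.apply_symm_apply P
  add P Q _ _ := map_add e P Q
  act σ P _ := he σ P

lemma key23 {X Y : Type*} [AddCommGroup X] [AddCommGroup Y] (p q : X → Y)
    (hp : ∀ P, 2 • P = 0 → 2 • p P = 0) (hq : ∀ P, 3 • P = 0 → 3 • q P = 0) (P : X)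
    (h23 : 2 • (3 • P) = 0) (h32 : 3 • (2 • P) = 0) :
    3 • (p (3 • P) - q (2 • P)) = p (3 • P) ∧ 2 • (p (3 • P) - q (2 • P)) = q (2 • P) := by
  have a1 := hp _ h23
  have a2 := hq _ h32
  constructor
  · calc 3 • (p (3 • P) - q (2 • P)) = 2 • p (3 • P) + p (3 • P) - 3 • q (2 • P) := by abel
      _ = p (3 • P) := by rw [a1, a2]; abel
  · calc 2 • (p (3 • P) - q (2 • P)) = 2 • p (3 • P) + q (2 • P) - 3 • q (2 • P) := by abel
      _ = q (2 • P) := by rw [a1, a2]; abel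

/-- the 6-torsion from the 2-torsion and the 3-torsion -/
lemma six {f2 f3 : A → B} {g2 g3 : B → A} (h2 : TI 2 aA aB f2 g2) (h3 : TI 3 aA aB f3 g3) :
    TI 6 aA aB (fun P => f2 (3 • P) - f3 (2 • P)) (fun P => g2 (3 • P) - g3 (2 • P)) := by
  have kf := key23 f2 f3 h2.ft h3.ft
  have kg := key23 g2 g3 h2.gt h3.gt
  have a2 : ∀ P : A, 6 • P = 0 → 2 • (3 • P) = 0 := fun P h => by rw [smul_smul]; exact h
  have a3 : ∀ P : A, 6 • P = 0 → 3 • (2 • P) = 0 := fun P h => by rw [smul_smul]; exact h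
  have b2 : ∀ P : B, 6 • P = 0 → 2 • (3 • P) = 0 := fun P h => by rw [smul_smul]; exact h
  have b3 : ∀ P : B, 6 • P = 0 → 3 • (2 • P) = 0 := fun P h => by rw [smul_smul]; exact h
  refine ⟨?_, ?_, ?_, ?_, ?_, ?_⟩
  · intro P hP
    have := (kf P (a2 P hP) (a3 P hP)).1
    rw [show (6 : ℕ) = 2 * 3 from rfl, mul_smul, this]
    exact h2.ft _ (a2 P hP)
  · intro P hP
    have := (kg P (b2 P hP) (b3 P hP)).1
    rw [show (6 : ℕ) = 2 * 3 from rfl, mul_smul, this]
    exact h2.gt _ (b2 P hP)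
  · intro P hP
    have := kf P (a2 P hP) (a3 P hP)
    rw [this.1, this.2, h2.gf _ (a2 P hP), h3.gf _ (a3 P hP)]
    abel
  · intro P hP
    have := kg P (b2 P hP) (b3 P hP)
    rw [this.1, this.2, h2.fg _ (b2 P hP), h3.fg _ (b3 P hP)]
    abel
  · intro P Q hP hQ
    rw [smul_add, smul_add, h2.add _ _ (a2 P hP) (a2 Q hQ), h3.add _ _ (a3 P hP) (a3 Q hQ)]
    abel
  · intro σ P hP
    rw [← map_nsmul, ← map_nsmul, h2.act _ _ (a2 P hP), h3.act _ _ (a3 P hP), map_sub]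

end TI

end Pool.Agent.Y680.M
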