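import Mathlib
import Pool.Agent.Y680.M.Chord
import Pool.Agent.Y680.M.Tors

/-!
# Projective linear maps on the 3-torsion, and maps on the 2-torsion
-/

set_option autoImplicit false

open WeierstrassCurve

namespace Pool.Agent.Y680.M

variable {F : Type*} [Field F]

/-- the third division polynomial of a short curve -/
def psi3 (W : WeierstrassCurve F) (x : F) : F :=
  3 * x ^ 4 + 6 * W.a₄ * x ^ 2 + 12 * W.a₆ * x - W.a₄ ^ 2

variable [DecidableEq F] {W W' : WeierstrassCurve F}

lemma three_iff [CharZero F] (hS : IsShort W) (hD : W.Δ ≠ 0) {x y : F}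
    (p : W.toAffine.Nonsingular x y) :
    3 • (Affine.Point.some x y p : W.toAffine.Point) = 0 ↔ psi3 W x = 0 := by
  have q := hS.eqn.mp p.1
  have h2 : (2 : F) ≠ 0 := by norm_num
  set P : W.toAffine.Point := Affine.Point.some x y p with hP
  have h3P : 3 • P = P + P + P := by
    rw [show (3 : ℕ) = 1 + 1 + 1 from rfl, add_smul, add_smul, one_smul]
  rw [h3P, add_eq_zero_iff_eq_neg]
  by_cases hy : y = 0
  · have hPP : P + P = 0 := by
      rw [hP]
      apply Affine.Point.add_self_of_Y_eq
      rw [hS.negY, hy, _root_.neg_zero]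
    rw [hPP]
    constructor
    · intro h
      have : P = 0 := by rw [eq_comm, neg_eq_zero] at h; exact h
      exact absurd this (Affine.Point.some_ne_zero _)
    · intro h
      exfalso
      rw [hy] at q
      have e : (3 * x ^ 2 + W.a₄) ^ 2 = 0 := by
        simp only [psi3] at h
        linear_combination (-1 : F) * h - 12 * x * q
      have e2 : 3 * x ^ 2 + W.a₄ = 0 := pow_eq_zero_iff (two_ne_zero) |>.mp e
      apply hD
      rw [hS.delta]
      have ha : W.a₄ = -3 * x ^ 2 := by linear_combination e2
      have hb : W.a₆ = 2 * x ^ 3 := by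
        rw [ha] at q
        linear_combination (-1 : F) * q
      rw [ha, hb]
      ring
  · have : NeZero (2 : F) := ⟨h2⟩
    obtain ⟨l, hn, hch, hs⟩ := hS.add_some p p (by
      rintro ⟨-, h⟩
      apply hy
      have : (2 : F) * y = 0 := by linear_combination h
      exact (mul_eq_zero.mp this).resolve_left h2)
    rw [← hP] at hs
    rw [hs, hP, hS.neg_some p (hS.nonsing_neg p)]
    simp only [Affine.Point.some.injEq]
    have h2y : (2 : F) * y ≠ 0 := mul_ne_zero h2 hy
    have hl : 2 * y * l = 3 * x ^ 2 + W.a₄ := by
      have := hch.h1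
      linear_combination this
    have key : (l ^ 2 - x - x = x) ↔ psi3 W x = 0 := by
      have e : (2 * y) ^ 2 * (l ^ 2 - x - x - x) = -psi3 W x := by
        simp only [psi3]
        linear_combination (2 * y * l + 3 * x ^ 2 + W.a₄) * hl - 12 * x * q
      constructor
      · intro h
        have : l ^ 2 - x - x - x = 0 := by rw [h]; ring
        rw [this, mul_zero] at e
        exact neg_eq_zero.mp e.symm
      · intro h
        rw [h, _root_.neg_zero] at e
        have := (mul_eq_zero.mp e).resolve_left (pow_ne_zero 2 h2y)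
        linear_combination this
    rw [← key]
    constructor
    · rintro ⟨h, -⟩
      exact h
    · intro h
      refine ⟨h, ?_⟩
      rw [h]
      ring

open scoped Classical in
/-- the projective linear map `(x, y) ↦ ((α x + β) / (γ x + δ), κ y / (γ x + δ))` -/
noncomputable def pm (W W' : WeierstrassCurve F) (α β γ δ κ : F) :
    W.toAffine.Point → W'.toAffine.Point
  | 0 => 0
  | .some x y _ =>
    if h : W'.toAffine.Nonsingular ((α * x + β) / (γ * x + δ)) (κ * y / (γ * x + δ)) then
      .some _ _ h else 0

/-- the hypothesis on a projective linear map which makes it a map of the 3-torsion -/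
def PMH (W W' : WeierstrassCurve F) (α β γ δ κ : F) : Prop :=
  ∀ x y : F, W.toAffine.Nonsingular x y → psi3 W x = 0 →
    γ * x + δ ≠ 0 ∧ W'.toAffine.Nonsingular ((α * x + β) / (γ * x + δ)) (κ * y / (γ * x + δ)) ∧
      psi3 W' ((α * x + β) / (γ * x + δ)) = 0

omit [DecidableEq F] in
lemma pm_zero (α β γ δ κ : F) : pm W W' α β γ δ κ 0 = 0 := rfl

omit [DecidableEq F] in
lemma pm_some {α β γ δ κ : F} {x y : F} (p : W.toAffine.Nonsingular x y)
    (h : W'.toAffine.Nonsingular ((α * x + β) / (γ * x + δ)) (κ * y / (γ * x + δ))) :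
    pm W W' α β γ δ κ (.some x y p) = .some _ _ h := by
  simp only [pm]
  rw [dif_pos h]

variable [CharZero F]

lemma pm_tors (hS : IsShort W) (hD : W.Δ ≠ 0) (hS' : IsShort W') (hD' : W'.Δ ≠ 0)
    {α β γ δ κ : F} (H : PMH W W' α β γ δ κ) (P : W.toAffine.Point) (hP : 3 • P = 0) :
    3 • pm W W' α β γ δ κ P = 0 := by
  match P with
  | 0 => rw [pm_zero, smul_zero]
  | .some x y p =>
    rw [three_iff hS hD] at hP
    obtain ⟨_, h2, h3⟩ := H x y p hP
    rw [pm_some p h2, three_iff hS' hD']
    exact h3

lemma pm_neg (hS : IsShort W) (hD : W.Δ ≠ 0) (hS' : IsShort W')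
    {α β γ δ κ : F} (H : PMH W W' α β γ δ κ) (P : W.toAffine.Point) (hP : 3 • P = 0) :
    pm W W' α β γ δ κ (-P) = - pm W W' α β γ δ κ P := by
  match P with
  | 0 => simp [pm_zero]
  | .some x y p =>
    rw [three_iff hS hD] at hP
    obtain ⟨_, h2, h3⟩ := H x y p hP
    obtain ⟨_, h2', h3'⟩ := H x (-y) (hS.nonsing_neg p) hP
    rw [hS.neg_some p (hS.nonsing_neg p), pm_some p h2, pm_some _ h2',
      hS'.neg_some h2 (hS'.nonsing_neg h2)]
    simp only [Affine.Point.some.injEq]
    refine ⟨trivial, ?_⟩
    ring

lemma pm_add (hS : IsShort W) (hD : W.Δ ≠ 0) (hS' : IsShort W') (hD' : W'.Δ ≠ 0)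
    {α β γ δ κ : F} (H : PMH W W' α β γ δ κ) (hdet : α * δ - β * γ ≠ 0)
    (P Q : W.toAffine.Point) (hP : 3 • P = 0) (hQ : 3 • Q = 0) :
    pm W W' α β γ δ κ (P + Q) = pm W W' α β γ δ κ P + pm W W' α β γ δ κ Q := by
  have n2 : NeZero (2 : F) := ⟨by norm_num⟩
  match P, Q, hP, hQ with
  | 0, Q, _, _ => rw [zero_add, pm_zero, zero_add]
  | P, 0, _, _ => rw [add_zero, pm_zero, add_zero]
  | .some x1 y1 p1, .some x2 y2 p2, hP, hQ =>
    by_cases hx : x1 = x2
    · subst hx
      -- P = ± Q
      have hor : y1 = y2 ∨ y1 = -y2 := by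
        apply sq_eq_sq_iff_eq_or_eq_neg.mp
        rw [hS.eqn.mp p1.1, hS.eqn.mp p2.1]
      rcases hor with hy | hy
      · subst hy
        have e1 : (Affine.Point.some x1 y1 p1 : W.toAffine.Point) + Affine.Point.some x1 y1 p2 =
            - Affine.Point.some x1 y1 p1 := by
          rw [← add_eq_zero_iff_eq_neg]
          rw [← hP]
          rw [show (3 : ℕ) = 1 + 1 + 1 from rfl, add_smul, add_smul, one_smul]
        have hP' := pm_tors hS hD hS' hD' H _ hP
        rw [e1, pm_neg hS hD hS' H _ hP]
        have e2 : 3 • pm W W' α β γ δ κ (Affine.Point.some x1 y1 p1) =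
            pm W W' α β γ δ κ (Affine.Point.some x1 y1 p1) +
            pm W W' α β γ δ κ (Affine.Point.some x1 y1 p1) +
            pm W W' α β γ δ κ (Affine.Point.some x1 y1 p1) := by
          rw [show (3 : ℕ) = 1 + 1 + 1 from rfl, add_smul, add_smul, one_smul]
        rw [hP'] at e2
        exact (eq_neg_of_add_eq_zero_left e2.symm).symm
      · have e1 : (Affine.Point.some x1 y1 p1 : W.toAffine.Point) =
            - Affine.Point.some x1 y2 p2 := by
          rw [hS.neg_some p2 (hS.nonsing_neg p2)]
          simp only [Affine.Point.some.injEq]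
          exact ⟨trivial, hy⟩
        rw [e1, pm_neg hS hD hS' H _ hQ]
        rw [neg_add_cancel, neg_add_cancel, pm_zero]
    · -- the generic case
      have hPQ : 3 • ((Affine.Point.some x1 y1 p1 : W.toAffine.Point) +
          Affine.Point.some x2 y2 p2) = 0 := by
        rw [smul_add, hP, hQ, add_zero]
      obtain ⟨l, hn, hch, hs⟩ := hS.add_some p1 p2 (fun hh => hx hh.1)
      set x3 := l ^ 2 - x1 - x2 with hx3
      set y3 := -(l * (x3 - x1) + y1) with hy3
      have h13 : x3 ≠ x1 := by
        intro h
        have hor : y3 = y1 ∨ y3 = -y1 := by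
          apply sq_eq_sq_iff_eq_or_eq_neg.mp
          rw [hS.eqn.mp p1.1, hS.eqn.mp hn.1, h]
        rcases hor with h' | h'
        · have : (Affine.Point.some x1 y1 p1 : W.toAffine.Point) + Affine.Point.some x2 y2 p2 =
              Affine.Point.some x1 y1 p1 := by
            rw [hs]
            simp only [Affine.Point.some.injEq]
            exact ⟨h, h'⟩
          exact Affine.Point.some_ne_zero _ (add_eq_left.mp this)
        · have : (Affine.Point.some x1 y1 p1 : W.toAffine.Point) + Affine.Point.some x2 y2 p2 =
              - Affine.Point.some x1 y1 p1 := by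
            rw [hs, hS.neg_some p1 (hS.nonsing_neg p1)]
            simp only [Affine.Point.some.injEq]
            exact ⟨h, h'⟩
          have h3 : 3 • (Affine.Point.some x1 y1 p1 : W.toAffine.Point) =
              Affine.Point.some x1 y1 p1 + Affine.Point.some x1 y1 p1 +
              Affine.Point.some x1 y1 p1 := by
            rw [show (3 : ℕ) = 1 + 1 + 1 from rfl, add_smul, add_smul, one_smul]
          rw [hP] at h3
          have h4 : (Affine.Point.some x2 y2 p2 : W.toAffine.Point) =
              Affine.Point.some x1 y1 p1 := by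
            have a1 : (Affine.Point.some x2 y2 p2 : W.toAffine.Point) =
              - Affine.Point.some x1 y1 p1 - Affine.Point.some x1 y1 p1 := by
              rw [← this]; abel
            have a2 : (Affine.Point.some x1 y1 p1 : W.toAffine.Point) =
              - Affine.Point.some x1 y1 p1 - Affine.Point.some x1 y1 p1 := by
              have := eq_neg_of_add_eq_zero_right h3.symm
              rw [neg_add] at this
              rw [sub_eq_add_neg]
              exact this
            rw [a1, ← a2]
          simp only [Affine.Point.some.injEq] at h4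
          exact hx h4.1.symm
      have h23 : x3 ≠ x2 := by
        intro h
        have hor : y3 = y2 ∨ y3 = -y2 := by
          apply sq_eq_sq_iff_eq_or_eq_neg.mp
          rw [hS.eqn.mp p2.1, hS.eqn.mp hn.1, h]
        rcases hor with h' | h'
        · have : (Affine.Point.some x1 y1 p1 : W.toAffine.Point) + Affine.Point.some x2 y2 p2 =
              Affine.Point.some x2 y2 p2 := by
            rw [hs]
            simp only [Affine.Point.some.injEq]
            exact ⟨h, h'⟩
          exact Affine.Point.some_ne_zero _ (add_eq_right.mp this)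
        · have : (Affine.Point.some x1 y1 p1 : W.toAffine.Point) + Affine.Point.some x2 y2 p2 =
              - Affine.Point.some x2 y2 p2 := by
            rw [hs, hS.neg_some p2 (hS.nonsing_neg p2)]
            simp only [Affine.Point.some.injEq]
            exact ⟨h, h'⟩
          have h3 : 3 • (Affine.Point.some x2 y2 p2 : W.toAffine.Point) =
              Affine.Point.some x2 y2 p2 + Affine.Point.some x2 y2 p2 +
              Affine.Point.some x2 y2 p2 := by
            rw [show (3 : ℕ) = 1 + 1 + 1 from rfl, add_smul, add_smul, one_smul]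
          rw [hQ] at h3
          have h4 : (Affine.Point.some x1 y1 p1 : W.toAffine.Point) =
              Affine.Point.some x2 y2 p2 := by
            have a1 : (Affine.Point.some x1 y1 p1 : W.toAffine.Point) =
              - Affine.Point.some x2 y2 p2 - Affine.Point.some x2 y2 p2 := by
              rw [← this]; abel
            have a2 : (Affine.Point.some x2 y2 p2 : W.toAffine.Point) =
              - Affine.Point.some x2 y2 p2 - Affine.Point.some x2 y2 p2 := by
              have := eq_neg_of_add_eq_zero_right h3.symm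
              rw [neg_add] at this
              rw [sub_eq_add_neg]
              exact this
            rw [a1, ← a2]
          simp only [Affine.Point.some.injEq] at h4
          exact hx h4.1
      rw [hs] at hPQ ⊢
      rw [three_iff hS hD] at hP hQ hPQ
      obtain ⟨d1, n1, -⟩ := H x1 y1 p1 hP
      obtain ⟨d2, n2, -⟩ := H x2 y2 p2 hQ
      obtain ⟨d3, n3, -⟩ := H x3 y3 hn hPQ
      obtain ⟨d3', n3', -⟩ := H x3 (-y3) (hS.nonsing_neg hn) hPQ
      rw [pm_some p1 n1, pm_some p2 n2, pm_some hn n3]
      have inj : ∀ {u v : F}, γ * u + δ ≠ 0 → γ * v + δ ≠ 0 →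
          (α * u + β) / (γ * u + δ) = (α * v + β) / (γ * v + δ) → u = v := by
        intro u v hu hv h
        rw [div_eq_div_iff hu hv] at h
        have : (α * δ - β * γ) * (u - v) = 0 := by linear_combination h
        exact sub_eq_zero.mp ((mul_eq_zero.mp this).resolve_left hdet)
      have col := hS'.collinear n1 n2 n3' (fun h => hx (inj d1 d2 h))
        (fun h => h13 (inj d3 d1 h)) (fun h => h23 (inj d3 d2 h)) (by
          have hcc : (y1 - y2) * (x3 - x1) = (-y3 - y1) * (x1 - x2) := by
            rw [hch.h2, hy3]; ring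
          have dsd : ∀ {u v z w : F}, z ≠ 0 → w ≠ 0 → u / z - v / w = (u * w - v * z) / (z * w) := by
            intro u v z w hz hw
            field_simp
          rw [dsd d1 d2, dsd d3 d1, dsd d3 d1, dsd d1 d2, div_mul_div_comm, div_mul_div_comm,
            div_eq_div_iff (mul_ne_zero (mul_ne_zero d1 d2) (mul_ne_zero d3 d1))
              (mul_ne_zero (mul_ne_zero d3 d1) (mul_ne_zero d1 d2))]
          linear_combination ((γ * x1 + δ) * (γ * x2 + δ) * ((γ * x3 + δ) * (γ * x1 + δ)) *
            (κ * (α * δ - β * γ) * (γ * x1 + δ))) * hcc)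
      rw [col, hS'.neg_some n3' (hS'.nonsing_neg n3')]
      simp only [Affine.Point.some.injEq]
      refine ⟨trivial, ?_⟩
      ring

end Pool.Agent.Y680.M
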