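import Mathlib
import Pool.Agent.Y680.M.PMap

/-!
# The Hesse pencil and the 3-torsion
-/

set_option autoImplicit false

open WeierstrassCurve

namespace Pool.Agent.Y680.M

section forms

variable {R : Type*} [CommRing R]

/-- the quartic form -/
def hF (c4 c6 s t : R) : R :=
  s ^ 4 - 6 * c4 * s ^ 2 * t ^ 2 + 8 * c6 * s * t ^ 3 - 3 * c4 ^ 2 * t ^ 4

/-- the invariant `c₄` of the pencil -/
def h4 (c4 c6 s t : R) : R :=
  c4 * s ^ 4 - 4 * c6 * s ^ 3 * t + 6 * c4 ^ 2 * s ^ 2 * t ^ 2 - 4 * c4 * c6 * s * t ^ 3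
    + (4 * c6 ^ 2 - 3 * c4 ^ 3) * t ^ 4

/-- the invariant `c₆` of the pencil -/
def h6 (c4 c6 s t : R) : R :=
  c6 * s ^ 6 - 6 * c4 ^ 2 * s ^ 5 * t + 15 * c4 * c6 * s ^ 4 * t ^ 2 - 20 * c6 ^ 2 * s ^ 3 * t ^ 3
    + 15 * c4 ^ 2 * c6 * s ^ 2 * t ^ 4 - 6 * (3 * c4 ^ 4 - 2 * c4 * c6 ^ 2) * s * t ^ 5
    + (9 * c4 ^ 3 * c6 - 8 * c6 ^ 3) * t ^ 6

/-- auxiliary cubic form -/
def hA (c4 c6 s t : R) : R := s ^ 3 - 3 * c4 * s * t ^ 2 + 2 * c6 * t ^ 3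

/-- auxiliary quadratic form -/
def hB (c4 c6 s t : R) : R := -3 * c4 * s ^ 2 + 6 * c6 * s * t - 3 * c4 ^ 2 * t ^ 2

lemma h_rel (c4 c6 s t : R) :
    h4 c4 c6 s t ^ 3 - h6 c4 c6 s t ^ 2 = (c4 ^ 3 - c6 ^ 2) * hF c4 c6 s t ^ 3 := by
  simp only [h4, h6, hF]
  ring

lemma h_det (c4 c6 s t : R) :
    hA c4 c6 s t * s + hB c4 c6 s t * t ^ 2 = hF c4 c6 s t := by
  simp only [hA, hB, hF]
  ring

/-- the third division polynomial in terms of `c₄` and `c₆` -/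
def p3 (c4 c6 x : R) : R := 3 * x ^ 4 - 162 * c4 * x ^ 2 - 648 * c6 * x - 729 * c4 ^ 2

lemma h_i (c4 c6 s t x : R) :
    t ^ 4 * p3 c4 c6 x = 243 * hF c4 c6 s t + (t * x + 3 * s) *
      (3 * (t * x) ^ 3 - 9 * s * (t * x) ^ 2 + (27 * s ^ 2 - 162 * c4 * t ^ 2) * (t * x) +
        (-81 * s ^ 3 + 486 * c4 * t ^ 2 * s - 648 * c6 * t ^ 3)) := by
  simp only [p3, hF]
  ring

lemma h_ii (c4 c6 s t x : R) :
    9 * hF c4 c6 s t ^ 2 * (x ^ 3 - 27 * c4 * x - 54 * c6) * (t * x + 3 * s) =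
      (3 * hA c4 c6 s t * x + -9 * hB c4 c6 s t * t) ^ 3
      - 27 * h4 c4 c6 s t * (3 * hA c4 c6 s t * x + -9 * hB c4 c6 s t * t) * (t * x + 3 * s) ^ 2
      - 54 * h6 c4 c6 s t * (t * x + 3 * s) ^ 3 + 3 * t * hF c4 c6 s t ^ 2 * p3 c4 c6 x := by
  simp only [p3, hF, hA, hB, h4, h6]
  ring

lemma h_iii (c4 c6 s t x : R) :
    3 * (3 * hA c4 c6 s t * x + -9 * hB c4 c6 s t * t) ^ 4
      - 162 * h4 c4 c6 s t * (3 * hA c4 c6 s t * x + -9 * hB c4 c6 s t * t) ^ 2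
        * (t * x + 3 * s) ^ 2
      - 648 * h6 c4 c6 s t * (3 * hA c4 c6 s t * x + -9 * hB c4 c6 s t * t) * (t * x + 3 * s) ^ 3
      - 729 * h4 c4 c6 s t ^ 2 * (t * x + 3 * s) ^ 4 = 81 * hF c4 c6 s t ^ 3 * p3 c4 c6 x := by
  simp only [p3, hF, hA, hB, h4, h6]
  ring

lemma h_i' (c4 c6 s t x : R) :
    t ^ 4 * p3 (h4 c4 c6 s t) (h6 c4 c6 s t) x = 243 * hF c4 c6 s t ^ 3 +
      (t * x - 3 * hA c4 c6 s t) *
      (3 * (t * x) ^ 3 + 9 * hA c4 c6 s t * (t * x) ^ 2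
        + (27 * hA c4 c6 s t ^ 2 - 162 * h4 c4 c6 s t * t ^ 2) * (t * x) +
        (81 * hA c4 c6 s t ^ 3 - 486 * h4 c4 c6 s t * t ^ 2 * hA c4 c6 s t
          - 648 * h6 c4 c6 s t * t ^ 3)) := by
  simp only [p3, hF, hA, hB, h4, h6]
  ring

lemma h_ii' (c4 c6 s t x : R) :
    9 * (x ^ 3 - 27 * h4 c4 c6 s t * x - 54 * h6 c4 c6 s t) * (-t * x + 3 * hA c4 c6 s t) =
      (3 * s * x + 9 * hB c4 c6 s t * t) ^ 3
      - 27 * c4 * (3 * s * x + 9 * hB c4 c6 s t * t) * (-t * x + 3 * hA c4 c6 s t) ^ 2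
      - 54 * c6 * (-t * x + 3 * hA c4 c6 s t) ^ 3
      - 3 * t * p3 (h4 c4 c6 s t) (h6 c4 c6 s t) x := by
  simp only [p3, hF, hA, hB, h4, h6]
  ring

lemma h_iii' (c4 c6 s t x : R) :
    3 * (3 * s * x + 9 * hB c4 c6 s t * t) ^ 4
      - 162 * c4 * (3 * s * x + 9 * hB c4 c6 s t * t) ^ 2 * (-t * x + 3 * hA c4 c6 s t) ^ 2
      - 648 * c6 * (3 * s * x + 9 * hB c4 c6 s t * t) * (-t * x + 3 * hA c4 c6 s t) ^ 3
      - 729 * c4 ^ 2 * (-t * x + 3 * hA c4 c6 s t) ^ 4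
      = 81 * hF c4 c6 s t * p3 (h4 c4 c6 s t) (h6 c4 c6 s t) x := by
  simp only [p3, hF, hA, hB, h4, h6]
  ring

end forms

section curve

variable {F : Type*} [Field F] [CharZero F]

/-- the data of a short curve with invariants `c4`, `c6` -/
structure HasInv (W : WeierstrassCurve F) (c4 c6 : F) : Prop where
  sh : IsShort W
  h4 : W.a₄ = -27 * c4
  h6 : W.a₆ = -54 * c6
  hD : W.Δ ≠ 0

lemma HasInv.psi {W : WeierstrassCurve F} {c4 c6 : F} (h : HasInv W c4 c6) (x : F) :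
    psi3 W x = p3 c4 c6 x := by
  simp only [psi3, p3, h.h4, h.h6]
  ring

lemma HasInv.eqn {W : WeierstrassCurve F} {c4 c6 : F} (h : HasInv W c4 c6) (x y : F) :
    W.toAffine.Equation x y ↔ y ^ 2 = x ^ 3 - 27 * c4 * x - 54 * c6 := by
  rw [h.sh.eqn, h.h4, h.h6]
  constructor <;> intro h <;> linear_combination h

omit [CharZero F] in
lemma clear_d {n1 n2 d p q : F} (hd : d ≠ 0) (h : n2 ^ 2 * d = n1 ^ 3 - p * n1 * d ^ 2 - q * d ^ 3) :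
    (n2 / d) ^ 2 = (n1 / d) ^ 3 - p * (n1 / d) - q := by
  rw [div_pow, div_pow, div_eq_iff (pow_ne_zero 2 hd)]
  have h3 : d ^ 3 ≠ 0 := pow_ne_zero 3 hd
  apply mul_right_cancel₀ hd
  rw [h]
  field_simp

omit [CharZero F] in
lemma clear_p3 {n1 d a b k : F} (hd : d ≠ 0)
    (h : 3 * n1 ^ 4 - 162 * a * n1 ^ 2 * d ^ 2 - 648 * b * n1 * d ^ 3 - 729 * a ^ 2 * d ^ 4 = k)
    (hk : k = 0) : p3 a b (n1 / d) = 0 := by
  have h4 : d ^ 4 ≠ 0 := pow_ne_zero 4 hd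
  have : p3 a b (n1 / d) * d ^ 4 = 0 := by
    rw [← hk, ← h, p3]
    field_simp
  exact (mul_eq_zero.mp this).resolve_right h4

lemma pmh_one {W W' : WeierstrassCurve F} {c4 c6 s t : F} (hW : HasInv W c4 c6)
    (hW' : HasInv W' (h4 c4 c6 s t) (h6 c4 c6 s t)) (hF0 : hF c4 c6 s t ≠ 0) :
    PMH W W' (3 * hA c4 c6 s t) (-9 * hB c4 c6 s t * t) t (3 * s) (3 * hF c4 c6 s t) := by
  intro x y p hp
  rw [hW.psi] at hp
  have q := (hW.eqn x y).mp p.1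
  have hd : t * x + 3 * s ≠ 0 := by
    intro h0
    have := h_i c4 c6 s t x
    rw [hp, h0, zero_mul, mul_zero, add_zero] at this
    have h243 : (243 : F) ≠ 0 := by norm_num
    exact hF0 ((mul_eq_zero.mp this.symm).resolve_left h243)
  refine ⟨hd, ?_, ?_⟩
  · apply nonsing hW'.hD
    rw [hW'.eqn]
    apply clear_d hd
    have := h_ii c4 c6 s t x
    rw [hp] at this
    linear_combination this + 9 * hF c4 c6 s t ^ 2 * (t * x + 3 * s) * q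
  · rw [hW'.psi]
    exact clear_p3 hd (h_iii c4 c6 s t x) (by rw [hp, mul_zero])

lemma pmh_two {W W' : WeierstrassCurve F} {c4 c6 s t : F} (hW : HasInv W c4 c6)
    (hW' : HasInv W' (h4 c4 c6 s t) (h6 c4 c6 s t)) (hF0 : hF c4 c6 s t ≠ 0) :
    PMH W' W (3 * s) (9 * hB c4 c6 s t * t) (-t) (3 * hA c4 c6 s t) 3 := by
  intro x y p hp
  rw [hW'.psi] at hp
  have q := (hW'.eqn x y).mp p.1
  have hd : -t * x + 3 * hA c4 c6 s t ≠ 0 := by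
    intro h0
    have := h_i' c4 c6 s t x
    have h0' : t * x - 3 * hA c4 c6 s t = 0 := by linear_combination (-1 : F) * h0
    rw [hp, h0', zero_mul, mul_zero, add_zero] at this
    have h243 : (243 : F) ≠ 0 := by norm_num
    exact (pow_ne_zero 3 hF0) ((mul_eq_zero.mp this.symm).resolve_left h243)
  refine ⟨hd, ?_, ?_⟩
  · apply nonsing hW.hD
    rw [hW.eqn]
    apply clear_d hd
    have := h_ii' c4 c6 s t x
    rw [hp] at this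
    linear_combination this + 9 * (-t * x + 3 * hA c4 c6 s t) * q
  · rw [hW.psi]
    exact clear_p3 hd (h_iii' c4 c6 s t x) (by rw [hp, mul_zero])

end curve

end Pool.Agent.Y680.M
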