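import Mathlib
import Pool.Agent.Y680.M.Chord

/-!
# The passage from a Weierstrass curve to its short form, on points
-/

set_option autoImplicit false

open WeierstrassCurve

namespace Pool.Agent.Y680.M

variable {F : Type*} [Field F]

/-- `Y² = X³ - 27 c₄ X - 54 c₆` -/
def shortOf {R : Type*} [CommRing R] (c4 c6 : R) : WeierstrassCurve R :=
  ⟨0, 0, 0, -27 * c4, -54 * c6⟩

lemma shortOf_isShort (c4 c6 : F) : IsShort (shortOf c4 c6) := ⟨rfl, rfl, rfl⟩

lemma shortOf_delta {R : Type*} [CommRing R] (c4 c6 : R) :
    (shortOf c4 c6).Δ = 2 ^ 6 * 3 ^ 9 * (c4 ^ 3 - c6 ^ 2) := by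
  simp only [WeierstrassCurve.Δ, WeierstrassCurve.b₂, WeierstrassCurve.b₄, WeierstrassCurve.b₆,
    WeierstrassCurve.b₈, shortOf]
  ring

lemma shortOf_delta_ne [CharZero F] (W : WeierstrassCurve F) (hD : W.Δ ≠ 0) :
    (shortOf W.c₄ W.c₆).Δ ≠ 0 := by
  rw [shortOf_delta]
  have h := W.c_relation
  rw [← h]
  simp [hD]

section

variable (W : WeierstrassCurve F)

/-- the new abscissa -/
def sx (x : F) : F := 36 * x + 3 * W.b₂

/-- the new ordinate -/
def sy (x y : F) : F := 108 * (2 * y + W.a₁ * x + W.a₃)

lemma sy_negY (x y : F) : sy W x (W.toAffine.negY x y) = - sy W x y := by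
  simp only [sy, Affine.negY]
  ring

lemma short_eqn [CharZero F] {x y : F} :
    (shortOf W.c₄ W.c₆).toAffine.Equation (sx W x) (sy W x y) ↔ W.toAffine.Equation x y := by
  rw [(shortOf_isShort _ _).eqn, Affine.equation_iff]
  simp only [shortOf, sx, sy, WeierstrassCurve.c₄, WeierstrassCurve.c₆, WeierstrassCurve.b₂,
    WeierstrassCurve.b₄, WeierstrassCurve.b₆]
  constructor
  · intro h
    have : (46656 : F) * (y ^ 2 + W.a₁ * x * y + W.a₃ * y) =
        46656 * (x ^ 3 + W.a₂ * x ^ 2 + W.a₄ * x + W.a₆) := by
      linear_combination h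
    exact mul_left_cancel₀ (by norm_num) this
  · intro h
    linear_combination 46656 * h

end

variable [DecidableEq F] [CharZero F]

/-- the map to the short form -/
def toShortFun (W : WeierstrassCurve F) (hD : W.Δ ≠ 0) :
    W.toAffine.Point → (shortOf W.c₄ W.c₆).toAffine.Point
  | 0 => 0
  | .some x y h => .some (sx W x) (sy W x y)
      (nonsing (shortOf_delta_ne W hD) ((short_eqn W).mpr h.1))

lemma toShortFun_add (W : WeierstrassCurve F) (hD : W.Δ ≠ 0) (P Q : W.toAffine.Point) :
    toShortFun W hD (P + Q) = toShortFun W hD P + toShortFun W hD Q := by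
  have hS := shortOf_isShort W.c₄ W.c₆
  match P, Q with
  | 0, Q =>
    rw [zero_add]
    exact (zero_add _).symm
  | .some x y h, 0 =>
    rw [add_zero]
    exact (add_zero _).symm
  | .some x1 y1 p1, .some x2 y2 p2 =>
    by_cases hne : x1 = x2 ∧ y1 = W.toAffine.negY x2 y2
    · rw [Affine.Point.add_of_Y_eq hne.1 hne.2]
      have hx : sx W x1 = sx W x2 := by rw [hne.1]
      have hy : sy W x1 y1 = (shortOf W.c₄ W.c₆).toAffine.negY (sx W x2) (sy W x2 y2) := by
        rw [hS.negY, ← sy_negY, hne.1, hne.2]
      change (0 : (shortOf W.c₄ W.c₆).toAffine.Point) = _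
      rw [toShortFun, toShortFun, Affine.Point.add_of_Y_eq hx hy]
    · rw [Affine.Point.add_some hne]
      have h36 : (36 : F) ≠ 0 := by norm_num
      have h108 : (216 : F) ≠ 0 := by norm_num
      have hxx : sx W x1 = sx W x2 → x1 = x2 := by
        intro h
        simp only [sx] at h
        have : (36 : F) * x1 = 36 * x2 := by linear_combination h
        exact mul_left_cancel₀ h36 this
      have hne' : ¬(sx W x1 = sx W x2 ∧
          sy W x1 y1 = (shortOf W.c₄ W.c₆).toAffine.negY (sx W x2) (sy W x2 y2)) := by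
        rintro ⟨ha, hb⟩
        apply hne
        have hx := hxx ha
        refine ⟨hx, ?_⟩
        rw [hS.negY, ← sy_negY] at hb
        simp only [sy, Affine.negY] at hb
        rw [hx] at hb
        have : (216 : F) * y1 = 216 * (W.toAffine.negY x2 y2) := by
          simp only [Affine.negY]
          linear_combination hb
        exact mul_left_cancel₀ h108 this
      have hslope : (shortOf W.c₄ W.c₆).toAffine.slope (sx W x1) (sx W x2) (sy W x1 y1)
          (sy W x2 y2) = 6 * W.toAffine.slope x1 x2 y1 y2 + 3 * W.a₁ := by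
        by_cases hx : x1 = x2
        · have hy : y1 ≠ W.toAffine.negY x2 y2 := fun hh => hne ⟨hx, hh⟩
          have hy' : sy W x1 y1 ≠ (shortOf W.c₄ W.c₆).toAffine.negY (sx W x2) (sy W x2 y2) :=
            fun hh => hne' ⟨by rw [hx], hh⟩
          have hyy : y1 = y2 := Affine.Y_eq_of_Y_ne p1.1 p2.1 hx hy
          subst hx hyy
          rw [Affine.slope_of_Y_ne rfl hy', Affine.slope_of_Y_ne rfl hy]
          have hd1 : y1 - W.toAffine.negY x1 y1 ≠ 0 := sub_ne_zero.mpr hy
          have hd2 : sy W x1 y1 - (shortOf W.c₄ W.c₆).toAffine.negY (sx W x1) (sy W x1 y1) ≠ 0 :=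
            sub_ne_zero.mpr hy'
          have e1 : sy W x1 y1 - (shortOf W.c₄ W.c₆).toAffine.negY (sx W x1) (sy W x1 y1) =
              216 * (y1 - W.toAffine.negY x1 y1) := by
            rw [hS.negY]
            simp only [sy, Affine.negY]
            ring
          have e0 : y1 - W.toAffine.negY x1 y1 = 2 * y1 + W.a₁ * x1 + W.a₃ := by
            simp only [Affine.negY]
            ring
          rw [e1]
          rw [e0] at hd1 ⊢
          rw [div_eq_iff (mul_ne_zero h108 hd1)]
          have hc : (3 * x1 ^ 2 + 2 * W.a₂ * x1 + W.a₄ - W.a₁ * y1) / (2 * y1 + W.a₁ * x1 + W.a₃) *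
              (2 * y1 + W.a₁ * x1 + W.a₃) = 3 * x1 ^ 2 + 2 * W.a₂ * x1 + W.a₄ - W.a₁ * y1 :=
            div_mul_cancel₀ _ hd1
          simp only [shortOf, sx, WeierstrassCurve.c₄, WeierstrassCurve.c₆, WeierstrassCurve.b₂,
            WeierstrassCurve.b₄, WeierstrassCurve.b₆]
          linear_combination (-1296 : F) * hc
        · have hx' : sx W x1 ≠ sx W x2 := fun hh => hx (hxx hh)
          rw [Affine.slope_of_X_ne hx', Affine.slope_of_X_ne hx]
          have hd1 : x1 - x2 ≠ 0 := sub_ne_zero.mpr hx
          have e1 : sx W x1 - sx W x2 = 36 * (x1 - x2) := by simp only [sx]; ring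
          rw [e1]
          simp only [sy]
          field_simp
          ring
      rw [toShortFun, toShortFun, toShortFun, Affine.Point.add_some hne']
      simp only [Affine.Point.some.injEq]
      rw [hslope]
      have hX : sx W (W.toAffine.addX x1 x2 (W.toAffine.slope x1 x2 y1 y2)) =
          (shortOf W.c₄ W.c₆).toAffine.addX (sx W x1) (sx W x2)
            (6 * W.toAffine.slope x1 x2 y1 y2 + 3 * W.a₁) := by
        simp only [Affine.addX, sx, shortOf, WeierstrassCurve.b₂]
        ring
      refine ⟨hX, ?_⟩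
      rw [Affine.addY, Affine.addY, sy_negY, hS.negY, Affine.negAddY, Affine.negAddY, ← hX]
      simp only [sy, sx]
      ring

omit [DecidableEq F] in
lemma toShortFun_bij (W : WeierstrassCurve F) (hD : W.Δ ≠ 0) :
    Function.Bijective (toShortFun W hD) := by
  have h36 : (36 : F) ≠ 0 := by norm_num
  have h216 : (216 : F) ≠ 0 := by norm_num
  constructor
  · intro P Q h
    match P, Q with
    | 0, 0 => rfl
    | 0, .some x y p => exact absurd h.symm (Affine.Point.some_ne_zero _)
    | .some x y p, 0 => exact absurd h (Affine.Point.some_ne_zero _)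
    | .some x1 y1 p1, .some x2 y2 p2 =>
      simp only [toShortFun, Affine.Point.some.injEq, sx, sy] at h
      obtain ⟨ha, hb⟩ := h
      have hx : x1 = x2 := by
        have : (36 : F) * x1 = 36 * x2 := by linear_combination ha
        exact mul_left_cancel₀ h36 this
      subst hx
      have hy : y1 = y2 := by
        have : (216 : F) * y1 = 216 * y2 := by linear_combination hb
        exact mul_left_cancel₀ h216 this
      subst hy
      rfl
  · intro P
    match P with
    | 0 => exact ⟨0, rfl⟩
    | .some X Y p =>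
      have hx : sx W ((X - 3 * W.b₂) / 36) = X := by
        simp only [sx]
        field_simp
        ring
      have hy : sy W ((X - 3 * W.b₂) / 36)
          ((Y / 108 - W.a₁ * ((X - 3 * W.b₂) / 36) - W.a₃) / 2) = Y := by
        simp only [sy]
        field_simp
        ring
      have heq : W.toAffine.Equation ((X - 3 * W.b₂) / 36)
          ((Y / 108 - W.a₁ * ((X - 3 * W.b₂) / 36) - W.a₃) / 2) := by
        rw [← short_eqn W, hx, hy]
        exact p.1
      refine ⟨.some _ _ (nonsing hD heq), ?_⟩
      simp only [toShortFun, Affine.Point.some.injEq]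
      exact ⟨hx, hy⟩

/-- the isomorphism of a Weierstrass curve with its short form -/
noncomputable def toShort (W : WeierstrassCurve F) (hD : W.Δ ≠ 0) :
    W.toAffine.Point ≃+ (shortOf W.c₄ W.c₆).toAffine.Point :=
  AddEquiv.mk' (Equiv.ofBijective _ (toShortFun_bij W hD)) (toShortFun_add W hD)

lemma toShort_zero (W : WeierstrassCurve F) (hD : W.Δ ≠ 0) : toShort W hD 0 = 0 := rfl

lemma toShort_some (W : WeierstrassCurve F) (hD : W.Δ ≠ 0) {x y : F}
    (h : W.toAffine.Nonsingular x y) : toShort W hD (.some x y h) =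
      .some (sx W x) (sy W x y) (nonsing (shortOf_delta_ne W hD) ((short_eqn W).mpr h.1)) := rfl

end Pool.Agent.Y680.M
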