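import Mathlib
import Pool.Agent.Y680.M.Hesse
import Pool.Agent.Y680.M.ToShort

/-!
# The Galois action, and the isomorphism on the 3-torsion
-/

set_option autoImplicit false
set_option linter.unusedSectionVars false

open WeierstrassCurve

namespace Pool.Agent.Y680.M

variable (K : Type) [Field K] [Algebra ℚ K] [DecidableEq K]

/-- the `K`-points of a Weierstrass curve with integral coefficients -/
abbrev PtK (V : WeierstrassCurve ℤ) : Type := (V.toAffine.baseChange K).Point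

/-- the action of the automorphisms of `K` -/
noncomputable def act (V : WeierstrassCurve ℤ) (σ : K ≃ₐ[ℚ] K) : PtK K V →+ PtK K V :=
  Affine.Point.map (W' := V.toAffine) (S := ℚ) σ.toAlgHom

variable {K}

lemma bc_a1 (V : WeierstrassCurve ℤ) : (V.toAffine.baseChange K).a₁ = (V.a₁ : K) := by
  change algebraMap ℤ K V.a₁ = _
  simp

lemma bc_a2 (V : WeierstrassCurve ℤ) : (V.toAffine.baseChange K).a₂ = (V.a₂ : K) := by
  change algebraMap ℤ K V.a₂ = _
  simp

lemma bc_a3 (V : WeierstrassCurve ℤ) : (V.toAffine.baseChange K).a₃ = (V.a₃ : K) := by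
  change algebraMap ℤ K V.a₃ = _
  simp

lemma bc_a4 (V : WeierstrassCurve ℤ) : (V.toAffine.baseChange K).a₄ = (V.a₄ : K) := by
  change algebraMap ℤ K V.a₄ = _
  simp

lemma bc_a6 (V : WeierstrassCurve ℤ) : (V.toAffine.baseChange K).a₆ = (V.a₆ : K) := by
  change algebraMap ℤ K V.a₆ = _
  simp

lemma act_some (V : WeierstrassCurve ℤ) (σ : K ≃ₐ[ℚ] K) {x y : K}
    (p : (V.toAffine.baseChange K).Nonsingular x y) :
    ∃ p', act K V σ (Affine.Point.some x y p) = Affine.Point.some (σ x) (σ y) p' :=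
  ⟨_, rfl⟩

lemma act_zero (V : WeierstrassCurve ℤ) (σ : K ≃ₐ[ℚ] K) : act K V σ 0 = 0 := rfl

section pmTI

variable [CharZero K] {V V' : WeierstrassCurve ℤ}

lemma pm_act (hS : IsShort (V.toAffine.baseChange K)) (hD : (V.toAffine.baseChange K).Δ ≠ 0)
    {α β γ δ κ : K} (H : PMH (V.toAffine.baseChange K) (V'.toAffine.baseChange K) α β γ δ κ)
    (hfix : ∀ σ : K ≃ₐ[ℚ] K, σ α = α ∧ σ β = β ∧ σ γ = γ ∧ σ δ = δ ∧ σ κ = κ)
    (σ : K ≃ₐ[ℚ] K) (P : PtK K V) (hP : 3 • P = 0) :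
    pm (V.toAffine.baseChange K) (V'.toAffine.baseChange K) α β γ δ κ (act K V σ P) =
      act K V' σ (pm (V.toAffine.baseChange K) (V'.toAffine.baseChange K) α β γ δ κ P) := by
  obtain ⟨f1, f2, f3, f4, f5⟩ := hfix σ
  match P, hP with
  | 0, _ => rw [act_zero, pm_zero, act_zero]
  | .some x y p, hP =>
    have hP' : 3 • act K V σ (Affine.Point.some x y p) = 0 := by
      rw [← map_nsmul, hP, map_zero]
    obtain ⟨p', hp'⟩ := act_some V σ p
    rw [hp'] at hP' ⊢
    rw [three_iff hS hD] at hP hP'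
    obtain ⟨_, n1, -⟩ := H x y p hP
    obtain ⟨_, n2, -⟩ := H (σ x) (σ y) p' hP'
    rw [pm_some _ n2, pm_some p n1]
    obtain ⟨q', hq'⟩ := act_some V' σ n1
    rw [hq']
    simp only [Affine.Point.some.injEq]
    constructor
    · rw [map_div₀, map_add, map_add, map_mul, map_mul, f1, f2, f3, f4]
    · rw [map_div₀, map_add, map_mul, map_mul, f3, f4, f5]

lemma pm_inv (hS : IsShort (V.toAffine.baseChange K)) (hD : (V.toAffine.baseChange K).Δ ≠ 0)
    {α β γ δ κ κ' : K} (H : PMH (V.toAffine.baseChange K) (V'.toAffine.baseChange K) α β γ δ κ)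
    (hdet : κ * κ' = α * δ - β * γ) (hdet0 : α * δ - β * γ ≠ 0) (P : PtK K V) (hP : 3 • P = 0) :
    pm (V'.toAffine.baseChange K) (V.toAffine.baseChange K) δ (-β) (-γ) α κ'
      (pm (V.toAffine.baseChange K) (V'.toAffine.baseChange K) α β γ δ κ P) = P := by
  match P, hP with
  | 0, _ => rw [pm_zero, pm_zero]
  | .some x y p, hP =>
    rw [three_iff hS hD] at hP
    obtain ⟨hd, n1, -⟩ := H x y p hP
    rw [pm_some p n1]
    have e1 : -γ * ((α * x + β) / (γ * x + δ)) + α = (α * δ - β * γ) / (γ * x + δ) := by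
      field_simp
      ring
    have ex : (δ * ((α * x + β) / (γ * x + δ)) + -β) /
        (-γ * ((α * x + β) / (γ * x + δ)) + α) = x := by
      rw [e1]
      have : δ * ((α * x + β) / (γ * x + δ)) + -β = x * (α * δ - β * γ) / (γ * x + δ) := by
        rw [eq_div_iff hd]
        have hc : (α * x + β) / (γ * x + δ) * (γ * x + δ) = α * x + β := div_mul_cancel₀ _ hd
        linear_combination δ * hc
      rw [this, div_div_div_cancel_right₀ hd, mul_div_assoc, div_self hdet0, mul_one]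
    have ey : κ' * (κ * y / (γ * x + δ)) / (-γ * ((α * x + β) / (γ * x + δ)) + α) = y := by
      rw [e1]
      have : κ' * (κ * y / (γ * x + δ)) = y * (α * δ - β * γ) / (γ * x + δ) := by
        rw [← hdet]
        ring
      rw [this, div_div_div_cancel_right₀ hd, mul_div_assoc, div_self hdet0, mul_one]
    have n2 : (V.toAffine.baseChange K).Nonsingular
        ((δ * ((α * x + β) / (γ * x + δ)) + -β) / (-γ * ((α * x + β) / (γ * x + δ)) + α))
        (κ' * (κ * y / (γ * x + δ)) / (-γ * ((α * x + β) / (γ * x + δ)) + α)) := by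
      rw [ex, ey]; exact p
    rw [pm_some n1 n2]
    simp only [Affine.Point.some.injEq]
    exact ⟨ex, ey⟩

lemma pm_TI (hS : IsShort (V.toAffine.baseChange K)) (hD : (V.toAffine.baseChange K).Δ ≠ 0)
    (hS' : IsShort (V'.toAffine.baseChange K)) (hD' : (V'.toAffine.baseChange K).Δ ≠ 0)
    {α β γ δ κ κ' : K} (H : PMH (V.toAffine.baseChange K) (V'.toAffine.baseChange K) α β γ δ κ)
    (H' : PMH (V'.toAffine.baseChange K) (V.toAffine.baseChange K) δ (-β) (-γ) α κ')
    (hdet : κ * κ' = α * δ - β * γ) (hdet0 : α * δ - β * γ ≠ 0)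
    (hfix : ∀ σ : K ≃ₐ[ℚ] K, σ α = α ∧ σ β = β ∧ σ γ = γ ∧ σ δ = δ ∧ σ κ = κ) :
    TI 3 (act K V) (act K V')
      (pm (V.toAffine.baseChange K) (V'.toAffine.baseChange K) α β γ δ κ)
      (pm (V'.toAffine.baseChange K) (V.toAffine.baseChange K) δ (-β) (-γ) α κ') where
  ft := pm_tors hS hD hS' hD' H
  gt := pm_tors hS' hD' hS hD H'
  gf := pm_inv hS hD H hdet hdet0
  fg P hP := by
    have h := pm_inv (κ := κ') (κ' := κ) hS' hD' H' (by rw [mul_comm, hdet]; ring)
      (by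
        intro h
        apply hdet0
        rw [← h]; ring) P hP
    rw [neg_neg, neg_neg] at h
    exact h
  add := pm_add hS hD hS' hD' H hdet0
  act := pm_act hS hD H hfix

end pmTI

section short

variable [CharZero K]

lemma hasInv_short {c4 c6 : ℤ} (h : c4 ^ 3 ≠ c6 ^ 2) :
    HasInv ((shortOf c4 c6).toAffine.baseChange K) (c4 : K) (c6 : K) where
  sh := ⟨by rw [bc_a1]; simp [shortOf], by rw [bc_a2]; simp [shortOf],
    by rw [bc_a3]; simp [shortOf]⟩
  h4 := by rw [bc_a4]; simp [shortOf]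
  h6 := by rw [bc_a6]; simp [shortOf]
  hD := by
    change ((shortOf c4 c6).map (algebraMap ℤ K)).Δ ≠ 0
    rw [WeierstrassCurve.map_Δ, shortOf_delta]
    have h0 : c4 ^ 3 - c6 ^ 2 ≠ 0 := sub_ne_zero.mpr h
    simp only [map_mul, map_pow, map_sub, map_ofNat]
    have : (algebraMap ℤ K (c4 ^ 3 - c6 ^ 2)) ≠ 0 := by
      rw [algebraMap_int_eq, eq_intCast]
      exact_mod_cast h0
    simp only [map_sub, map_pow] at this
    exact mul_ne_zero (by norm_num) this

/-- **the 3-torsion along the Hesse pencil** -/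
theorem hesse_TI {c4 c6 s t : ℤ} (h : c4 ^ 3 ≠ c6 ^ 2) (hF0 : hF c4 c6 s t ≠ 0) :
    ∃ f g, TI 3 (act K (shortOf c4 c6)) (act K (shortOf (h4 c4 c6 s t) (h6 c4 c6 s t))) f g := by
  have h' : h4 c4 c6 s t ^ 3 ≠ h6 c4 c6 s t ^ 2 := by
    rw [← sub_ne_zero, h_rel]
    exact mul_ne_zero (sub_ne_zero.mpr h) (pow_ne_zero 3 hF0)
  have i1 := hasInv_short (K := K) h
  have i2 := hasInv_short (K := K) h'
  have e4 : ((h4 c4 c6 s t : ℤ) : K) = h4 (c4 : K) c6 s t := by simp [h4]
  have e6 : ((h6 c4 c6 s t : ℤ) : K) = h6 (c4 : K) c6 s t := by simp [h6]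
  have eF : ((hF c4 c6 s t : ℤ) : K) = hF (c4 : K) c6 s t := by simp [hF]
  have eA : ((hA c4 c6 s t : ℤ) : K) = hA (c4 : K) c6 s t := by simp [hA]
  have eB : ((hB c4 c6 s t : ℤ) : K) = hB (c4 : K) c6 s t := by simp [hB]
  rw [e4, e6] at i2
  have hF1 : hF (c4 : K) c6 s t ≠ 0 := by
    rw [← eF]
    exact_mod_cast hF0
  have H1 := pmh_one i1 i2 hF1
  have H2 := pmh_two i1 i2 hF1
  have hdet : (3 * hA (c4 : K) c6 s t) * (3 * s) - (-9 * hB (c4 : K) c6 s t * t) * t =
      9 * hF (c4 : K) c6 s t := by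
    linear_combination 9 * h_det (c4 : K) c6 s t
  refine ⟨_, _, pm_TI i1.sh i1.hD i2.sh i2.hD H1 (κ' := 3) ?_ ?_ ?_ ?_⟩
  · rw [show -(-9 * hB (c4 : K) c6 s t * t) = 9 * hB (c4 : K) c6 s t * t by ring]
    exact H2
  · rw [hdet]; ring
  · rw [hdet]
    exact mul_ne_zero (by norm_num) hF1
  · intro σ
    have h3 : σ (3 : K) = 3 := map_ofNat σ 3
    have h9 : σ (9 : K) = 9 := map_ofNat σ 9
    rw [← eA, ← eB, ← eF]
    simp [h3, h9]

end short

end Pool.Agent.Y680.M
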