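import Mathlib
import Pool.Agent.Y680.M.Gal

/-!
# The isomorphism on the 2-torsion
-/

set_option autoImplicit false
set_option linter.unusedSectionVars false

open WeierstrassCurve

namespace Pool.Agent.Y680.M

section forms

variable {R : Type*} [CommRing R]

/-- the invariant `c₄` of a curve with the same 2-torsion -/
def t4 (c4 c6 p q : R) : R := c4 * (p ^ 2 - (c6 ^ 2 - c4 ^ 3) * q ^ 2)

/-- the invariant `c₆` of a curve with the same 2-torsion -/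
def t6 (c4 c6 p q : R) : R :=
  c6 * (p ^ 3 + 3 * p * q ^ 2 * (c6 ^ 2 - c4 ^ 3))
    + (c6 ^ 2 - c4 ^ 3) * (3 * p ^ 2 * q + q ^ 3 * (c6 ^ 2 - c4 ^ 3))

/-- the cubic form -/
def tG (c4 c6 p q : R) : R :=
  p ^ 3 + 3 * c6 * p ^ 2 * q + 3 * (c6 ^ 2 - c4 ^ 3) * p * q ^ 2 + c6 * (c6 ^ 2 - c4 ^ 3) * q ^ 3

lemma t_rel (c4 c6 p q : R) :
    t4 c4 c6 p q ^ 3 - t6 c4 c6 p q ^ 2 = (c4 ^ 3 - c6 ^ 2) * tG c4 c6 p q ^ 2 := by
  simp only [t4, t6, tG]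
  ring

end forms

section map

variable {F : Type*} [Field F] [CharZero F]

/-- the conjugate root -/
noncomputable def ts (c4 c6 x : F) : F := -c4 * x ^ 2 / 3 + c6 * x + 6 * c4 ^ 2

/-- the map on the roots -/
noncomputable def tg (c4 c6 p q x : F) : F := p * x + q * ts c4 c6 x

lemma t_one (c4 c6 p q x : F) :
    (tg c4 c6 p q x) ^ 3 - 27 * t4 c4 c6 p q * (tg c4 c6 p q x) - 54 * t6 c4 c6 p q =
    ((-1/27) * c4 ^ 3 * q ^ 3 * x ^ 3 + c4 ^ 4 * q ^ 3 * x + (1/3) * c4 ^ 2 * c6 * q ^ 3 * x ^ 2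
      - 5 * c4 ^ 3 * c6 * q ^ 3 + (1/3) * c4 ^ 2 * p * q ^ 2 * x ^ 2 - c4 * c6 ^ 2 * q ^ 3 * x
      - 3 * c4 ^ 3 * p * q ^ 2 - 2 * c4 * c6 * p * q ^ 2 * x + c6 ^ 3 * q ^ 3
      - c4 * p ^ 2 * q * x + 3 * c6 ^ 2 * p * q ^ 2 + 3 * c6 * p ^ 2 * q + p ^ 3) *
      (x ^ 3 - 27 * c4 * x - 54 * c6) := by
  simp only [tg, ts, t4, t6]
  ring

lemma t_two (c4 c6 p q x : F) :
    ts (t4 c4 c6 p q) (t6 c4 c6 p q) (tg c4 c6 p q x) =
      tG c4 c6 p q * (p * ts c4 c6 x + (c6 ^ 2 - c4 ^ 3) * q * x) +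
    ((-1/27) * c4 ^ 6 * q ^ 4 * x + (2/9) * c4 ^ 5 * c6 * q ^ 4
      + (1/27) * c4 ^ 3 * c6 ^ 2 * q ^ 4 * x + (2/9) * c4 ^ 5 * p * q ^ 3
      - (2/9) * c4 ^ 2 * c6 ^ 3 * q ^ 4 - (1/27) * c4 ^ 3 * p ^ 2 * q ^ 2 * x
      - (2/9) * c4 ^ 2 * c6 ^ 2 * p * q ^ 3 + (2/9) * c4 ^ 2 * c6 * p ^ 2 * q ^ 2
      + (2/9) * c4 ^ 2 * p ^ 3 * q) * (x ^ 3 - 27 * c4 * x - 54 * c6) := by
  simp only [tg, ts, t4, t6, tG]
  ring

lemma t_inv {c4 c6 p q x : F} (hx : x ^ 3 - 27 * c4 * x - 54 * c6 = 0)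
    (hM : p ^ 2 - (c6 ^ 2 - c4 ^ 3) * q ^ 2 ≠ 0) (hG : tG c4 c6 p q ≠ 0) :
    tg (t4 c4 c6 p q) (t6 c4 c6 p q) (p / (p ^ 2 - (c6 ^ 2 - c4 ^ 3) * q ^ 2))
      (-q / ((p ^ 2 - (c6 ^ 2 - c4 ^ 3) * q ^ 2) * tG c4 c6 p q)) (tg c4 c6 p q x) = x := by
  have h2 := t_two c4 c6 p q x
  rw [hx, mul_zero, add_zero] at h2
  rw [tg, h2]
  set M := p ^ 2 - (c6 ^ 2 - c4 ^ 3) * q ^ 2 with hMd
  set G := tG c4 c6 p q with hGd
  have e : p / M * tg c4 c6 p q x + -q / (M * G) * (G * (p * ts c4 c6 x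
      + (c6 ^ 2 - c4 ^ 3) * q * x)) = (p * tg c4 c6 p q x - q * (p * ts c4 c6 x
      + (c6 ^ 2 - c4 ^ 3) * q * x)) / M := by
    field_simp
    ring
  rw [e, div_eq_iff hM, tg, hMd]
  ring

lemma t4_inv {c4 c6 p q : F} 
    (hM : p ^ 2 - (c6 ^ 2 - c4 ^ 3) * q ^ 2 ≠ 0) (hG : tG c4 c6 p q ≠ 0) :
    t4 (t4 c4 c6 p q) (t6 c4 c6 p q) (p / (p ^ 2 - (c6 ^ 2 - c4 ^ 3) * q ^ 2))
      (-q / ((p ^ 2 - (c6 ^ 2 - c4 ^ 3) * q ^ 2) * tG c4 c6 p q)) = c4 := by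
  have hr : t6 c4 c6 p q ^ 2 - t4 c4 c6 p q ^ 3 = (c6 ^ 2 - c4 ^ 3) * tG c4 c6 p q ^ 2 := by
    linear_combination (-1 : F) * t_rel c4 c6 p q
  rw [t4, hr]
  have h4 : t4 c4 c6 p q = c4 * (p ^ 2 - (c6 ^ 2 - c4 ^ 3) * q ^ 2) := rfl
  rw [h4]
  set M := p ^ 2 - (c6 ^ 2 - c4 ^ 3) * q ^ 2 with hMd
  set G := tG c4 c6 p q with hGd
  have e : (p / M) ^ 2 - (c6 ^ 2 - c4 ^ 3) * G ^ 2 * (-q / (M * G)) ^ 2 =
      (p ^ 2 - (c6 ^ 2 - c4 ^ 3) * q ^ 2) / M ^ 2 := by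
    field_simp
  rw [e, ← hMd]
  field_simp

lemma t6_inv {c4 c6 p q : F} 
    (hM : p ^ 2 - (c6 ^ 2 - c4 ^ 3) * q ^ 2 ≠ 0) (hG : tG c4 c6 p q ≠ 0) :
    t6 (t4 c4 c6 p q) (t6 c4 c6 p q) (p / (p ^ 2 - (c6 ^ 2 - c4 ^ 3) * q ^ 2))
      (-q / ((p ^ 2 - (c6 ^ 2 - c4 ^ 3) * q ^ 2) * tG c4 c6 p q)) = c6 := by
  have hr : t6 c4 c6 p q ^ 2 - t4 c4 c6 p q ^ 3 = (c6 ^ 2 - c4 ^ 3) * tG c4 c6 p q ^ 2 := by
    linear_combination (-1 : F) * t_rel c4 c6 p q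
  rw [t6, hr]
  have hc : t6 c4 c6 p q * (p ^ 3 + 3 * p * q ^ 2 * (c6 ^ 2 - c4 ^ 3)) -
      (c6 ^ 2 - c4 ^ 3) * tG c4 c6 p q * (3 * p ^ 2 * q + q ^ 3 * (c6 ^ 2 - c4 ^ 3)) =
      c6 * (p ^ 2 - (c6 ^ 2 - c4 ^ 3) * q ^ 2) ^ 3 := by
    simp only [t6, tG]
    ring
  set M := p ^ 2 - (c6 ^ 2 - c4 ^ 3) * q ^ 2 with hMd
  set G := tG c4 c6 p q with hGd
  set k := c6 ^ 2 - c4 ^ 3 with hk
  have e : t6 c4 c6 p q * ((p / M) ^ 3 + 3 * (p / M) * (-q / (M * G)) ^ 2 * (k * G ^ 2)) +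
      k * G ^ 2 * (3 * (p / M) ^ 2 * (-q / (M * G)) + (-q / (M * G)) ^ 3 * (k * G ^ 2)) =
      (t6 c4 c6 p q * (p ^ 3 + 3 * p * q ^ 2 * k) -
      k * G * (3 * p ^ 2 * q + q ^ 3 * k)) / M ^ 3 := by
    field_simp
    ring
  rw [e, hc, div_eq_iff (pow_ne_zero 3 hM)]

lemma tG_inv {c4 c6 p q : F} 
    (hM : p ^ 2 - (c6 ^ 2 - c4 ^ 3) * q ^ 2 ≠ 0) (hG : tG c4 c6 p q ≠ 0) :
    tG (t4 c4 c6 p q) (t6 c4 c6 p q) (p / (p ^ 2 - (c6 ^ 2 - c4 ^ 3) * q ^ 2))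
      (-q / ((p ^ 2 - (c6 ^ 2 - c4 ^ 3) * q ^ 2) * tG c4 c6 p q)) = 1 / tG c4 c6 p q := by
  have hr : t6 c4 c6 p q ^ 2 - t4 c4 c6 p q ^ 3 = (c6 ^ 2 - c4 ^ 3) * tG c4 c6 p q ^ 2 := by
    linear_combination (-1 : F) * t_rel c4 c6 p q
  have hc : (p ^ 3 + 3 * p * q ^ 2 * (c6 ^ 2 - c4 ^ 3)) * tG c4 c6 p q -
      t6 c4 c6 p q * (3 * p ^ 2 * q + q ^ 3 * (c6 ^ 2 - c4 ^ 3)) =
      (p ^ 2 - (c6 ^ 2 - c4 ^ 3) * q ^ 2) ^ 3 := by
    simp only [t6, tG]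
    ring
  rw [tG.eq_def (t4 c4 c6 p q), hr]
  set M := p ^ 2 - (c6 ^ 2 - c4 ^ 3) * q ^ 2 with hMd
  set G := tG c4 c6 p q with hGd
  set k := c6 ^ 2 - c4 ^ 3 with hk
  have e : (p / M) ^ 3 + 3 * t6 c4 c6 p q * (p / M) ^ 2 * (-q / (M * G)) +
      3 * (k * G ^ 2) * (p / M) * (-q / (M * G)) ^ 2 +
      t6 c4 c6 p q * (k * G ^ 2) * (-q / (M * G)) ^ 3 =
      ((p ^ 3 + 3 * p * q ^ 2 * k) * G - t6 c4 c6 p q * (3 * p ^ 2 * q + q ^ 3 * k)) /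
        (G * M ^ 3) := by
    field_simp
    ring
  rw [e, hc]
  field_simp

lemma tM_inv {c4 c6 p q : F} 
    (hM : p ^ 2 - (c6 ^ 2 - c4 ^ 3) * q ^ 2 ≠ 0) (hG : tG c4 c6 p q ≠ 0) :
    (p / (p ^ 2 - (c6 ^ 2 - c4 ^ 3) * q ^ 2)) ^ 2 -
      (t6 c4 c6 p q ^ 2 - t4 c4 c6 p q ^ 3) *
      (-q / ((p ^ 2 - (c6 ^ 2 - c4 ^ 3) * q ^ 2) * tG c4 c6 p q)) ^ 2 =
      1 / (p ^ 2 - (c6 ^ 2 - c4 ^ 3) * q ^ 2) := by
  have hr : t6 c4 c6 p q ^ 2 - t4 c4 c6 p q ^ 3 = (c6 ^ 2 - c4 ^ 3) * tG c4 c6 p q ^ 2 := by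
    linear_combination (-1 : F) * t_rel c4 c6 p q
  rw [hr]
  set M := p ^ 2 - (c6 ^ 2 - c4 ^ 3) * q ^ 2 with hMd
  set G := tG c4 c6 p q with hGd
  have e : (p / M) ^ 2 - (c6 ^ 2 - c4 ^ 3) * G ^ 2 * (-q / (M * G)) ^ 2 =
      (p ^ 2 - (c6 ^ 2 - c4 ^ 3) * q ^ 2) / M ^ 2 := by
    field_simp
  rw [e, ← hMd]
  field_simp

end map

section pts

variable {F : Type*} [Field F] [CharZero F]

open scoped Classical in
/-- the map on the 2-torsion points -/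
noncomputable def qm (W W' : WeierstrassCurve F) (c4 c6 p q : F) :
    W.toAffine.Point → W'.toAffine.Point
  | 0 => 0
  | .some x _ _ =>
    if h : W'.toAffine.Nonsingular (tg c4 c6 p q x) 0 then .some _ _ h else 0

variable {W W' : WeierstrassCurve F}

lemma qm_zero (c4 c6 p q : F) : qm W W' c4 c6 p q 0 = 0 := rfl

lemma qm_some {c4 c6 p q : F} {x y : F} (n : W.toAffine.Nonsingular x y)
    (h : W'.toAffine.Nonsingular (tg c4 c6 p q x) 0) :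
    qm W W' c4 c6 p q (.some x y n) = .some _ _ h := by
  simp only [qm]
  rw [dif_pos h]

variable [DecidableEq F]

lemma two_iff (hS : IsShort W) {x y : F} (n : W.toAffine.Nonsingular x y) :
    2 • (Affine.Point.some x y n : W.toAffine.Point) = 0 ↔ y = 0 := by
  rw [two_smul]
  constructor
  · intro h
    rw [add_eq_zero_iff_eq_neg, hS.neg_some n (hS.nonsing_neg n)] at h
    simp only [Affine.Point.some.injEq] at h
    have : (2 : F) * y = 0 := by linear_combination h.2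
    exact (mul_eq_zero.mp this).resolve_left (by norm_num)
  · intro h
    apply Affine.Point.add_self_of_Y_eq
    rw [hS.negY, h, _root_.neg_zero]

lemma qm_img {c4 c6 p q : F} (hW : HasInv W c4 c6) (hW' : HasInv W' (t4 c4 c6 p q) (t6 c4 c6 p q))
    {x : F} (n : W.toAffine.Nonsingular x 0) :
    (x ^ 3 - 27 * c4 * x - 54 * c6 = 0) ∧ W'.toAffine.Nonsingular (tg c4 c6 p q x) 0 := by
  have hx : x ^ 3 - 27 * c4 * x - 54 * c6 = 0 := by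
    have := (hW.eqn x 0).mp n.1
    rw [← this]; ring
  refine ⟨hx, ?_⟩
  apply nonsing hW'.hD
  rw [hW'.eqn, t_one, hx]
  ring

lemma qm_tors {c4 c6 p q : F} (hW : HasInv W c4 c6)
    (hW' : HasInv W' (t4 c4 c6 p q) (t6 c4 c6 p q)) (P : W.toAffine.Point) (hP : 2 • P = 0) :
    2 • qm W W' c4 c6 p q P = 0 := by
  match P, hP with
  | 0, _ => rw [qm_zero, smul_zero]
  | .some x y n, hP =>
    rw [two_iff hW.sh] at hP
    subst hP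
    rw [qm_some n (qm_img hW hW' n).2, two_iff hW'.sh]

lemma qm_inv {c4 c6 p q C4 C6 p' q' : F} (hW : HasInv W c4 c6)
    (h4 : C4 = t4 c4 c6 p q) (h6 : C6 = t6 c4 c6 p q) (hW' : HasInv W' C4 C6)
    (hM : p ^ 2 - (c6 ^ 2 - c4 ^ 3) * q ^ 2 ≠ 0) (hG : tG c4 c6 p q ≠ 0)
    (hp : p' = p / (p ^ 2 - (c6 ^ 2 - c4 ^ 3) * q ^ 2))
    (hq : q' = -q / ((p ^ 2 - (c6 ^ 2 - c4 ^ 3) * q ^ 2) * tG c4 c6 p q))
    (P : W.toAffine.Point) (hP : 2 • P = 0) :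
    qm W' W C4 C6 p' q' (qm W W' c4 c6 p q P) = P := by
  subst h4 h6
  match P, hP with
  | 0, _ => rw [qm_zero, qm_zero]
  | .some x y n, hP =>
    rw [two_iff hW.sh] at hP
    subst hP
    obtain ⟨hx, n1⟩ := qm_img hW hW' n
    have e := t_inv hx hM hG
    rw [← hp, ← hq] at e
    have n2 : W.toAffine.Nonsingular (tg (t4 c4 c6 p q) (t6 c4 c6 p q) p' q'
        (tg c4 c6 p q x)) 0 := by rw [e]; exact n
    rw [qm_some n n1, qm_some n1 n2]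
    simp only [Affine.Point.some.injEq]
    exact ⟨e, trivial⟩

lemma qm_add {c4 c6 p q : F} (hW : HasInv W c4 c6)
    (hW' : HasInv W' (t4 c4 c6 p q) (t6 c4 c6 p q))
    (hM : p ^ 2 - (c6 ^ 2 - c4 ^ 3) * q ^ 2 ≠ 0) (hG : tG c4 c6 p q ≠ 0)
    (P Q : W.toAffine.Point) (hP : 2 • P = 0) (hQ : 2 • Q = 0) :
    qm W W' c4 c6 p q (P + Q) = qm W W' c4 c6 p q P + qm W W' c4 c6 p q Q := by
  have n2 : NeZero (2 : F) := ⟨by norm_num⟩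
  match P, Q, hP, hQ with
  | 0, Q, _, _ => rw [zero_add, qm_zero, zero_add]
  | P, 0, _, _ => rw [add_zero, qm_zero, add_zero]
  | .some x1 y1 p1, .some x2 y2 p2, hP, hQ =>
    have hP' := hP
    have hQ' := hQ
    rw [two_iff hW.sh] at hP' hQ'
    subst hP' hQ'
    by_cases hx : x1 = x2
    · subst hx
      rw [← two_smul ℕ, ← two_smul ℕ, hP, qm_zero, qm_tors hW hW' _ hP]
    · obtain ⟨l, hn, hch, hs⟩ := hW.sh.add_some p1 p2 (fun hh => hx hh.1)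
      have hl : l = 0 := by
        have := hch.h2
        rw [sub_self] at this
        exact (mul_eq_zero.mp this.symm).resolve_right (sub_ne_zero.mpr hx)
      subst hl
      have hx3 : (0 : F) ^ 2 - x1 - x2 = - x1 - x2 := by ring
      have hy3 : -((0 : F) * (0 ^ 2 - x1 - x2 - x1) + 0) = 0 := by ring
      have hn' : W.toAffine.Nonsingular (- x1 - x2) 0 := by
        have hn0 := hn
        rw [hx3] at hn0
        have : -((0 : F) * (- x1 - x2 - x1) + 0) = 0 := by ring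
        rwa [this] at hn0
      have hs' : (Affine.Point.some x1 0 p1 : W.toAffine.Point) + Affine.Point.some x2 0 p2 =
          Affine.Point.some (- x1 - x2) 0 hn' := by
        rw [hs]
        simp only [Affine.Point.some.injEq]
        exact ⟨hx3, hy3⟩
      obtain ⟨r1, m1⟩ := qm_img hW hW' p1
      obtain ⟨r2, m2⟩ := qm_img hW hW' p2
      obtain ⟨r3, m3⟩ := qm_img hW hW' hn'
      rw [hs', qm_some p1 m1, qm_some p2 m2, qm_some hn' m3]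
      have hne : tg c4 c6 p q x1 ≠ tg c4 c6 p q x2 := by
        intro h
        apply hx
        rw [← t_inv r1 hM hG, ← t_inv r2 hM hG, h]
      obtain ⟨l', hn2, hch', hs2⟩ := hW'.sh.add_some m1 m2 (fun hh => hne hh.1)
      have hl' : l' = 0 := by
        have := hch'.h2
        rw [sub_self] at this
        exact (mul_eq_zero.mp this.symm).resolve_right (sub_ne_zero.mpr hne)
      subst hl'
      rw [hs2]
      simp only [Affine.Point.some.injEq]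
      constructor
      · have h1 := hch.h1
        rw [hW.h4] at h1
        simp only [tg, ts]
        linear_combination (q * c4 * 2 / 3) * h1
      · ring

end pts

section TIm

variable {K : Type} [Field K] [Algebra ℚ K] [DecidableEq K] [CharZero K]

/-- **the 2-torsion** -/
theorem two_TI {c4 c6 C4 C6 : ℤ} {p q : ℚ} (h : c4 ^ 3 ≠ c6 ^ 2) (hc4 : C4 ≠ 0)
    (h4 : (C4 : ℚ) = t4 (c4 : ℚ) c6 p q) (h6 : (C6 : ℚ) = t6 (c4 : ℚ) c6 p q)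
    (hG : tG (c4 : ℚ) c6 p q ≠ 0) :
    ∃ f g, TI 2 (act K (shortOf c4 c6)) (act K (shortOf C4 C6)) f g := by
  have h' : C4 ^ 3 ≠ C6 ^ 2 := by
    intro h0
    have : (C4 : ℚ) ^ 3 - (C6 : ℚ) ^ 2 = 0 := by
      rw [sub_eq_zero]; exact_mod_cast h0
    rw [h4, h6, t_rel] at this
    rcases mul_eq_zero.mp this with h1 | h1
    · apply h
      rw [sub_eq_zero] at h1
      exact_mod_cast h1
    · exact hG (pow_eq_zero_iff (two_ne_zero) |>.mp h1)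
  have i1 := hasInv_short (K := K) h
  have i2 := hasInv_short (K := K) h'
  have e4 : (C4 : K) = t4 (c4 : K) c6 (algebraMap ℚ K p) (algebraMap ℚ K q) := by
    have := congrArg (algebraMap ℚ K) h4
    simpa [t4] using this
  have e6 : (C6 : K) = t6 (c4 : K) c6 (algebraMap ℚ K p) (algebraMap ℚ K q) := by
    have := congrArg (algebraMap ℚ K) h6
    simpa [t6] using this
  have eG : tG (c4 : K) c6 (algebraMap ℚ K p) (algebraMap ℚ K q) ≠ 0 := by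
    have h1 : algebraMap ℚ K (tG (c4 : ℚ) c6 p q) ≠ 0 := by
      rw [Ne, map_eq_zero]; exact hG
    have h2 : algebraMap ℚ K (tG (c4 : ℚ) c6 p q) =
        tG (c4 : K) c6 (algebraMap ℚ K p) (algebraMap ℚ K q) := by simp [tG]
    rwa [h2] at h1
  have hM0 : (p ^ 2 - ((c6 : ℚ) ^ 2 - (c4 : ℚ) ^ 3) * q ^ 2) ≠ 0 := by
    intro h0
    rw [t4, h0, mul_zero] at h4
    exact hc4 (by exact_mod_cast h4)
  set P := algebraMap ℚ K p with hP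
  set Q := algebraMap ℚ K q with hQ
  have hM1 : (P ^ 2 - ((c6 : K) ^ 2 - (c4 : K) ^ 3) * Q ^ 2) ≠ 0 := by
    have h1 : algebraMap ℚ K (p ^ 2 - ((c6 : ℚ) ^ 2 - (c4 : ℚ) ^ 3) * q ^ 2) ≠ 0 := by
      rw [Ne, map_eq_zero]; exact hM0
    have h2 : algebraMap ℚ K (p ^ 2 - ((c6 : ℚ) ^ 2 - (c4 : ℚ) ^ 3) * q ^ 2) =
        (P ^ 2 - ((c6 : K) ^ 2 - (c4 : K) ^ 3) * Q ^ 2) := by simp [hP, hQ]
    rwa [h2] at h1
  have i2' := i2
  rw [e4, e6] at i2'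
  set P' : K := P / (P ^ 2 - ((c6 : K) ^ 2 - (c4 : K) ^ 3) * Q ^ 2) with hP'
  set Q' : K := -Q / ((P ^ 2 - ((c6 : K) ^ 2 - (c4 : K) ^ 3) * Q ^ 2) * tG (c4 : K) c6 P Q) with hQ'
  have j4 : t4 (C4 : K) C6 P' Q' = c4 := by rw [e4, e6]; exact t4_inv hM1 eG
  have j6 : t6 (C4 : K) C6 P' Q' = c6 := by rw [e4, e6]; exact t6_inv hM1 eG
  have jG : tG (C4 : K) C6 P' Q' = 1 / tG (c4 : K) c6 P Q := by
    rw [e4, e6]; exact tG_inv hM1 eG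
  have jM : P' ^ 2 - ((C6 : K) ^ 2 - (C4 : K) ^ 3) * Q' ^ 2 =
      1 / (P ^ 2 - ((c6 : K) ^ 2 - (c4 : K) ^ 3) * Q ^ 2) := by
    rw [e4, e6]; exact tM_inv hM1 eG
  have jG0 : tG (C4 : K) C6 P' Q' ≠ 0 := by rw [jG]; exact one_div_ne_zero eG
  have jM0 : P' ^ 2 - ((C6 : K) ^ 2 - (C4 : K) ^ 3) * Q' ^ 2 ≠ 0 := by
    rw [jM]; exact one_div_ne_zero hM1
  have i1' := i1
  rw [← j4, ← j6] at i1'
  refine ⟨qm _ _ c4 c6 P Q, qm _ _ C4 C6 P' Q', ?_, ?_, ?_, ?_, ?_, ?_⟩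
  · exact qm_tors i1 i2'
  · exact qm_tors i2 i1'
  · exact qm_inv i1 e4 e6 i2 hM1 eG rfl rfl
  · refine qm_inv i2 j4.symm j6.symm i1 jM0 jG0 ?_ ?_
    · rw [jM, hP']
      generalize P ^ 2 - ((c6 : K) ^ 2 - (c4 : K) ^ 3) * Q ^ 2 = M at hM1 ⊢
      field_simp
    · rw [jM, jG, hQ']
      generalize P ^ 2 - ((c6 : K) ^ 2 - (c4 : K) ^ 3) * Q ^ 2 = M at hM1 ⊢
      generalize tG (c4 : K) c6 P Q = G at eG ⊢
      field_simp
  · exact qm_add i1 i2' hM1 eG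
  · intro σ R hR
    match R, hR with
    | 0, _ => rw [act_zero, qm_zero, act_zero]
    | .some x y n, hR =>
      have hR' : 2 • act K (shortOf c4 c6) σ (Affine.Point.some x y n) = 0 := by
        rw [← map_nsmul, hR, map_zero]
      obtain ⟨n', hn'⟩ := act_some (shortOf c4 c6) σ n
      rw [hn'] at hR' ⊢
      rw [two_iff i1.sh] at hR hR'
      subst hR
      have n'' := n'
      rw [hR'] at n''
      obtain ⟨-, m1⟩ := qm_img i1 i2' n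
      obtain ⟨-, m2⟩ := qm_img i1 i2' n''
      rw [qm_some n' m2, qm_some n m1]
      obtain ⟨q', hq'⟩ := act_some (shortOf C4 C6) σ m1
      rw [hq']
      simp only [Affine.Point.some.injEq]
      constructor
      · have s3 : σ (3 : K) = 3 := map_ofNat σ 3
        have s6 : σ (6 : K) = 6 := map_ofNat σ 6
        simp only [tg, ts, hP, hQ, map_add, map_mul, map_div₀, map_neg, map_pow, s3, s6,
          AlgEquiv.commutes, map_intCast]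
      · rw [map_zero]

end TIm

end Pool.Agent.Y680.M
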