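import Mathlib
import Pool.Agent.Y680.M.Base
import Pool.Agent.Y680.M.Two

/-!
# The parametrisations of `Q₀ + 2 R` and of `Q₀ + 3 R`
-/

set_option autoImplicit false
set_option linter.unusedSectionVars false

open WeierstrassCurve

namespace Pool.Agent.Y680.M

open Pool.Agent.TH942

section hesse

variable {k : ℚ}

lemma hesse_id {x0 y0 x y : ℚ} (n0 : (sw (0 : ℚ) k).toAffine.Nonsingular x0 y0)
    (n : (sw (0 : ℚ) k).toAffine.Nonsingular x y) (hx : x ≠ x0)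
    (hne : (Affine.Point.some x0 y0 n0 : SPt (0 : ℚ) k) +
      2 • (Affine.Point.some x y n : SPt (0 : ℚ) k) ≠ 0) :
    ∃ (w X Y : ℚ) (m : (sw (0 : ℚ) k).toAffine.Nonsingular X Y), w ≠ 0 ∧
      w ^ 2 = hF x0 y0 ((y - y0) / (x - x0)) 1 ∧
      X * w ^ 2 = h4 x0 y0 ((y - y0) / (x - x0)) 1 ∧
      Y * w ^ 3 = h6 x0 y0 ((y - y0) / (x - x0)) 1 ∧
      (Affine.Point.some x0 y0 n0 : SPt (0 : ℚ) k) +
        2 • (Affine.Point.some x y n : SPt (0 : ℚ) k) = Affine.Point.some X Y m := by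
  have n2 : NeZero (2 : ℚ) := ⟨by norm_num⟩
  have hS := sw_short k
  have ha4 : (sw (0 : ℚ) k).a₄ = 0 := rfl
  obtain ⟨l, hn, hch, hs⟩ := hS.add_some n0 n (fun hh => hx hh.1.symm)
  have hxx : x - x0 ≠ 0 := sub_ne_zero.mpr hx
  have hl : (y - y0) / (x - x0) = l := by
    rw [div_eq_iff hxx]
    linear_combination (-1 : ℚ) * hch.h2
  rw [hl]
  set xS := l ^ 2 - x0 - x with hxS
  set yS := -(l * (xS - x0) + y0) with hyS
  have hsum : (Affine.Point.some x0 y0 n0 : SPt (0 : ℚ) k) +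
      2 • (Affine.Point.some x y n : SPt (0 : ℚ) k) =
      Affine.Point.some xS yS hn + Affine.Point.some x y n := by
    rw [two_smul, ← add_assoc, hs]
  have hneS : xS ≠ x := by
    intro h
    have hor : yS = y ∨ yS = -y := by
      apply sq_eq_sq_iff_eq_or_eq_neg.mp
      rw [hS.eqn.mp n.1, hS.eqn.mp hn.1, h]
    rcases hor with h' | h'
    · have : (Affine.Point.some x0 y0 n0 : SPt (0 : ℚ) k) + Affine.Point.some x y n =
          Affine.Point.some x y n := by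
        rw [hs]
        simp only [Affine.Point.some.injEq]
        exact ⟨h, h'⟩
      exact Affine.Point.some_ne_zero _ (add_eq_right.mp this)
    · apply hne
      rw [hsum]
      apply Affine.Point.add_of_Y_eq h
      rw [hS.negY]; exact h'
  obtain ⟨l2, hn2, hch2, hs2⟩ := hS.add_some hn n (fun hh => hneS hh.1)
  have hw0 : x - xS ≠ 0 := sub_ne_zero.mpr hneS.symm
  have hy : y = y0 + l * (x - x0) := by linear_combination (-1 : ℚ) * hch.h2
  have hR : l * (2 * y0 + l * (x - x0)) = x0 ^ 2 + x0 * x + x ^ 2 := by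
    have := hch.h1
    rw [ha4] at this
    linear_combination this - l * hy
  have hw2 : (x - xS) ^ 2 = hF x0 y0 l 1 := by
    rw [hxS]
    simp only [hF]
    linear_combination (-4 : ℚ) * hR
  have hA : l2 * (x - xS) = l ^ 3 - 3 * x0 * l + 2 * y0 := by
    have := hch2.h2
    rw [hyS] at this
    rw [hxS] at this ⊢
    linear_combination this + hy
  have hX : (l2 ^ 2 - xS - x) * (x - xS) ^ 2 = h4 x0 y0 l 1 := by
    have e1 : (l2 ^ 2 - xS - x) * (x - xS) ^ 2 = (l2 * (x - xS)) ^ 2 -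
        (l ^ 2 - x0) * (x - xS) ^ 2 := by rw [hxS]; ring
    rw [e1, hA, hw2]
    simp only [hF, h4]
    ring
  refine ⟨x - xS, _, _, hn2, hw0, hw2, hX, ?_, ?_⟩
  · have hB : (l ^ 3 - 3 * x0 * l + 2 * y0) * x - y * (x - xS) =
        x0 * l ^ 3 - 3 * y0 * l ^ 2 + 3 * x0 ^ 2 * l - x0 * y0 := by
      rw [hy, hxS]
      linear_combination (2 * l) * hR
    have e2 : -(l2 * (l2 ^ 2 - xS - x - xS) + yS) = -(l2 * (l2 ^ 2 - xS - x - x) + y) := by
      linear_combination (-1 : ℚ) * hch2.h2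
    have e3 : -(l2 * (l2 ^ 2 - xS - x - x) + y) * (x - xS) ^ 3 =
        -((l2 * (x - xS)) * ((l2 ^ 2 - xS - x) * (x - xS) ^ 2 - x * (x - xS) ^ 2)
          + y * (x - xS) * (x - xS) ^ 2) := by ring
    rw [e2, e3, hA, hX, hw2]
    have e4 : -((l ^ 3 - 3 * x0 * l + 2 * y0) * (h4 x0 y0 l 1 - x * hF x0 y0 l 1) +
        y * (x - xS) * hF x0 y0 l 1) = -(l ^ 3 - 3 * x0 * l + 2 * y0) * h4 x0 y0 l 1 +
        hF x0 y0 l 1 * ((l ^ 3 - 3 * x0 * l + 2 * y0) * x - y * (x - xS)) := by ring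
    rw [e4, hB]
    simp only [hF, h4, h6]
    ring
  · rw [hsum]; exact hs2

end hesse

section cube

lemma cube_step {F : Type*} [Field F] {k x1 y1 x2 y2 l κ : F} (hκ : κ ^ 2 = k)
    (hc : Chord 0 k x1 y1 x2 y2 l) (hμ : (y1 - l * x1) ^ 2 - k ≠ 0) :
    -(l * (l ^ 2 - x1 - x2 - x1) + y1) + κ = (y1 + κ) * (y2 + κ) *
      (-(l ^ 2 - x1 - x2) * ((y1 - l * x1) - κ) / ((y1 - l * x1) ^ 2 - k)) ^ 3 := by
  have vv2 := hc.vieta2
  have vv3 := hc.vieta3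
  obtain ⟨e1, e2, h1, h2⟩ := hc
  set μ := y1 - l * x1 with hμd
  set x3 := l ^ 2 - x1 - x2 with hx3
  have hy1 : y1 = l * x1 + μ := by rw [hμd]; ring
  have hy2 : y2 = l * x2 + μ := by rw [hμd]; linear_combination (-1 : F) * h2
  have hyR : -(l * (x3 - x1) + y1) = -(l * x3 + μ) := by rw [hμd]; ring
  rw [hyR, div_pow, mul_div_assoc', eq_div_iff (pow_ne_zero 3 hμ)]
  -- the three factors
  have hprod : (y1 + κ) * (y2 + κ) * ((l * x3 + μ) + κ) = (μ + κ) ^ 3 := by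
    rw [hy1, hy2]
    linear_combination l ^ 3 * vv3 + l ^ 2 * (μ + κ) * vv2 + l * (μ + κ) ^ 2 * hx3 + l ^ 3 * hκ
  have hx33 : x3 ^ 3 = (l * x3 + μ) ^ 2 - k := by
    linear_combination x3 ^ 2 * hx3 - x3 * vv2 + vv3
  have hx33' : x3 ^ 3 = ((l * x3 + μ) + κ) * ((l * x3 + μ) - κ) := by
    rw [hx33]; linear_combination hκ
  have hM : (μ ^ 2 - k) = (μ + κ) * (μ - κ) := by linear_combination hκ
  calc (-(l * x3 + μ) + κ) * (μ ^ 2 - k) ^ 3
      = (-(l * x3 + μ) + κ) * ((μ + κ) ^ 3 * (μ - κ) ^ 3) := by rw [hM]; ring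
    _ = (-(l * x3 + μ) + κ) * (((y1 + κ) * (y2 + κ) * ((l * x3 + μ) + κ)) * (μ - κ) ^ 3) := by
        rw [hprod]
    _ = -((y1 + κ) * (y2 + κ) * (((l * x3 + μ) + κ) * ((l * x3 + μ) - κ)) * (μ - κ) ^ 3) := by ring
    _ = -((y1 + κ) * (y2 + κ) * x3 ^ 3 * (μ - κ) ^ 3) := by rw [← hx33']
    _ = (y1 + κ) * (y2 + κ) * (-x3 * (μ - κ)) ^ 3 := by ring

variable {c4 c6 D : ℤ}

lemma mul_some (h : Base c4 c6 D) (n : ℕ) (hn : n ≠ 0) :
    ∃ x y m, n • q0 h = (Affine.Point.some x y m : SPt (0 : ℚ) (kk c4 c6)) ∧ x ≠ 0 := by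
  have h0 := q0_inf h n hn
  rcases hP : n • q0 h with _ | ⟨x, y, m⟩
  · exact absurd hP h0
  · refine ⟨x, y, m, rfl, ?_⟩
    rintro rfl
    have h3 : 3 • (Affine.Point.some 0 y m : SPt (0 : ℚ) (kk c4 c6)) = 0 := by
      rw [three_iff (sw_short _) (sw_D h.kk_ne)]
      simp only [psi3]
      change 3 * (0 : ℚ) ^ 4 + 6 * 0 * (0 : ℚ) ^ 2 + 12 * kk c4 c6 * 0 - 0 ^ 2 = 0
      ring
    rw [← hP, smul_smul] at h3
    exact q0_inf h (3 * n) (by omega) h3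

lemma cube_all (h : Base c4 c6 D) (n : ℕ) (hn : n ≠ 0) :
    ∃ x y m, n • q0 h = (Affine.Point.some x y m : SPt (0 : ℚ) (kk c4 c6)) ∧ x ≠ 0 ∧
      ∃ a b : ℚ, ∀ κ : ℂ, κ ^ 2 = (kk c4 c6 : ℂ) →
        (y : ℂ) + κ = ((c6 : ℂ) + κ) ^ n * ((a : ℂ) + b * κ) ^ 3 := by
  have n2 : NeZero (2 : ℚ) := ⟨by norm_num⟩
  have hS := sw_short (kk c4 c6)
  induction n with
  | zero => exact absurd rfl hn
  | succ n ih =>
    by_cases h0 : n = 0
    · subst h0
      refine ⟨c4, c6, q0_ns h, ?_, ?_, 1, 0, ?_⟩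
      · rw [zero_add, one_smul]; rfl
      · exact_mod_cast h.c4_ne
      · intro κ _
        push_cast
        ring
    · obtain ⟨x, y, m, e, hx, a, b, hab⟩ := ih h0
      obtain ⟨x', y', m', e', hx'⟩ := mul_some h (n + 1) (by omega)
      have hadd : (n + 1) • q0 h = Affine.Point.some x y m + q0 h := by
        rw [add_smul, one_smul, e]
      have hne : ¬ (x = (c4 : ℚ) ∧ y = -(c6 : ℚ)) := by
        intro hh
        apply q0_inf h (n + 1) (by omega)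
        rw [hadd]
        apply Affine.Point.add_of_Y_eq hh.1
        rw [hS.negY]; exact hh.2
      obtain ⟨l, hn', hch, hs⟩ := hS.add_some m (q0_ns h) hne
      have hs' : (Affine.Point.some x y m : SPt (0 : ℚ) (kk c4 c6)) + q0 h =
        Affine.Point.some _ _ hn' := hs
      rw [hs', e'] at hadd
      simp only [Affine.Point.some.injEq] at hadd
      obtain ⟨hX, hY⟩ := hadd
      have hch' : Chord 0 (kk c4 c6) x y (c4 : ℚ) (c6 : ℚ) l := hch
      have v3 := hch'.vieta3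
      rw [← hX] at v3
      have hμ : (y - l * x) ^ 2 - kk c4 c6 ≠ 0 := by
        rw [← v3]
        exact mul_ne_zero (mul_ne_zero hx (by exact_mod_cast h.c4_ne)) hx'
      refine ⟨x', y', m', e', hx', -x' / ((y - l * x) ^ 2 - kk c4 c6) *
        (a * (y - l * x) - b * kk c4 c6), -x' / ((y - l * x) ^ 2 - kk c4 c6) *
        (b * (y - l * x) - a), ?_⟩
      intro κ hκ
      have hc' : Chord (0 : ℂ) (kk c4 c6 : ℂ) (x : ℂ) y (c4 : ℂ) (c6 : ℂ) (l : ℂ) := by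
        obtain ⟨q1, q2, q3, q4⟩ := hch'
        refine ⟨?_, ?_, ?_, ?_⟩
        · have := congrArg (fun z : ℚ => (z : ℂ)) q1
          push_cast at this
          exact this
        · have := congrArg (fun z : ℚ => (z : ℂ)) q2
          push_cast at this
          exact this
        · have := congrArg (fun z : ℚ => (z : ℂ)) q3
          push_cast at this
          exact this
        · have := congrArg (fun z : ℚ => (z : ℂ)) q4
          push_cast at this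
          exact this
      have hμ' : ((y : ℂ) - l * x) ^ 2 - (kk c4 c6 : ℂ) ≠ 0 := by
        have : (((y - l * x) ^ 2 - kk c4 c6 : ℚ) : ℂ) ≠ 0 := by exact_mod_cast hμ
        push_cast at this
        exact this
      have st := cube_step hκ hc' hμ'
      have hY' : (y' : ℂ) = -((l : ℂ) * (l ^ 2 - x - c4 - x) + y) := by
        rw [hY]; push_cast; ring
      have hX' : (x' : ℂ) = (l : ℂ) ^ 2 - x - c4 := by
        rw [hX]; push_cast; ring
      rw [hY', st, ← hX', hab κ hκ]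
      push_cast
      set M : ℂ := ((y : ℂ) - l * x) ^ 2 - (kk c4 c6 : ℂ) with hM
      rw [pow_succ ((c6 : ℂ) + κ) n]
      have e5 : (-(x' : ℂ) / M * (a * ((y : ℂ) - l * x) - b * (kk c4 c6 : ℂ)) +
          -(x' : ℂ) / M * (b * ((y : ℂ) - l * x) - a) * κ) =
          (a + b * κ) * (-(x' : ℂ) * ((y : ℂ) - l * x - κ) / M) := by
        rw [← hκ]
        ring
      rw [e5]
      ring

lemma pow_lin (c6' : ℚ) (k : ℚ) (a b : ℚ) (j : ℕ) : ∃ p q : ℚ, ∀ κ : ℂ, κ ^ 2 = (k : ℂ) →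
    ((c6' : ℂ) + κ) ^ j * ((a : ℂ) + b * κ) = p + q * κ := by
  induction j with
  | zero => exact ⟨a, b, fun κ _ => by ring⟩
  | succ j ih =>
    obtain ⟨p, q, hpq⟩ := ih
    refine ⟨c6' * p + k * q, p + c6' * q, fun κ hκ => ?_⟩
    have : ((c6' : ℂ) + κ) ^ (j + 1) * ((a : ℂ) + b * κ) =
        ((c6' : ℂ) + κ) * (((c6' : ℂ) + κ) ^ j * ((a : ℂ) + b * κ)) := by ring
    rw [this, hpq κ hκ]
    push_cast
    rw [← hκ]
    ring

/-- the points `n Q₀` with `n ≡ 1 mod 3` -/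
lemma two_par (h : Base c4 c6 D) (j : ℕ) :
    ∃ x y m, (3 * j + 1) • q0 h = (Affine.Point.some x y m : SPt (0 : ℚ) (kk c4 c6)) ∧
      ∃ p q : ℚ, x = t4 (c4 : ℚ) c6 p q ∧ y = t6 (c4 : ℚ) c6 p q ∧ tG (c4 : ℚ) c6 p q = 1 := by
  obtain ⟨x, y, m, e, hx, a, b, hab⟩ := cube_all h (3 * j + 1) (by omega)
  obtain ⟨p, q, hpq⟩ := pow_lin (c6 : ℚ) (kk c4 c6) a b j
  refine ⟨x, y, m, e, p, q, ?_⟩
  obtain ⟨κ, hκ⟩ : ∃ κ : ℂ, κ ^ 2 = (kk c4 c6 : ℂ) :=
    IsAlgClosed.exists_pow_nat_eq _ (by norm_num)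
  have hk0 : (kk c4 c6 : ℂ) ≠ 0 := by
    exact_mod_cast h.kk_ne
  have hκ0 : κ ≠ 0 := by
    rintro rfl
    apply hk0
    rw [← hκ]; ring
  have hkk : (kk c4 c6 : ℂ) = (c6 : ℂ) ^ 2 - (c4 : ℂ) ^ 3 := by
    rw [kk]; push_cast; ring
  have key : ∀ κ : ℂ, κ ^ 2 = (kk c4 c6 : ℂ) →
      (y : ℂ) + κ = t6 (c4 : ℂ) c6 p q + κ * tG (c4 : ℂ) c6 p q := by
    intro κ hκ
    have h1 := hab κ hκ
    have h2 := hpq κ hκ
    push_cast at h2
    have e1 : ((c6 : ℂ) + κ) ^ (3 * j + 1) * ((a : ℂ) + b * κ) ^ 3 =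
        ((c6 : ℂ) + κ) * (((c6 : ℂ) + κ) ^ j * ((a : ℂ) + b * κ)) ^ 3 := by ring
    rw [h1, e1, h2]
    rw [hkk] at hκ
    simp only [t6, tG]
    linear_combination (((c6 : ℂ) + κ) * (3 * p * q ^ 2 + q ^ 3 * κ) +
      (3 * (p : ℂ) ^ 2 * q + q ^ 3 * ((c6 : ℂ) ^ 2 - (c4 : ℂ) ^ 3))) * hκ
  have k1 := key κ hκ
  have k2 := key (-κ) (by rw [neg_sq]; exact hκ)
  have y1 : (y : ℂ) = t6 (c4 : ℂ) c6 p q := by linear_combination (k1 + k2) / 2
  have g1 : tG (c4 : ℂ) c6 p q = 1 := by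
    have : κ * (tG (c4 : ℂ) c6 p q) = κ * 1 := by linear_combination (k2 - k1) / 2
    exact mul_left_cancel₀ hκ0 this
  have y2 : y = t6 (c4 : ℚ) c6 p q := by
    have : ((y : ℚ) : ℂ) = ((t6 (c4 : ℚ) c6 p q : ℚ) : ℂ) := by
      rw [y1]; simp [t6]
    exact_mod_cast this
  have g2 : tG (c4 : ℚ) c6 p q = 1 := by
    have : ((tG (c4 : ℚ) c6 p q : ℚ) : ℂ) = ((1 : ℚ) : ℂ) := by
      have h1 : ((tG (c4 : ℚ) c6 p q : ℚ) : ℂ) = tG (c4 : ℂ) c6 p q := by simp [tG]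
      rw [h1, g1]; norm_num
    exact_mod_cast this
  refine ⟨?_, y2, g2⟩
  have q1 : y ^ 2 = x ^ 3 + kk c4 c6 := by
    have := (sw_short (kk c4 c6)).eqn.mp m.1
    rw [this]
    change x ^ 3 + 0 * x + kk c4 c6 = _
    ring
  have tr := t_rel (c4 : ℚ) c6 p q
  rw [g2, ← y2, q1, kk] at tr
  have h3 : x ^ 3 = t4 (c4 : ℚ) c6 p q ^ 3 := by linear_combination (-1 : ℚ) * tr
  exact (Odd.strictMono_pow (by decide : Odd 3)).injective h3

end cube

end Pool.Agent.Y680.M
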