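import Mathlib
import Pool.Agent.Y680.M.Param

/-!
# Denominators of the multiples of a point
-/

set_option autoImplicit false
set_option linter.unusedSectionVars false

open WeierstrassCurve

namespace Pool.Agent.Y680.M

open Pool.Agent.TH942

section local_

variable {p : ℕ} [hp : Fact p.Prime]

lemma v_lt_one {q : ℚ} (h : padicNorm p q < 1) : padicNorm p q ≤ (p : ℚ)⁻¹ := by
  have hp1 : (1 : ℚ) < p := by exact_mod_cast hp.out.one_lt
  by_cases hq : q = 0
  · rw [hq, padicNorm.zero]; positivity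
  · obtain ⟨z, hz⟩ := padicNorm.values_discrete (p := p) hq
    rw [hz] at h ⊢
    have h1 : (p : ℚ) ^ (-z) < (p : ℚ) ^ (0 : ℤ) := by rw [zpow_zero]; exact h
    have h2 : -z < 0 := (zpow_lt_zpow_iff_right₀ hp1).mp h1
    rw [← zpow_neg_one]
    exact (zpow_le_zpow_iff_right₀ hp1).mpr (by omega)

lemma inG_of_gt {k x y : ℚ} (hk : padicNorm p k ≤ 1)
    (n : (sw (0 : ℚ) k).toAffine.Nonsingular x y) (hx : 1 < padicNorm p x) :
    InG p ((p : ℚ)⁻¹) (Affine.Point.some x y n : SPt (0 : ℚ) k) := by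
  have q : y ^ 2 = x ^ 3 + k := by
    have := (sw_short k).eqn.mp n.1
    rw [this]
    change x ^ 3 + 0 * x + k = _
    ring
  have hx3 : padicNorm p (x ^ 3) = padicNorm p x ^ 3 := by
    rw [pow_succ, pow_succ, pow_one, padicNorm.mul, padicNorm.mul]; ring
  have h1 : 1 < padicNorm p x ^ 3 := one_lt_pow₀ hx (by norm_num)
  have hlt : padicNorm p k < padicNorm p (x ^ 3) := by rw [hx3]; linarith
  have hy2 : padicNorm p y ^ 2 = padicNorm p x ^ 3 := by
    rw [← v_sq, q, padicNorm.add_eq_max_of_ne (ne_of_gt hlt), ← hx3]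
    exact max_eq_left hlt.le
  have hy0 : y ≠ 0 := by
    rintro rfl
    rw [padicNorm.zero] at hy2
    rw [← hy2] at h1
    norm_num at h1
  have hypos : 0 < padicNorm p y :=
    lt_of_le_of_ne (padicNorm.nonneg _) (Ne.symm (padicNorm.nonzero hy0))
  have hxpos : 0 < padicNorm p x := by linarith
  set τ := padicNorm p (x / y) with hτ
  have hτ2 : τ ^ 2 = (padicNorm p x)⁻¹ := by
    rw [hτ, padicNorm.div, div_pow, hy2]
    field_simp
  have hτ0 : 0 ≤ τ := padicNorm.nonneg _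
  have hτ1 : τ < 1 := by
    by_contra hcon
    push Not at hcon
    have : 1 ≤ τ ^ 2 := one_le_pow₀ hcon
    rw [hτ2] at this
    have h3 : (padicNorm p x)⁻¹ < 1 := inv_lt_one_of_one_lt₀ hx
    linarith
  have hτp : τ ≤ (p : ℚ)⁻¹ := v_lt_one hτ1
  refine ⟨hy0, hτp, ?_⟩
  have hw : padicNorm p (1 / y) = τ ^ 3 := by
    have h4 : padicNorm p (1 / y) ^ 2 = (τ ^ 3) ^ 2 := by
      have : (τ ^ 3) ^ 2 = (τ ^ 2) ^ 3 := by ring
      rw [this, hτ2, padicNorm.div, padicNorm.one, div_pow, hy2]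
      field_simp
    exact (sq_eq_sq₀ (padicNorm.nonneg _) (pow_nonneg hτ0 3)).mp h4
  rw [hw]
  exact pow_le_pow_left₀ hτ0 hτp 3

lemma den_norm {q : ℚ} (h : 1 < padicNorm p q) : padicNorm p (q.den : ℚ) = (padicNorm p q)⁻¹ := by
  have hq : q * (q.den : ℚ) = q.num := Rat.mul_den_eq_num q
  have h1 := congrArg (padicNorm p) hq
  rw [padicNorm.mul] at h1
  have hd1 : padicNorm p (q.den : ℚ) < 1 := by
    have h2 : padicNorm p (q.num : ℚ) ≤ 1 := padicNorm.of_int _
    by_contra hcon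
    push Not at hcon
    nlinarith [padicNorm.nonneg (p := p) q]
  have hpd : p ∣ q.den := by
    have := (padicNorm.nat_lt_one_iff (p := p) q.den).mp hd1
    exact this
  have hpn : ¬ (p : ℤ) ∣ q.num := by
    intro hh
    have h3 : p ∣ q.num.natAbs := Int.natCast_dvd.mp hh
    have h4 := Nat.dvd_gcd h3 hpd
    have h5 := q.reduced
    rw [Nat.Coprime] at h5
    rw [h5] at h4
    exact hp.out.one_lt.ne' (Nat.dvd_one.mp h4)
  rw [(padicNorm.int_eq_one_iff q.num).mpr hpn] at h1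
  exact eq_inv_of_mul_eq_one_right h1

lemma gt_of_dvd_den {q : ℚ} (h : p ∣ q.den) : 1 < padicNorm p q := by
  have hq : q * (q.den : ℚ) = q.num := Rat.mul_den_eq_num q
  have h1 := congrArg (padicNorm p) hq
  rw [padicNorm.mul] at h1
  have hpn : ¬ (p : ℤ) ∣ q.num := by
    intro hh
    have h3 : p ∣ q.num.natAbs := Int.natCast_dvd.mp hh
    have h4 := Nat.dvd_gcd h3 h
    have h5 := q.reduced
    rw [Nat.Coprime] at h5
    rw [h5] at h4
    exact hp.out.one_lt.ne' (Nat.dvd_one.mp h4)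
  rw [(padicNorm.int_eq_one_iff q.num).mpr hpn] at h1
  have hd1 : padicNorm p (q.den : ℚ) < 1 := (padicNorm.nat_lt_one_iff (p := p) q.den).mpr h
  have hd0 : 0 < padicNorm p (q.den : ℚ) := by
    apply lt_of_le_of_ne (padicNorm.nonneg _) (Ne.symm (padicNorm.nonzero _))
    exact_mod_cast q.den_ne_zero
  by_contra hcon
  push Not at hcon
  nlinarith

end local_

variable {c4 c6 D : ℤ}

/-- the denominator of the abscissa of `n Q₀` -/
def dn (h : Base c4 c6 D) (n : ℕ) : ℕ := (xc (n • q0 h)).den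

lemma dn_pos (h : Base c4 c6 D) (n : ℕ) : 0 < dn h n := (xc (n • q0 h)).den_pos

lemma Base.k_int (p : ℕ) [Fact p.Prime] (h : Base c4 c6 D) : padicNorm p (kk c4 c6) ≤ 1 := by
  rw [h.kk_eq]
  have : (-1728 * (D : ℚ)) = ((-(1728 * D) : ℤ) : ℚ) := by push_cast; ring
  rw [this]
  exact padicNorm.of_int _

/-- multiplication is exact on denominators -/
lemma dn_mul (h : Base c4 c6 D) {p : ℕ} [hp : Fact p.Prime] {n s : ℕ} (hn : n ≠ 0) (hs : s ≠ 0)
    (hd : p ∣ dn h n) :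
    padicNorm p (dn h (s * n) : ℚ) = padicNorm p (s : ℚ) ^ 2 * padicNorm p (dn h n : ℚ) := by
  have hp1 : (1 : ℚ) < p := by exact_mod_cast hp.out.one_lt
  have hpi : (p : ℚ)⁻¹ < 1 := inv_lt_one_of_one_lt₀ hp1
  have hpi0 : 0 < (p : ℚ)⁻¹ := by positivity
  obtain ⟨x, y, m, e, hx0⟩ := mul_some h n hn
  obtain ⟨x', y', m', e', hx0'⟩ := mul_some h (s * n) (mul_ne_zero hs hn)
  have hdx : dn h n = x.den := by rw [dn, e]; rfl
  have hdx' : dn h (s * n) = x'.den := by rw [dn, e']; rfl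
  rw [hdx] at hd
  have hx1 := gt_of_dvd_den hd
  have hG := inG_of_gt (h.k_int p) m hx1
  have hk1 : padicNorm p (kk c4 c6) * ((p : ℚ)⁻¹) ^ 6 < 1 := by
    calc padicNorm p (kk c4 c6) * ((p : ℚ)⁻¹) ^ 6 ≤ 1 * ((p : ℚ)⁻¹) ^ 6 :=
          mul_le_mul_of_nonneg_right (h.k_int p) (pow_pos hpi0 6).le
      _ = ((p : ℚ)⁻¹) ^ 6 := one_mul _
      _ < 1 := pow_lt_one₀ hpi0.le hpi (by norm_num)
  have hk3 : padicNorm p (3 * kk c4 c6) * ((p : ℚ)⁻¹) ^ 6 < (p : ℚ)⁻¹ := by
    have h3 : padicNorm p (3 * kk c4 c6) ≤ 1 := by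
      rw [padicNorm.mul]
      have : padicNorm p 3 ≤ 1 := padicNorm.of_int 3
      exact mul_le_one₀ this (padicNorm.nonneg _) (h.k_int p)
    calc padicNorm p (3 * kk c4 c6) * ((p : ℚ)⁻¹) ^ 6 ≤ 1 * ((p : ℚ)⁻¹) ^ 6 :=
          mul_le_mul_of_nonneg_right h3 (pow_pos hpi0 6).le
      _ = (p : ℚ)⁻¹ * ((p : ℚ)⁻¹) ^ 5 := by ring
      _ < (p : ℚ)⁻¹ * 1 := by
        apply mul_lt_mul_of_pos_left _ hpi0
        exact pow_lt_one₀ hpi0.le hpi (by norm_num)
      _ = _ := mul_one _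
  rw [← e] at hG
  have hne : n • q0 h ≠ 0 := q0_inf h n hn
  obtain ⟨a1, a2, a3⟩ := exact_all hpi0 hk1 hk3 s hs _ hG hne
  have x1 := xc_tt hpi0 hk1 _ hG hne
  have x2 := xc_tt hpi0 hk1 _ a1 a2
  have es : s • n • q0 h = (s * n) • q0 h := by rw [smul_smul]
  rw [a3, es, e'] at x2
  rw [e] at x1
  change padicNorm p x * padicNorm p (tt _) ^ 2 = 1 at x1
  change padicNorm p x' * (padicNorm p s * padicNorm p (tt _)) ^ 2 = 1 at x2
  set τ := padicNorm p (tt (n • q0 h)) with hτ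
  rw [← e, ← hτ] at x1
  have hs0 : 0 < padicNorm p (s : ℚ) := lt_of_le_of_ne (padicNorm.nonneg _)
    (Ne.symm (padicNorm.nonzero (by exact_mod_cast hs)))
  have hs1 : padicNorm p (s : ℚ) ≤ 1 := padicNorm.of_nat s
  have hτ0 : τ ≠ 0 := by
    intro h0; rw [h0] at x1; norm_num at x1
  have hxx : padicNorm p x' * padicNorm p (s : ℚ) ^ 2 = padicNorm p x := by
    have : (padicNorm p x' * padicNorm p (s : ℚ) ^ 2) * τ ^ 2 = padicNorm p x * τ ^ 2 := by
      rw [x1, ← x2]; ring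
    exact mul_right_cancel₀ (pow_ne_zero 2 hτ0) this
  have hx1' : 1 < padicNorm p x' := by
    have : padicNorm p (s : ℚ) ^ 2 ≤ 1 := pow_le_one₀ hs0.le hs1
    have h5 := padicNorm.nonneg (p := p) x'
    nlinarith
  rw [hdx, hdx', den_norm hx1, den_norm hx1', ← hxx]
  field_simp

lemma dn_dvd (h : Base c4 c6 D) {p : ℕ} (hp : p.Prime) {n s : ℕ} (hn : n ≠ 0) (hs : s ≠ 0)
    (hd : p ∣ dn h n) : p ∣ dn h (s * n) := by
  have f : Fact p.Prime := ⟨hp⟩
  have h1 := dn_mul h hn hs hd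
  have h2 : padicNorm p (dn h n : ℚ) < 1 := (padicNorm.nat_lt_one_iff _).mpr hd
  rw [← padicNorm.nat_lt_one_iff, h1]
  have hs1 : padicNorm p (s : ℚ) ≤ 1 := padicNorm.of_nat s
  have hs0 : 0 ≤ padicNorm p (s : ℚ) := padicNorm.nonneg _
  have : padicNorm p (s : ℚ) ^ 2 ≤ 1 := pow_le_one₀ hs0 hs1
  have h5 := padicNorm.nonneg (p := p) (dn h n : ℚ)
  nlinarith

/-- the valuation -/
lemma dn_val (h : Base c4 c6 D) {p : ℕ} (hp : p.Prime) {n s : ℕ} (hn : n ≠ 0) (hs : s ≠ 0)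
    (hd : p ∣ dn h n) :
    padicValNat p (dn h (s * n)) = 2 * padicValNat p s + padicValNat p (dn h n) := by
  have f : Fact p.Prime := ⟨hp⟩
  have h1 := dn_mul h hn hs hd
  have hp1 : (1 : ℚ) < p := by exact_mod_cast hp.one_lt
  have key : ∀ m : ℕ, m ≠ 0 → padicNorm p (m : ℚ) = (p : ℚ) ^ (-(padicValNat p m : ℤ)) := by
    intro m hm
    rw [padicNorm.eq_zpow_of_nonzero (by exact_mod_cast hm)]
    simp
  rw [key _ (dn_pos h _).ne', key _ (dn_pos h _).ne', key s hs, ← zpow_natCast, ← zpow_mul,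
    ← zpow_add₀ (by positivity)] at h1
  have h2 : -(padicValNat p (dn h (s * n)) : ℤ) =
      -(padicValNat p s : ℤ) * ((2 : ℕ) : ℤ) + -(padicValNat p (dn h n) : ℤ) :=
    zpow_right_injective₀ (by positivity) hp1.ne' h1
  have h3 : ((2 : ℕ) : ℤ) = 2 := rfl
  rw [h3] at h2
  omega

/-- the multiples in a progression do not all have the same denominator -/
lemma dn_change (h : Base c4 c6 D) (n m d : ℕ) (hm : m ≠ 0) (hn : n ≠ 0)
    (hall : ∀ j : ℕ, dn h (n + j * m) = d) : False := by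
  have n2 : NeZero (2 : ℚ) := ⟨by norm_num⟩
  obtain ⟨xT, yT, nT, eT, -⟩ := mul_some h m hm
  set k := kk c4 c6 with hk
  -- the bound
  set C1 : ℚ := 3 * xT ^ 2 + 4 * yT ^ 2 + 2 * yT ^ 2 + 3 * |xT| ^ 3 + |k| with hC1
  set B : ℚ := 2 * (C1 + 2 * |xT|) + |xT| + 2 with hB
  have hC10 : 0 ≤ C1 := by positivity
  -- finitely many small ones
  have hdpos : 0 < d := by rw [← hall 0]; exact dn_pos h _
  have hfinx : {x : ℚ | |x| ≤ B ∧ x.den = d}.Finite := by
    apply Set.Finite.subset ((Set.finite_Icc (-(⌈B * d⌉)) ⌈B * d⌉).image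
      (fun z : ℤ => (z : ℚ) / (d : ℚ)))
    rintro x ⟨hx1, hx2⟩
    refine ⟨x.num, ?_, ?_⟩
    · have hx3 : x * d = x.num := by rw [← hx2]; exact Rat.mul_den_eq_num x
      have hd0 : (0 : ℚ) ≤ d := by positivity
      have h1 : |((x.num : ℤ) : ℚ)| ≤ B * d := by
        rw [← hx3, abs_mul, abs_of_nonneg hd0]
        exact mul_le_mul_of_nonneg_right hx1 hd0
      have h2 : |((x.num : ℤ) : ℚ)| ≤ ((⌈B * d⌉ : ℤ) : ℚ) := h1.trans (Int.le_ceil _)
      have h3 : |x.num| ≤ ⌈B * d⌉ := by exact_mod_cast h2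
      exact abs_le.mp h3
    · simp only
      rw [← hx2]; exact Rat.num_div_den x
  have hfin : {j : ℕ | |xc ((n + j * m) • q0 h)| ≤ B}.Finite := by
    have hP : {P : SPt (0 : ℚ) k | P ≠ 0 ∧ |xc P| ≤ B ∧ (xc P).den = d}.Finite := by
      apply Set.Finite.of_finite_fibers (fun P : SPt (0 : ℚ) k => xc P)
      · apply hfinx.subset
        rintro _ ⟨P, ⟨-, h1, h2⟩, rfl⟩
        exact ⟨h1, h2⟩
      · intro v _
        by_cases hv : ∃ P : SPt (0 : ℚ) k, P ≠ 0 ∧ xc P = v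
        · obtain ⟨P, hP0, rfl⟩ := hv
          apply Set.Finite.subset (s := {P, -P}) (by simp)
          rintro Q ⟨⟨hQ0, -⟩, hQ⟩
          match P, Q, hP0, hQ0, hQ with
          | 0, _, hP0, _, _ => exact absurd rfl hP0
          | _, 0, _, hQ0, _ => exact absurd rfl hQ0
          | .some x y a, .some x' y' a', _, _, hQ =>
            have hQ' : x' = x := hQ
            subst hQ'
            rcases (Affine.Point.X_eq_iff (h₁ := a') (h₂ := a)).mp rfl with h1 | h1
            · left; exact h1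
            · right; exact h1
        · apply Set.Finite.subset (Set.finite_empty)
          rintro Q ⟨⟨hQ0, -⟩, hQ⟩
          exact absurd ⟨Q, hQ0, hQ⟩ hv
    have hinj : Function.Injective (fun j : ℕ => (n + j * m) • q0 h) := by
      have haux : ∀ a b : ℕ, a < b → (n + a * m) • q0 h ≠ (n + b * m) • q0 h := by
        intro a b hab heq
        obtain ⟨c, rfl⟩ := Nat.exists_eq_add_of_lt hab
        have e1 : n + (a + c + 1) * m = (n + a * m) + (c + 1) * m := by ring
        rw [e1, add_smul (n + a * m)] at heq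
        have h0 : ((c + 1) * m) • q0 h = 0 := left_eq_add.mp heq
        exact q0_inf h _ (mul_ne_zero (by omega) hm) h0
      intro a b hab
      by_contra hne
      rcases lt_or_gt_of_ne hne with h1 | h1
      · exact haux a b h1 hab
      · exact haux b a h1 hab.symm
    apply Set.Finite.of_finite_image (f := fun j : ℕ => (n + j * m) • q0 h) _ hinj.injOn
    apply hP.subset
    rintro _ ⟨j, hj, rfl⟩
    exact ⟨q0_inf h _ (by omega), hj, hall j⟩
  obtain ⟨J, hJ⟩ : ∃ J, ∀ j, J ≤ j → B < |xc ((n + j * m) • q0 h)| := by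
    obtain ⟨J, hJ⟩ := hfin.bddAbove
    refine ⟨J + 1, fun j hj => ?_⟩
    by_contra hcon
    push Not at hcon
    have := hJ hcon
    omega
  obtain ⟨x, y, a, e, -⟩ := mul_some h (n + J * m) (by omega)
  have hx1 : B < |x| := by
    have := hJ J le_rfl
    rw [e] at this
    exact this
  have e2 : (n + (J + 1) * m) • q0 h = Affine.Point.some x y a + Affine.Point.some xT yT nT := by
    rw [← e, ← eT, ← add_smul]; congr 1; ring
  have hxx : x ≠ xT := by
    rintro rfl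
    have : B ≤ |x| := hx1.le
    have h0 := abs_nonneg x
    rw [hB] at hx1
    linarith
  obtain ⟨l, hn', hch, hs⟩ := (sw_short k).add_some a nT (fun hh => hxx hh.1)
  have hx3 : B < |l ^ 2 - x - xT| := by
    have := hJ (J + 1) (by omega)
    rw [e2, hs] at this
    exact this
  have q : y ^ 2 = x ^ 3 + k := by
    have := (sw_short k).eqn.mp a.1
    rw [this]
    change x ^ 3 + 0 * x + k = _
    ring
  have qT : yT ^ 2 = xT ^ 3 + k := by
    have := (sw_short k).eqn.mp nT.1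
    rw [this]
    change xT ^ 3 + 0 * xT + k = _
    ring
  have hch2 := hch.h2
  have hform : (l ^ 2 - x - xT - xT) * (x - xT) ^ 2 =
      3 * xT ^ 2 * x - 2 * yT * y + 2 * yT ^ 2 - 3 * xT ^ 3 := by
    have : (l * (x - xT)) ^ 2 = (y - yT) ^ 2 := by rw [← hch2]
    linear_combination this + q - qT
  have hA : 1 ≤ |x| := by
    have := abs_nonneg xT
    rw [hB] at hx1
    linarith
  set A := |x| with hAd
  have hA0 : 0 < A := by linarith
  have hbd : |3 * xT ^ 2 * x - 2 * yT * y + 2 * yT ^ 2 - 3 * xT ^ 3| ≤ A ^ 2 / 4 + A * C1 := by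
    have hy2 : |y| ^ 2 ≤ A ^ 3 + |k| := by
      rw [sq_abs, q]
      have h1 : x ^ 3 ≤ A ^ 3 := by
        calc x ^ 3 ≤ |x ^ 3| := le_abs_self _
          _ = A ^ 3 := abs_pow x 3
      have h2 := le_abs_self k
      linarith
    have a1 : 2 * |yT| * |y| ≤ 4 * A * yT ^ 2 + A ^ 2 / 4 + |k| := by
      have h1 := sq_nonneg (4 * A * |yT| - |y|)
      have h2 : |yT| ^ 2 = yT ^ 2 := sq_abs yT
      have h3 : 0 ≤ |k| := abs_nonneg k
      have h4 : |k| ≤ 4 * A * |k| := by nlinarith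
      have h5 : (4 * A) * (2 * |yT| * |y|) ≤ (4 * A) * (4 * A * yT ^ 2 + A ^ 2 / 4 + |k|) := by
        rw [← h2]
        nlinarith
      exact le_of_mul_le_mul_left h5 (by linarith)
    have t1 : |3 * xT ^ 2 * x - 2 * yT * y + 2 * yT ^ 2 - 3 * xT ^ 3| ≤
        3 * xT ^ 2 * A + 2 * |yT| * |y| + 2 * yT ^ 2 + 3 * |xT| ^ 3 := by
      have b1 : |3 * xT ^ 2 * x| = 3 * xT ^ 2 * A := by
        rw [abs_mul, abs_of_nonneg (by positivity : (0 : ℚ) ≤ 3 * xT ^ 2)]
      have b2 : |2 * yT * y| = 2 * |yT| * |y| := by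
        rw [abs_mul, abs_mul, abs_of_pos (by norm_num : (0 : ℚ) < 2)]
      have b3 : |2 * yT ^ 2| = 2 * yT ^ 2 := abs_of_nonneg (by positivity)
      have b4 : |3 * xT ^ 3| = 3 * |xT| ^ 3 := by
        rw [abs_mul, abs_pow, abs_of_pos (by norm_num : (0 : ℚ) < 3)]
      calc _ ≤ |3 * xT ^ 2 * x - 2 * yT * y + 2 * yT ^ 2| + |3 * xT ^ 3| := abs_sub _ _
        _ ≤ (|3 * xT ^ 2 * x - 2 * yT * y| + |2 * yT ^ 2|) + |3 * xT ^ 3| := by
          gcongr; exact abs_add_le _ _
        _ ≤ ((|3 * xT ^ 2 * x| + |2 * yT * y|) + |2 * yT ^ 2|) + |3 * xT ^ 3| := by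
          gcongr; exact abs_sub _ _
        _ = _ := by rw [b1, b2, b3, b4]
    have c1 : 0 ≤ |xT| ^ 3 := by positivity
    have c2 : 0 ≤ |k| := abs_nonneg k
    have c3 : 0 ≤ yT ^ 2 := sq_nonneg _
    have c4 : (2 * yT ^ 2 + 3 * |xT| ^ 3 + |k|) ≤ A * (2 * yT ^ 2 + 3 * |xT| ^ 3 + |k|) := by
      have : 0 ≤ 2 * yT ^ 2 + 3 * |xT| ^ 3 + |k| := by positivity
      nlinarith
    rw [hC1]
    linarith
  have hlow : A ^ 2 / 4 + A * C1 ≤ (x - xT) ^ 2 := by
    have d1 : A - |xT| ≤ |x - xT| := by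
      have := abs_sub_abs_le_abs_sub x xT
      exact this
    have d0 : 0 ≤ |xT| := abs_nonneg _
    have d2 : 0 ≤ A - |xT| := by rw [hB] at hx1; linarith
    have d3 : (A - |xT|) ^ 2 ≤ (x - xT) ^ 2 := by
      rw [← sq_abs (x - xT)]
      exact pow_le_pow_left₀ d2 d1 2
    have d4 : C1 + 2 * |xT| ≤ 3 / 4 * A := by rw [hB] at hx1; linarith
    have d5 : A * (C1 + 2 * |xT|) ≤ A * (3 / 4 * A) := mul_le_mul_of_nonneg_left d4 hA0.le
    nlinarith
  have hpos : 0 < (x - xT) ^ 2 := by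
    have : x - xT ≠ 0 := sub_ne_zero.mpr hxx
    positivity
  have h1 : |l ^ 2 - x - xT - xT| ≤ 1 := by
    have h2 : |l ^ 2 - x - xT - xT| * (x - xT) ^ 2 ≤ 1 * (x - xT) ^ 2 := by
      rw [← abs_of_pos hpos, ← abs_mul, hform, abs_of_pos hpos, one_mul]
      exact hbd.trans hlow
    exact le_of_mul_le_mul_right h2 hpos
  have h2 : |l ^ 2 - x - xT| ≤ 1 + |xT| := by
    have e3 : l ^ 2 - x - xT = (l ^ 2 - x - xT - xT) + xT := by ring
    rw [e3]
    exact (abs_add_le _ _).trans (by linarith)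
  have h0 := abs_nonneg xT
  rw [hB] at hx3
  linarith

/-- multiples with many primes in the denominator -/
lemma many_primes (h : Base c4 c6 D) (n0 m0 : ℕ) (hn0 : n0 ≠ 0) (hm0 : m0 ≠ 0) (c : ℕ) :
    ∃ s : ℕ, s ≠ 0 ∧ s ≡ 1 [MOD m0] ∧ c ≤ (dn h (s * n0)).primeFactors.card := by
  induction c with
  | zero => exact ⟨1, one_ne_zero, rfl, Nat.zero_le _⟩
  | succ c ih =>
    obtain ⟨s1, hs1, hs1m, hc⟩ := ih
    set N := s1 * n0 with hN
    have hN0 : N ≠ 0 := mul_ne_zero hs1 hn0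
    set m1 := m0 * ∏ p ∈ (dn h N).primeFactors, p with hm1
    have hm10 : m1 ≠ 0 := by
      apply mul_ne_zero hm0
      apply Finset.prod_ne_zero_iff.mpr
      intro p hp
      exact (Nat.prime_of_mem_primeFactors hp).ne_zero
    obtain ⟨j, hj⟩ : ∃ j : ℕ, dn h (N + j * (m1 * N)) ≠ dn h N := by
      by_contra hcon
      push Not at hcon
      exact dn_change h N (m1 * N) (dn h N) (mul_ne_zero hm10 hN0) hN0 hcon
    set s := 1 + j * m1 with hs
    have hsN : N + j * (m1 * N) = s * N := by rw [hs]; ring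
    rw [hsN] at hj
    have hs0 : s ≠ 0 := by omega
    have hval : ∀ p ∈ (dn h N).primeFactors,
        padicValNat p (dn h (s * N)) = padicValNat p (dn h N) := by
      intro p hp
      have hpp := Nat.prime_of_mem_primeFactors hp
      have f : Fact p.Prime := ⟨hpp⟩
      rw [dn_val h hpp hN0 hs0 (Nat.dvd_of_mem_primeFactors hp)]
      have hps : ¬ p ∣ s := by
        intro hd
        have : p ∣ j * m1 := by
          have h1 : p ∣ m1 := (Finset.dvd_prod_of_mem (fun p => p) hp).mul_left m0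
          exact h1.mul_left j
        have h1 : p ∣ 1 := (Nat.dvd_add_left this).mp hd
        exact hpp.one_lt.ne' (Nat.dvd_one.mp h1)
      rw [padicValNat.eq_zero_of_not_dvd hps]
      ring
    have hsub : (dn h N).primeFactors ⊆ (dn h (s * N)).primeFactors := by
      intro p hp
      rw [Nat.mem_primeFactors]
      exact ⟨Nat.prime_of_mem_primeFactors hp,
        dn_dvd h (Nat.prime_of_mem_primeFactors hp) hN0 hs0 (Nat.dvd_of_mem_primeFactors hp),
        (dn_pos h _).ne'⟩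
    have hne : (dn h N).primeFactors ≠ (dn h (s * N)).primeFactors := by
      intro heq
      apply hj
      apply Nat.eq_of_factorization_eq (dn_pos h _).ne' (dn_pos h _).ne'
      intro p
      by_cases hp : p ∈ (dn h N).primeFactors
      · have hpp := Nat.prime_of_mem_primeFactors hp
        rw [Nat.factorization_def _ hpp, Nat.factorization_def _ hpp]
        exact hval p hp
      · have hp' : p ∉ (dn h (s * N)).primeFactors := by rw [← heq]; exact hp
        rw [← Nat.support_factorization, Finsupp.notMem_support_iff] at hp hp'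
        rw [hp, hp']
    have hcard : (dn h N).primeFactors.card < (dn h (s * N)).primeFactors.card :=
      Finset.card_lt_card (lt_of_le_of_ne hsub hne)
    refine ⟨s * s1, mul_ne_zero hs0 hs1, ?_, ?_⟩
    · have h1 : s ≡ 1 [MOD m0] := by
        rw [hs]
        have : j * m1 ≡ 0 [MOD m0] := by
          rw [Nat.modEq_zero_iff_dvd, hm1]
          exact (Dvd.intro _ rfl : m0 ∣ m0 * _).mul_left j
        have h2 := this.add_left 1
        simpa using h2
      have := h1.mul hs1m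
      simpa using this
    · have : s * s1 * n0 = s * N := by rw [hN]; ring
      rw [this]
      omega

/-- multiples with a large prime in the denominator -/
lemma large_prime (h : Base c4 c6 D) (n0 m0 : ℕ) (hn0 : n0 ≠ 0) (hm0 : m0 ≠ 0) (X : ℕ) :
    ∃ s : ℕ, s ≠ 0 ∧ s ≡ 1 [MOD m0] ∧ ∃ ℓ : ℕ, ℓ.Prime ∧ X < ℓ ∧ ℓ ∣ dn h (s * n0) := by
  obtain ⟨s, hs0, hs1, hc⟩ := many_primes h n0 m0 hn0 hm0 (X + 2)
  refine ⟨s, hs0, hs1, ?_⟩
  by_contra hcon
  push Not at hcon
  have hsub : (dn h (s * n0)).primeFactors ⊆ Finset.range (X + 1) := by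
    intro p hp
    rw [Finset.mem_range]
    by_contra hlt
    push Not at hlt
    exact hcon p (Nat.prime_of_mem_primeFactors hp) (by omega) (Nat.dvd_of_mem_primeFactors hp)
  have := Finset.card_le_card hsub
  rw [Finset.card_range] at this
  omega

end Pool.Agent.Y680.M
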