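import Mathlib
import Pool.Agent.Y680.M.Param

/-!
# The integral model of the new curve
-/

set_option autoImplicit false
set_option linter.unusedSectionVars false

open WeierstrassCurve

namespace Pool.Agent.Y680.M

open Pool.Agent.TH942

/-- the integral model -/
def newW (W : WeierstrassCurve ℤ) (s e4 e6 : ℤ) : WeierstrassCurve ℤ :=
  ⟨s * W.a₁, s ^ 2 * W.a₂, s ^ 3 * W.a₃, s ^ 4 * W.a₄ - 12 * e4,
    s ^ 6 * W.a₆ - e6 - s ^ 2 * W.b₂ * e4⟩

lemma newW_c4 (W : WeierstrassCurve ℤ) (s e4 e6 : ℤ) :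
    (newW W s e4 e6).c₄ = s ^ 4 * W.c₄ + 576 * e4 := by
  simp only [WeierstrassCurve.c₄, WeierstrassCurve.b₂, WeierstrassCurve.b₄, newW]
  ring

lemma newW_c6 (W : WeierstrassCurve ℤ) (s e4 e6 : ℤ) :
    (newW W s e4 e6).c₆ = s ^ 6 * W.c₆ + 864 * e6 := by
  simp only [WeierstrassCurve.c₆, WeierstrassCurve.b₂, WeierstrassCurve.b₄,
    WeierstrassCurve.b₆, newW]
  ring

lemma h4_mod (c4 c6 s t : ℤ) : t ∣ h4 c4 c6 s t - s ^ 4 * c4 :=
  ⟨-4 * c6 * s ^ 3 + 6 * c4 ^ 2 * s ^ 2 * t - 4 * c4 * c6 * s * t ^ 2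
    + (4 * c6 ^ 2 - 3 * c4 ^ 3) * t ^ 3, by simp only [h4]; ring⟩

lemma h6_mod (c4 c6 s t : ℤ) : t ∣ h6 c4 c6 s t - s ^ 6 * c6 :=
  ⟨-6 * c4 ^ 2 * s ^ 5 + 15 * c4 * c6 * s ^ 4 * t - 20 * c6 ^ 2 * s ^ 3 * t ^ 2
    + 15 * c4 ^ 2 * c6 * s ^ 2 * t ^ 3 - 6 * (3 * c4 ^ 4 - 2 * c4 * c6 ^ 2) * s * t ^ 4
    + (9 * c4 ^ 3 * c6 - 8 * c6 ^ 3) * t ^ 5, by simp only [h6]; ring⟩

lemma exists_model (W : WeierstrassCurve ℤ) {s t : ℤ} (ht : 1728 ∣ t) :
    ∃ V : WeierstrassCurve ℤ, V.c₄ = h4 W.c₄ W.c₆ s t ∧ V.c₆ = h6 W.c₄ W.c₆ s t ∧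
      V.Δ = W.Δ * hF W.c₄ W.c₆ s t ^ 3 := by
  obtain ⟨e4, he4⟩ := (Dvd.dvd.trans (by norm_num : (576 : ℤ) ∣ 1728)
    (ht.trans (h4_mod W.c₄ W.c₆ s t)))
  obtain ⟨e6, he6⟩ := (Dvd.dvd.trans (by norm_num : (864 : ℤ) ∣ 1728)
    (ht.trans (h6_mod W.c₄ W.c₆ s t)))
  have a4 : (newW W s e4 e6).c₄ = h4 W.c₄ W.c₆ s t := by rw [newW_c4]; linarith
  have a6 : (newW W s e4 e6).c₆ = h6 W.c₄ W.c₆ s t := by rw [newW_c6]; linarith
  refine ⟨newW W s e4 e6, a4, a6, ?_⟩
  have r1 := (newW W s e4 e6).c_relation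
  rw [a4, a6, h_rel, ← W.c_relation] at r1
  have : (1728 : ℤ) * (newW W s e4 e6).Δ = 1728 * (W.Δ * hF W.c₄ W.c₆ s t ^ 3) := by
    rw [r1]; ring
  exact mul_left_cancel₀ (by norm_num) this

lemma model_coprime {c4 c6 D s t : ℤ} (hb : Base c4 c6 D) (hst : IsCoprime s t)
    (ht : ∀ z : ℤ, Prime z → z ∣ 1728 * D → z ∣ t) (hF0 : hF c4 c6 s t ≠ 0) :
    IsCoprime (h4 c4 c6 s t) (D * hF c4 c6 s t ^ 3) ∧ IsCoprime (1728 * D) (hF c4 c6 s t) := by
  have hrel := hb.rel
  have hst' : ∀ z : ℤ, Prime z → z ∣ t → ¬ z ∣ s := by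
    intro z hz h1 h2
    exact hz.not_isUnit (hst.isUnit_of_dvd' h2 h1)
  have hFs : ∀ z : ℤ, Prime z → z ∣ t → ¬ z ∣ hF c4 c6 s t := by
    intro z hz h1 h2
    apply hst' z hz h1
    have : z ∣ s ^ 4 := by
      have e : s ^ 4 = hF c4 c6 s t + t * (6 * c4 * s ^ 2 * t - 8 * c6 * s * t ^ 2 +
          3 * c4 ^ 2 * t ^ 3) := by simp only [hF]; ring
      rw [e]
      exact dvd_add h2 (h1.mul_right _)
    exact hz.dvd_of_dvd_pow this
  constructor
  · apply isCoprime_of_prime_dvd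
    · rintro ⟨-, h⟩
      exact (mul_ne_zero hb.D0 (pow_ne_zero 3 hF0)) h
    · intro z hz h1 h2
      by_cases hzD : z ∣ 1728 * D
      · have hzt := ht z hz hzD
        have hzs := hst' z hz hzt
        have hzc : z ∣ c4 := by
          have : z ∣ s ^ 4 * c4 := by
            have e : s ^ 4 * c4 = h4 c4 c6 s t - (h4 c4 c6 s t - s ^ 4 * c4) := by ring
            rw [e]
            exact dvd_sub h1 (hzt.trans (h4_mod c4 c6 s t))
          rcases hz.dvd_or_dvd this with h | h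
          · exact absurd (hz.dvd_of_dvd_pow h) hzs
          · exact h
        rcases hz.dvd_or_dvd h2 with h | h
        · exact hz.not_isUnit (hb.cop.isUnit_of_dvd' hzc h)
        · exact hFs z hz hzt (hz.dvd_of_dvd_pow h)
      · have hzF : z ∣ hF c4 c6 s t := by
          rcases hz.dvd_or_dvd h2 with h | h
          · exact absurd (h.mul_left 1728) hzD
          · exact hz.dvd_of_dvd_pow h
        have hz1728 : ¬ z ∣ 1728 := fun h => hzD (h.mul_right D)
        have hz2 : ¬ z ∣ 2 := fun h => hz1728 (h.trans (by norm_num))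
        have hz3 : ¬ z ∣ 3 := fun h => hz1728 (h.trans (by norm_num))
        have hzt : ¬ z ∣ t := fun h => hFs z hz h hzF
        have hzA : z ∣ s ^ 3 - 3 * c4 * s * t ^ 2 + 2 * c6 * t ^ 3 := by
          have e : 48 * (s ^ 3 - 3 * c4 * s * t ^ 2 + 2 * c6 * t ^ 3) ^ 2 =
              48 * t ^ 2 * h4 c4 c6 s t + hF c4 c6 s t * (48 * s ^ 2 - 48 * c4 * t ^ 2) := by
            simp only [h4, hF]; ring
          have h48 : z ∣ 48 * (s ^ 3 - 3 * c4 * s * t ^ 2 + 2 * c6 * t ^ 3) ^ 2 := by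
            rw [e]
            exact dvd_add (h1.mul_left _) (hzF.mul_right _)
          rcases hz.dvd_or_dvd h48 with h | h
          · exact absurd (h.trans (by norm_num)) hz1728
          · exact hz.dvd_of_dvd_pow h
        have hzh : z ∣ c4 * s ^ 2 - 2 * c6 * s * t + c4 ^ 2 * t ^ 2 := by
          have e : 3 * (t ^ 2 * (c4 * s ^ 2 - 2 * c6 * s * t + c4 ^ 2 * t ^ 2)) =
              s * (s ^ 3 - 3 * c4 * s * t ^ 2 + 2 * c6 * t ^ 3) - hF c4 c6 s t := by
            simp only [hF]; ring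
          have h : z ∣ 3 * (t ^ 2 * (c4 * s ^ 2 - 2 * c6 * s * t + c4 ^ 2 * t ^ 2)) := by
            rw [e]; exact dvd_sub (hzA.mul_left _) hzF
          rcases hz.dvd_or_dvd h with h | h
          · exact absurd h hz3
          · rcases hz.dvd_or_dvd h with h | h
            · exact absurd (hz.dvd_of_dvd_pow h) hzt
            · exact h
        have hzh2 : z ∣ c6 * s ^ 2 - 2 * c4 ^ 2 * s * t + c4 * c6 * t ^ 2 := by
          have e : 2 * (t * (c6 * s ^ 2 - 2 * c4 ^ 2 * s * t + c4 * c6 * t ^ 2)) =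
              c4 * (s ^ 3 - 3 * c4 * s * t ^ 2 + 2 * c6 * t ^ 3) -
              s * (c4 * s ^ 2 - 2 * c6 * s * t + c4 ^ 2 * t ^ 2) := by ring
          have h : z ∣ 2 * (t * (c6 * s ^ 2 - 2 * c4 ^ 2 * s * t + c4 * c6 * t ^ 2)) := by
            rw [e]; exact dvd_sub (hzA.mul_left _) (hzh.mul_left _)
          rcases hz.dvd_or_dvd h with h | h
          · exact absurd h hz2
          · rcases hz.dvd_or_dvd h with h | h
            · exact absurd h hzt
            · exact h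
        have hzs : z ∣ s := by
          have e : 2 * (t * ((1728 * D) * s)) =
              c6 * (c4 * s ^ 2 - 2 * c6 * s * t + c4 ^ 2 * t ^ 2) -
              c4 * (c6 * s ^ 2 - 2 * c4 ^ 2 * s * t + c4 * c6 * t ^ 2) := by
            rw [← hrel]; ring
          have h : z ∣ 2 * (t * ((1728 * D) * s)) := by
            rw [e]; exact dvd_sub (hzh.mul_left _) (hzh2.mul_left _)
          rcases hz.dvd_or_dvd h with h | h
          · exact absurd h hz2
          · rcases hz.dvd_or_dvd h with h | h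
            · exact absurd h hzt
            · exact (hz.dvd_or_dvd h).resolve_left hzD
        have hzc4 : z ∣ c4 := by
          have e : c4 ^ 2 * t ^ 2 = (c4 * s ^ 2 - 2 * c6 * s * t + c4 ^ 2 * t ^ 2) -
              s * (c4 * s - 2 * c6 * t) := by ring
          have h : z ∣ c4 ^ 2 * t ^ 2 := by
            rw [e]; exact dvd_sub hzh (hzs.mul_right _)
          rcases hz.dvd_or_dvd h with h | h
          · exact hz.dvd_of_dvd_pow h
          · exact absurd (hz.dvd_of_dvd_pow h) hzt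
        have hzc6 : z ∣ c6 := by
          have e : 2 * (c6 * t ^ 3) = (s ^ 3 - 3 * c4 * s * t ^ 2 + 2 * c6 * t ^ 3) -
              s * (s ^ 2 - 3 * c4 * t ^ 2) := by ring
          have h : z ∣ 2 * (c6 * t ^ 3) := by
            rw [e]; exact dvd_sub hzA (hzs.mul_right _)
          rcases hz.dvd_or_dvd h with h | h
          · exact absurd h hz2
          · rcases hz.dvd_or_dvd h with h | h
            · exact h
            · exact absurd (hz.dvd_of_dvd_pow h) hzt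
        apply hzD
        rw [← hrel]
        exact dvd_sub (dvd_pow hzc4 (by norm_num)) (dvd_pow hzc6 (by norm_num))
  · apply isCoprime_of_prime_dvd
    · rintro ⟨-, h⟩
      exact hF0 h
    · intro z hz h1 h2
      exact hFs z hz (ht z hz h1) h2

end Pool.Agent.Y680.M
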