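import Mathlib
import Pool.Agent.Y680.M.Model
import Pool.Agent.Y680.M.ToShort

/-!
# Multiples of the point which are close to it at the bad primes
-/

set_option autoImplicit false
set_option linter.unusedSectionVars false

open WeierstrassCurve

namespace Pool.Agent.Y680.M

open Pool.Agent.TH942

variable {c4 c6 D : ℤ} {p : ℕ} [hp : Fact p.Prime]

lemma Base.k_le (h : Base c4 c6 D) (hp' : (p : ℤ) ∣ 1728 * D) :
    padicNorm p (kk c4 c6) ≤ (p : ℚ)⁻¹ := by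
  rw [h.kk_eq]
  have : (-1728 * (D : ℚ)) = ((-(1728 * D) : ℤ) : ℚ) := by push_cast; ring
  rw [this]
  have h1 : ((p ^ 1 : ℕ) : ℤ) ∣ -(1728 * D) := by
    rw [pow_one]; exact (dvd_neg).mpr hp'
  have := padicNorm.dvd_iff_norm_le.mp h1
  simpa using this

lemma near_step {k ρ : ℚ} (hρ : 0 < ρ) (hρ1 : ρ ≤ 1) (hk : padicNorm p k ≤ (p : ℚ)⁻¹)
    (P : SPt (0 : ℚ) k) (hP : InG p ρ P) : InG p (ρ * (p : ℚ)⁻¹) (p • P) := by
  have hp1 : (1 : ℚ) < p := by exact_mod_cast hp.out.one_lt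
  have hpi : (p : ℚ)⁻¹ < 1 := inv_lt_one_of_one_lt₀ hp1
  have hpi0 : 0 < (p : ℚ)⁻¹ := by positivity
  have hρ6 : ρ ^ 6 ≤ 1 := pow_le_one₀ hρ.le hρ1
  have hk6 : padicNorm p k * ρ ^ 6 ≤ (p : ℚ)⁻¹ := by
    calc padicNorm p k * ρ ^ 6 ≤ (p : ℚ)⁻¹ * 1 := mul_le_mul hk hρ6 (pow_pos hρ 6).le hpi0.le
      _ = _ := mul_one _
  have hk1 : padicNorm p k * ρ ^ 6 < 1 := lt_of_le_of_lt hk6 hpi
  obtain ⟨a, b⟩ := inG_nsmul hρ hk1 P hP p
  apply inG_of_t hρ hk1 _ a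
  have e : tt (p • P) = (tt (p • P) - p * tt P) + p * tt P := by ring
  rw [e]
  apply v_add_le
  · refine b.trans ?_
    have h3 : padicNorm p (3 * k) ≤ padicNorm p k := by
      rw [padicNorm.mul]
      have : padicNorm p 3 ≤ 1 := padicNorm.of_int 3
      calc padicNorm p 3 * padicNorm p k ≤ 1 * padicNorm p k :=
            mul_le_mul_of_nonneg_right this (padicNorm.nonneg _)
        _ = _ := one_mul _
    calc padicNorm p (3 * k) * ρ ^ 7 ≤ padicNorm p k * ρ ^ 7 :=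
          mul_le_mul_of_nonneg_right h3 (pow_pos hρ 7).le
      _ = (padicNorm p k * ρ ^ 6) * ρ := by ring
      _ ≤ (p : ℚ)⁻¹ * ρ := mul_le_mul_of_nonneg_right hk6 hρ.le
      _ = _ := mul_comm _ _
  · rw [padicNorm.mul, padicNorm.padicNorm_p_of_prime, mul_comm]
    exact mul_le_mul_of_nonneg_right (inG_le P hρ hP) hpi0.le

lemma near_pow (h : Base c4 c6 D) (hp' : (p : ℤ) ∣ 1728 * D) (K : ℕ) :
    InG p (((p : ℚ)⁻¹) ^ K) ((p ^ K * 6) • q0 h) := by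
  have hp1 : (1 : ℚ) < p := by exact_mod_cast hp.out.one_lt
  have hpi : (p : ℚ)⁻¹ < 1 := inv_lt_one_of_one_lt₀ hp1
  have hpi0 : 0 < (p : ℚ)⁻¹ := by positivity
  induction K with
  | zero =>
    rw [pow_zero, pow_zero, one_mul]
    exact loc_all h hp'
  | succ K ih =>
    have := near_step (pow_pos hpi0 K) (pow_le_one₀ hpi0.le hpi.le) (h.k_le hp') _ ih
    rw [pow_succ]
    have e : (p ^ (K + 1) * 6) • q0 h = p • ((p ^ K * 6) • q0 h) := by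
      rw [smul_smul]; congr 1; ring
    rw [e]
    exact this

lemma near_mul (h : Base c4 c6 D) (hp' : (p : ℤ) ∣ 1728 * D) (K m : ℕ)
    (hm : p ^ K * 6 ∣ m) : InG p (((p : ℚ)⁻¹) ^ K) (m • q0 h) := by
  have hp1 : (1 : ℚ) < p := by exact_mod_cast hp.out.one_lt
  have hpi : (p : ℚ)⁻¹ < 1 := inv_lt_one_of_one_lt₀ hp1
  have hpi0 : 0 < (p : ℚ)⁻¹ := by positivity
  obtain ⟨c, rfl⟩ := hm
  have e : (p ^ K * 6 * c) • q0 h = c • ((p ^ K * 6) • q0 h) := by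
    rw [smul_smul, mul_comm]
  rw [e]
  apply (inG_nsmul (pow_pos hpi0 K) _ _ (near_pow h hp' K) c).1
  have h1 : ((p : ℚ)⁻¹ ^ K) ^ 6 ≤ 1 := pow_le_one₀ (pow_pos hpi0 K).le
    (pow_le_one₀ hpi0.le hpi.le)
  calc padicNorm p (kk c4 c6) * ((p : ℚ)⁻¹ ^ K) ^ 6 ≤ padicNorm p (kk c4 c6) * 1 :=
        mul_le_mul_of_nonneg_left h1 (padicNorm.nonneg _)
    _ < 1 := by rw [mul_one]; exact h.k_lt hp'

/-- the slope has a large denominator -/
lemma slope_den {k ρ x0 y0 x y : ℚ} (hρ : 0 < ρ) (hρ1 : ρ < 1) (hk : padicNorm p k < 1)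
    (hx0 : padicNorm p x0 ≤ 1) (hy0 : padicNorm p y0 ≤ 1)
    (n : (sw (0 : ℚ) k).toAffine.Nonsingular x y)
    (hP : InG p ρ (Affine.Point.some x y n : SPt (0 : ℚ) k)) :
    ρ⁻¹ ≤ padicNorm p ((y - y0) / (x - x0)) := by
  have hρ6 : ρ ^ 6 ≤ 1 := pow_le_one₀ hρ.le hρ1.le
  have hk1 : padicNorm p k * ρ ^ 6 < 1 := by
    calc padicNorm p k * ρ ^ 6 ≤ padicNorm p k * 1 :=
        mul_le_mul_of_nonneg_left hρ6 (padicNorm.nonneg _)
      _ < 1 := by rw [mul_one]; exact hk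
  have hw := w_norm hρ hk1 n hP
  have ht0 := tt_ne hρ hk1 _ hP (Affine.Point.some_ne_zero _)
  have hxc := xc_tt hρ hk1 _ hP (Affine.Point.some_ne_zero _)
  change x / y ≠ 0 at ht0
  change padicNorm p x * padicNorm p (x / y) ^ 2 = 1 at hxc
  obtain ⟨hy, ht, -⟩ := hP
  set τ := padicNorm p (x / y) with hτ
  have hτ0 : 0 < τ := lt_of_le_of_ne (padicNorm.nonneg _) (Ne.symm (padicNorm.nonzero ht0))
  have hτ1 : τ < 1 := lt_of_le_of_lt ht hρ1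
  have vx : padicNorm p x = (τ ^ 2)⁻¹ := eq_inv_of_mul_eq_one_left hxc
  have vy : padicNorm p y = (τ ^ 3)⁻¹ := by
    rw [padicNorm.div, padicNorm.one] at hw
    rw [← hw]
    simp
  have hx1 : 1 < padicNorm p x := by
    rw [vx]
    exact (one_lt_inv₀ (pow_pos hτ0 2)).mpr (pow_lt_one₀ hτ0.le hτ1 (by norm_num))
  have hy1 : 1 < padicNorm p y := by
    rw [vy]
    exact (one_lt_inv₀ (pow_pos hτ0 3)).mpr (pow_lt_one₀ hτ0.le hτ1 (by norm_num))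
  rw [padicNorm.div, v_lt_sub (lt_of_le_of_lt hy0 hy1), v_lt_sub (lt_of_le_of_lt hx0 hx1), vx, vy]
  have : (τ ^ 3)⁻¹ / (τ ^ 2)⁻¹ = τ⁻¹ := by field_simp
  rw [this]
  exact inv_anti₀ hτ0 ht

lemma den_dvd {q : ℚ} {K : ℕ} (h : ((p : ℚ) ^ K) ≤ padicNorm p q) : p ^ K ∣ q.den := by
  have hp0 : (0 : ℚ) < p := by exact_mod_cast hp.out.pos
  have hq : q * (q.den : ℚ) = q.num := Rat.mul_den_eq_num q
  have h1 := congrArg (padicNorm p) hq
  rw [padicNorm.mul] at h1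
  have h2 : padicNorm p (q.num : ℚ) ≤ 1 := padicNorm.of_int _
  have h3 : padicNorm p (q.den : ℚ) ≤ ((p : ℚ) ^ K)⁻¹ := by
    have h4 : (p : ℚ) ^ K * padicNorm p (q.den : ℚ) ≤ 1 := by
      calc (p : ℚ) ^ K * padicNorm p (q.den : ℚ) ≤ padicNorm p q * padicNorm p (q.den : ℚ) :=
            mul_le_mul_of_nonneg_right h (padicNorm.nonneg _)
        _ = _ := h1
        _ ≤ 1 := h2
    rw [← one_div, le_div_iff₀ (pow_pos hp0 K), mul_comm]
    exact h4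
  have h5 : ((p ^ K : ℕ) : ℤ) ∣ (q.den : ℤ) := by
    rw [padicNorm.dvd_iff_norm_le]
    rw [zpow_neg, zpow_natCast]
    exact_mod_cast h3
  exact_mod_cast h5

end Pool.Agent.Y680.M
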