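import Mathlib
import Pool.Agent.Y680.M.Two
import Pool.Agent.Y680.M.ToShort

/-!
# Congruences between Weierstrass curves over `ℤ`
-/

set_option autoImplicit false
set_option linter.unusedSectionVars false

open WeierstrassCurve

namespace Pool.Agent.Y680.M

variable {K : Type} [Field K] [Algebra ℚ K] [DecidableEq K] [CharZero K]

lemma bc_c4 (V : WeierstrassCurve ℤ) : (V.toAffine.baseChange K).c₄ = (V.c₄ : K) := by
  change (V.map (algebraMap ℤ K)).c₄ = _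
  rw [WeierstrassCurve.map_c₄]
  simp

lemma bc_c6 (V : WeierstrassCurve ℤ) : (V.toAffine.baseChange K).c₆ = (V.c₆ : K) := by
  change (V.map (algebraMap ℤ K)).c₆ = _
  rw [WeierstrassCurve.map_c₆]
  simp

lemma bc_b2 (V : WeierstrassCurve ℤ) : (V.toAffine.baseChange K).b₂ = (V.b₂ : K) := by
  change (V.map (algebraMap ℤ K)).b₂ = _
  rw [WeierstrassCurve.map_b₂]
  simp

lemma bc_D (V : WeierstrassCurve ℤ) (hV : V.Δ ≠ 0) : (V.toAffine.baseChange K).Δ ≠ 0 := by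
  change (V.map (algebraMap ℤ K)).Δ ≠ 0
  rw [WeierstrassCurve.map_Δ]
  simpa using hV

lemma bc_short (a b : ℤ) : ((shortOf a b).toAffine.baseChange K) = shortOf (a : K) (b : K) := by
  change (shortOf a b).map (algebraMap ℤ K) = _
  simp only [shortOf, WeierstrassCurve.map]
  simp

lemma toShortS {F : Type*} [Field F] [DecidableEq F] [CharZero F] (W : WeierstrassCurve F)
    (hD : W.Δ ≠ 0) (S : WeierstrassCurve F) (hS : S = shortOf W.c₄ W.c₆) :
    ∃ e : W.toAffine.Point ≃+ S.toAffine.Point,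
      ∀ x y (h : W.toAffine.Nonsingular x y), ∃ h',
        e (.some x y h) = .some (sx W x) (sy W x y) h' := by
  subst hS
  exact ⟨toShort W hD, fun x y h => ⟨_, toShort_some W hD h⟩⟩

/-- a curve and its short form -/
lemma short_TI (m : ℕ) (V : WeierstrassCurve ℤ) (hV : V.Δ ≠ 0) :
    ∃ f g, TI m (act K V) (act K (shortOf V.c₄ V.c₆)) f g := by
  obtain ⟨e, he⟩ := toShortS (V.toAffine.baseChange K) (bc_D V hV)
    ((shortOf V.c₄ V.c₆).toAffine.baseChange K) (by rw [bc_short, bc_c4, bc_c6])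
  refine ⟨e, e.symm, TI.ofEquiv m e ?_⟩
  intro σ P
  match P with
  | 0 => rw [act_zero, map_zero, map_zero]
  | .some x y n =>
    obtain ⟨n', hn'⟩ := act_some V σ n
    obtain ⟨q1, h1⟩ := he x y n
    obtain ⟨q2, h2⟩ := he (σ x) (σ y) n'
    rw [hn', h1, h2]
    obtain ⟨q3, h3⟩ := act_some (shortOf V.c₄ V.c₆) σ q1
    rw [h3]
    simp only [Affine.Point.some.injEq]
    have s36 : σ (36 : K) = 36 := map_ofNat σ 36
    have s3 : σ (3 : K) = 3 := map_ofNat σ 3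
    have s2 : σ (2 : K) = 2 := map_ofNat σ 2
    have s108 : σ (108 : K) = 108 := map_ofNat σ 108
    constructor
    · simp only [sx, bc_b2, map_add, map_mul, s36, s3, map_intCast]
    · simp only [sy, bc_a1, bc_a3, map_add, map_mul, s108, s2, map_intCast]

/-- **congruence modulo 6 in the Hesse pencil** -/
theorem six_TI {W V : WeierstrassCurve ℤ} (hW : W.Δ ≠ 0) (hV : V.Δ ≠ 0) {s t : ℤ}
    (h4V : V.c₄ = h4 W.c₄ W.c₆ s t) (h6V : V.c₆ = h6 W.c₄ W.c₆ s t) (hF0 : hF W.c₄ W.c₆ s t ≠ 0)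
    {p q : ℚ} (hc4 : V.c₄ ≠ 0) (h4 : (V.c₄ : ℚ) = t4 (W.c₄ : ℚ) W.c₆ p q)
    (h6 : (V.c₆ : ℚ) = t6 (W.c₄ : ℚ) W.c₆ p q) (hG : tG (W.c₄ : ℚ) W.c₆ p q ≠ 0) :
    ∃ f g, TI 6 (act K W) (act K V) f g := by
  have h : W.c₄ ^ 3 ≠ W.c₆ ^ 2 := by
    intro h
    apply hW
    have := W.c_relation
    rw [h, sub_self] at this
    omega
  obtain ⟨f2, g2, T2⟩ := two_TI (K := K) h hc4 h4 h6 hG
  have E3 := hesse_TI (K := K) h hF0
  rw [← h4V, ← h6V] at E3
  obtain ⟨f3, g3, T3⟩ := E3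
  have T6 := TI.six T2 T3
  obtain ⟨f, g, A⟩ := short_TI (K := K) 6 W hW
  obtain ⟨f', g', B⟩ := short_TI (K := K) 6 V hV
  exact ⟨_, _, (A.trans T6).trans B.symm⟩

end Pool.Agent.Y680.M
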