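import Mathlib
import Pool.Agent.Y680.M.Near
import Pool.Agent.Y680.M.Cong

/-!
# The curve attached to a multiple of the point
-/

set_option autoImplicit false
set_option linter.unusedSectionVars false

open WeierstrassCurve

namespace Pool.Agent.Y680.M

open Pool.Agent.TH942

lemma hF_hom (c4 c6 l t : ℚ) (s : ℚ) (h : l * t = s) :
    hF c4 c6 l 1 * t ^ 4 = hF c4 c6 s t := by
  subst h; simp only [hF]; ring

lemma h4_hom (c4 c6 l t : ℚ) (s : ℚ) (h : l * t = s) :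
    h4 c4 c6 l 1 * t ^ 4 = h4 c4 c6 s t := by
  subst h; simp only [h4]; ring

lemma h6_hom (c4 c6 l t : ℚ) (s : ℚ) (h : l * t = s) :
    h6 c4 c6 l 1 * t ^ 6 = h6 c4 c6 s t := by
  subst h; simp only [h6]; ring

lemma t4_hom (c4 c6 p q w : ℚ) : t4 c4 c6 (w * p) (w * q) = w ^ 2 * t4 c4 c6 p q := by
  simp only [t4]; ring

lemma t6_hom (c4 c6 p q w : ℚ) : t6 c4 c6 (w * p) (w * q) = w ^ 3 * t6 c4 c6 p q := by
  simp only [t6]; ring

lemma tG_hom (c4 c6 p q w : ℚ) : tG c4 c6 (w * p) (w * q) = w ^ 3 * tG c4 c6 p q := by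
  simp only [tG]; ring

/-- a rational number whose square is an integer is an integer -/
lemma int_of_sq {w : ℚ} {N : ℤ} (h : w ^ 2 = N) : ∃ z : ℤ, w = z := by
  have h1 : (w ^ 2).den = 1 := by rw [h]; simp
  have h2 : w.den ^ 2 = 1 := by rw [← Rat.den_pow]; exact h1
  have h3 : w.den = 1 := by
    have := Nat.eq_one_of_mul_eq_one_right (m := w.den) (n := w.den) (by rw [← pow_two]; exact h2)
    exact this
  exact ⟨w.num, (Rat.coe_int_num_of_den_eq_one h3).symm⟩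

/-- the modulus -/
def modu (D : ℤ) : ℕ := 12 * (1728 * D).natAbs ^ 6

variable {K : Type} [Field K] [Algebra ℚ K] [DecidableEq K] [CharZero K]

variable (K) in
theorem curve_of (W : WeierstrassCurve ℤ) (hD : W.Δ ≠ 0) (hc : IsCoprime W.c₄ W.Δ)
    (n : ℕ) (hn : 1 < n) (hn1 : n ≡ 1 [MOD modu W.Δ]) :
    ∃ (V : WeierstrassCurve ℤ) (ω : ℕ) (x y : ℚ) (m : _),
      n • q0 (base_of W hD hc) = (Affine.Point.some x y m : SPt (0 : ℚ) (kk W.c₄ W.c₆)) ∧
      ω ≠ 0 ∧ V.Δ = W.Δ * (ω : ℤ) ^ 6 ∧ IsCoprime V.c₄ V.Δ ∧ V.Δ ≠ 0 ∧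
      IsCoprime (1728 * W.Δ) (ω : ℤ) ∧ x.den = ω ^ 2 ∧
      ∃ f g, TI 6 (act K W) (act K V) f g := by
  set h := base_of W hD hc with hh
  set c4 := W.c₄ with hc4
  set c6 := W.c₆ with hc6
  set D := W.Δ with hDd
  set H := (1728 * D).natAbs with hH
  have hDne : (1728 * D) ≠ 0 := mul_ne_zero (by norm_num) hD
  have hHpos : 0 < H := Int.natAbs_pos.mpr hDne
  -- write n
  obtain ⟨l, hl⟩ : ∃ l, n = 1 + modu D * l := by
    have h1 := (Nat.modEq_iff_dvd' hn.le).mp hn1.symm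
    obtain ⟨l, hl⟩ := h1
    exact ⟨l, by omega⟩
  have hl0 : 0 < l := by
    rcases Nat.eq_zero_or_pos l with h0 | h0
    · subst h0; omega
    · exact h0
  set m := 6 * H ^ 6 * l with hm
  have hmn : n = 1 + 2 * m := by rw [hl, modu, hm]; ring
  have hH6 : 0 < H ^ 6 := pow_pos hHpos 6
  have hm6 : 6 ≤ m := by
    rw [hm]
    calc 6 = 6 * 1 * 1 := by norm_num
      _ ≤ 6 * H ^ 6 * l := by gcongr <;> omega
  obtain ⟨x, y, nR, eR, hx0⟩ := mul_some h m (by omega)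
  have hxne : x ≠ (c4 : ℚ) := by
    intro hx
    have hor : y = (c6 : ℚ) ∨ y = -(c6 : ℚ) := by
      apply sq_eq_sq_iff_eq_or_eq_neg.mp
      rw [(sw_short _).eqn.mp nR.1, (sw_short _).eqn.mp (q0_ns h).1, hx]
    rcases hor with h' | h'
    · have h1 : m • q0 h = q0 h := by
        rw [eR]
        simp only [q0, Affine.Point.some.injEq]
        exact ⟨hx, h'⟩
      apply q0_inf h (m - 1) (by omega)
      have h2 : m • q0 h = (m - 1) • q0 h + q0 h := by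
        conv_lhs => rw [show m = (m - 1) + 1 by omega]
        rw [add_smul, one_smul]
      rw [h2] at h1
      exact add_eq_right.mp h1
    · have h1 : m • q0 h = - q0 h := by
        rw [eR, q0, (sw_short _).neg_some (q0_ns h) ((sw_short _).nonsing_neg (q0_ns h))]
        simp only [Affine.Point.some.injEq]
        exact ⟨hx, h'⟩
      apply q0_inf h (m + 1) (by omega)
      rw [add_smul, one_smul, h1, neg_add_cancel]
  have hnq : n • q0 h = q0 h + 2 • (m • q0 h) := by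
    rw [smul_smul, hmn, add_smul, one_smul]
  have hne : (Affine.Point.some (c4 : ℚ) (c6 : ℚ) (q0_ns h) : SPt (0 : ℚ) (kk c4 c6)) +
      2 • (Affine.Point.some x y nR : SPt (0 : ℚ) (kk c4 c6)) ≠ 0 := by
    have : n • q0 h ≠ 0 := q0_inf h n (by omega)
    rw [hnq, eR] at this
    exact this
  obtain ⟨w, X, Y, nQ, hw0, hw2, hX, hY, hQ⟩ := hesse_id (q0_ns h) nR hxne hne
  have hnQ : n • q0 h = Affine.Point.some X Y nQ := by
    rw [hnq, eR]; exact hQ
  set lam := (y - (c6 : ℚ)) / (x - (c4 : ℚ)) with hlam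
  set s := lam.num with hs
  set t : ℤ := (lam.den : ℤ) with ht
  have hst : lam * (t : ℚ) = s := by
    rw [ht, hs]; push_cast; exact Rat.mul_den_eq_num lam
  have hcop : IsCoprime s t := by
    rw [hs, ht]
    exact Int.isCoprime_iff_gcd_eq_one.mpr (by
      have := lam.reduced
      rwa [Int.gcd, Int.natAbs_natCast])
  have ht0 : (t : ℚ) ≠ 0 := by
    rw [ht]; push_cast
    exact_mod_cast lam.den_ne_zero
  -- powers of the bad primes dividing t
  have hp6 : ∀ p : ℕ, p.Prime → (p : ℤ) ∣ 1728 * D → p ^ 6 ∣ lam.den := by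
    intro p hp hpd
    have fp : Fact p.Prime := ⟨hp⟩
    have hp1 : (1 : ℚ) < p := by exact_mod_cast hp.one_lt
    have hpi : (p : ℚ)⁻¹ < 1 := inv_lt_one_of_one_lt₀ hp1
    have hpi0 : 0 < (p : ℚ)⁻¹ := by positivity
    have hpH : p ∣ H := by
      rw [hH]; exact Int.natCast_dvd.mp hpd
    have hdm : p ^ 6 * 6 ∣ m := by
      rw [hm]
      obtain ⟨c, hc⟩ := pow_dvd_pow_of_dvd hpH 6
      exact ⟨c * l, by rw [hc]; ring⟩
    have hnear := near_mul h hpd 6 m hdm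
    rw [eR] at hnear
    have hsl := slope_den (x0 := (c4 : ℚ)) (y0 := (c6 : ℚ)) (pow_pos hpi0 6)
      (pow_lt_one₀ hpi0.le hpi (by norm_num)) (h.k_lt hpd) (padicNorm.of_int _)
      (padicNorm.of_int _) nR hnear
    apply den_dvd
    rw [inv_pow, inv_inv] at hsl
    exact hsl
  have h1728 : (1728 : ℤ) ∣ t := by
    have h2 := hp6 2 Nat.prime_two ⟨864 * D, by push_cast; ring⟩
    have h3 := hp6 3 Nat.prime_three ⟨576 * D, by push_cast; ring⟩
    have h3' : 3 ^ 3 ∣ lam.den := (pow_dvd_pow 3 (by norm_num)).trans h3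
    have : 2 ^ 6 * 3 ^ 3 ∣ lam.den := Nat.Coprime.mul_dvd_of_dvd_of_dvd (by norm_num) h2 h3'
    rw [ht]
    exact_mod_cast this
  have htz : ∀ z : ℤ, Prime z → z ∣ 1728 * D → z ∣ t := by
    intro z hz hzd
    have hp : z.natAbs.Prime := Int.prime_iff_natAbs_prime.mp hz
    have h1 := hp6 z.natAbs hp (Int.natAbs_dvd.mpr hzd)
    have h2 : z.natAbs ∣ lam.den := (dvd_pow_self _ (by norm_num)).trans h1
    rw [ht]
    exact Int.natAbs_dvd.mp (by exact_mod_cast h2)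
  -- omega
  have hF1 : (w * t ^ 2) ^ 2 = ((hF c4 c6 s t : ℤ) : ℚ) := by
    have e1 : ((hF c4 c6 s t : ℤ) : ℚ) = hF (c4 : ℚ) c6 s t := by simp [hF]
    rw [e1, ← hF_hom (c4 : ℚ) c6 lam t s hst, ← hw2]
    ring
  obtain ⟨ω, hω⟩ := int_of_sq hF1
  have hωF : ω ^ 2 = hF c4 c6 s t := by
    have : ((ω ^ 2 : ℤ) : ℚ) = ((hF c4 c6 s t : ℤ) : ℚ) := by
      rw [← hF1, hω]; push_cast; ring
    exact_mod_cast this
  have hω0 : ω ≠ 0 := by
    rintro rfl
    have : w * (t : ℚ) ^ 2 = 0 := by rw [hω]; simp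
    rcases mul_eq_zero.mp this with h1 | h1
    · exact hw0 h1
    · exact ht0 (pow_eq_zero_iff (two_ne_zero) |>.mp h1)
  have hF0 : hF c4 c6 s t ≠ 0 := by rw [← hωF]; exact pow_ne_zero 2 hω0
  obtain ⟨V, hV4, hV6, hVD⟩ := exists_model W (s := s) h1728
  obtain ⟨cop1, cop2⟩ := model_coprime h hcop htz hF0
  have hVD' : V.Δ = D * ω ^ 6 := by
    rw [hVD, ← hc4, ← hc6, ← hωF]; ring
  have hVD0 : V.Δ ≠ 0 := by
    rw [hVD']; exact mul_ne_zero hD (pow_ne_zero 6 hω0)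
  have hVc : IsCoprime V.c₄ V.Δ := by
    rw [hV4, hVD]; exact cop1
  -- X and Y
  have hXV : (V.c₄ : ℚ) = (ω : ℚ) ^ 2 * X := by
    have e1 : ((h4 c4 c6 s t : ℤ) : ℚ) = h4 (c4 : ℚ) c6 s t := by simp [h4]
    rw [hV4, e1, ← h4_hom (c4 : ℚ) c6 lam t s hst, ← hX, ← hω]
    ring
  have hYV : (V.c₆ : ℚ) = (ω : ℚ) ^ 3 * Y := by
    have e1 : ((h6 c4 c6 s t : ℤ) : ℚ) = h6 (c4 : ℚ) c6 s t := by simp [h6]
    rw [hV6, e1, ← h6_hom (c4 : ℚ) c6 lam t s hst, ← hY, ← hω]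
    ring
  have hXden : X.den = ω.natAbs ^ 2 := by
    have hcop' : IsCoprime V.c₄ (ω ^ 2) := by
      rw [hVD'] at hVc
      have : IsCoprime V.c₄ (ω ^ 6) := hVc.of_mul_right_right
      have h2 : ω ^ 6 = ω ^ 2 * ω ^ 4 := by ring
      rw [h2] at this
      exact this.of_mul_right_left
    have hXe : X = (V.c₄ : ℚ) / ((ω ^ 2 : ℤ) : ℚ) := by
      rw [hXV]; push_cast
      have : (ω : ℚ) ≠ 0 := by exact_mod_cast hω0
      field_simp
    have hpos : 0 < ω ^ 2 := by positivity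
    have hd : ((X.den : ℤ)) = ω ^ 2 := by
      rw [hXe]
      exact Rat.den_div_eq_of_coprime hpos (Int.isCoprime_iff_gcd_eq_one.mp hcop')
    have : (X.den : ℤ) = ((ω.natAbs ^ 2 : ℕ) : ℤ) := by
      rw [hd]; push_cast; rw [sq_abs]
    exact_mod_cast this
  -- the cubes
  obtain ⟨j, hj⟩ : ∃ j, n = 3 * j + 1 := ⟨4 * H ^ 6 * l, by rw [hl, modu]; ring⟩
  obtain ⟨X', Y', nQ', hnQ', p, q, hp4, hp6', hpG⟩ := two_par h j
  rw [← hj, hnQ] at hnQ'
  simp only [Affine.Point.some.injEq] at hnQ'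
  obtain ⟨hXX, hYY⟩ := hnQ'
  rw [← hXX] at hp4
  rw [← hYY] at hp6'
  have hωq : (ω : ℚ) ≠ 0 := by exact_mod_cast hω0
  have hVc0 : V.c₄ ≠ 0 := by
    intro h0
    obtain ⟨X1, Y1, nX, eX, hX1⟩ := mul_some h n (by omega)
    rw [hnQ] at eX
    simp only [Affine.Point.some.injEq] at eX
    rw [← eX.1] at hX1
    have : (ω : ℚ) ^ 2 * X = 0 := by rw [← hXV, h0]; simp
    exact (mul_ne_zero (pow_ne_zero 2 hωq) hX1) this
  have hTI := six_TI (K := K) hD hVD0 hV4 hV6 hF0 (p := ω * p) (q := ω * q) hVc0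
    (by rw [t4_hom, ← hp4, hXV]) (by rw [t6_hom, ← hp6', hYV])
    (by rw [tG_hom, hpG, mul_one]; exact pow_ne_zero 3 hωq)
  refine ⟨V, ω.natAbs, X, Y, nQ, hnQ, Int.natAbs_ne_zero.mpr hω0, ?_, hVc, hVD0, ?_, hXden, hTI⟩
  · rw [hVD']
    have : ((ω.natAbs : ℤ)) ^ 6 = ω ^ 6 := by
      have h2 : ((ω.natAbs : ℤ)) ^ 2 = ω ^ 2 := by push_cast; exact sq_abs ω
      calc ((ω.natAbs : ℤ)) ^ 6 = (((ω.natAbs : ℤ)) ^ 2) ^ 3 := by ring
        _ = ω ^ 6 := by rw [h2]; ring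
    rw [this]
  · rw [← hωF] at cop2
    have h2 : IsCoprime (1728 * D) ω := by
      rw [pow_two] at cop2
      exact cop2.of_mul_right_left
    have h3 := h2.abs_right
    rwa [Int.abs_eq_natAbs] at h3

end Pool.Agent.Y680.M
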