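import Mathlib
import Pool.Agent.Y680.M.Curve
import Pool.Agent.Y680.M.New

/-!
# Szpiro's exponent in a class of congruence modulo 6
-/

set_option autoImplicit false
set_option linter.unusedSectionVars false

open WeierstrassCurve Height

namespace Pool.Agent.Y680.M

open Pool.Agent.TH942

variable {c4 c6 D : ℤ}

/-- the product of the primes dividing the discriminant -/
def cond (V : WeierstrassCurve ℤ) : ℕ := ∏ p ∈ V.Δ.natAbs.primeFactors, p

/-- quadratic growth of the height -/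
lemma sht_quad (h : Base c4 c6 D) : ∃ C : ℝ, 0 < C ∧ ∀ n : ℕ, n ≠ 0 →
    sht (n • q0 h) ≤ C * (n : ℝ) ^ 2 := by
  have hD4 : 4 * (0 : ℚ) ^ 3 + 27 * kk c4 c6 ^ 2 ≠ 0 := by
    have := h.kk_ne
    positivity
  obtain ⟨C, hC0, hC⟩ := spar_law hD4
  set a : ℕ → ℝ := fun n => sht (n • q0 h) with ha
  have ha0 : a 0 = 0 := by
    simp only [ha, zero_smul]
    exact sht_zero
  have ha1 : 0 ≤ a 1 := sht_nonneg _
  set c := 2 * a 1 + C with hc
  have hc0 : 0 ≤ c := by positivity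
  have hrec : ∀ n : ℕ, a (n + 2) + a n ≤ 2 * a (n + 1) + c := by
    intro n
    have h1 := hC ((n + 1) • q0 h) (q0 h)
    have e1 : (n + 1) • q0 h + q0 h = (n + 2) • q0 h := by
      rw [show n + 2 = (n + 1) + 1 from rfl, add_smul (n + 1) 1, one_smul]
    have e2 : (n + 1) • q0 h - q0 h = n • q0 h := by
      rw [add_smul, one_smul, add_sub_cancel_right]
    rw [e1, e2] at h1
    have h2 := (abs_le.mp h1).2
    have h3 : sht (q0 h) = a 1 := by simp only [ha, one_smul]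
    have h4 : a (n + 2) = sht ((n + 2) • q0 h) := rfl
    have h5 : a n = sht (n • q0 h) := rfl
    have h6 : a (n + 1) = sht ((n + 1) • q0 h) := rfl
    rw [h4, h5, h6, hc]
    rw [h3] at h2
    linarith
  have hd : ∀ n : ℕ, a (n + 1) - a n ≤ a 1 + n * c := by
    intro n
    induction n with
    | zero => rw [ha0]; simp
    | succ n ih =>
      have := hrec n
      push_cast
      linarith
  have hA : ∀ n : ℕ, a n ≤ (n : ℝ) ^ 2 * (a 1 + c) := by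
    intro n
    induction n with
    | zero => rw [ha0]; simp
    | succ n ih =>
      have h1 := hd n
      push_cast
      have hn : (0 : ℝ) ≤ n := Nat.cast_nonneg n
      nlinarith [mul_nonneg hn ha1, mul_nonneg hn hc0]
  refine ⟨a 1 + c + 1, by positivity, fun n _ => ?_⟩
  have := hA n
  have h2 : (0 : ℝ) ≤ (n : ℝ) ^ 2 := by positivity
  calc sht (n • q0 h) ≤ (n : ℝ) ^ 2 * (a 1 + c) := this
    _ ≤ (a 1 + c + 1) * (n : ℝ) ^ 2 := by nlinarith

/-- the denominators do not grow too fast -/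
lemma log_dn (h : Base c4 c6 D) (n : ℕ) (hn : n ≠ 0) :
    Real.log (dn h n) ≤ sht (n • q0 h) := by
  obtain ⟨x, y, m, e, -⟩ := mul_some h n hn
  have h1 : sht (n • q0 h) = Real.log (max (x.num.natAbs : ℝ) (x.den : ℝ)) := by
    rw [e, sht, Affine.Point.xRep_some, ← logHeight₁_eq_logHeight, Rat.logHeight₁_eq_log_max]
    congr 1
    push_cast
    rfl
  have h2 : dn h n = x.den := by rw [dn, e]; rfl
  rw [h1, h2]
  apply Real.log_le_log
  · exact_mod_cast x.den_pos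
  · exact le_max_right _ _

lemma cond_le {V : WeierstrassCurve ℤ} {M : ℕ} (hM : M ≠ 0)
    (h : ∀ p : ℕ, p.Prime → (p : ℤ) ∣ V.Δ → p ∣ M) : cond V ≤ M := by
  apply Nat.le_of_dvd (Nat.pos_of_ne_zero hM)
  apply Finset.prod_primes_dvd
  · intro p hp
    exact (Nat.prime_of_mem_primeFactors hp).prime
  · intro p hp
    apply h p (Nat.prime_of_mem_primeFactors hp)
    exact Int.natCast_dvd.mpr (Nat.dvd_of_mem_primeFactors hp)

lemma le_cond {V : WeierstrassCurve ℤ} (hV : V.Δ ≠ 0) {p : ℕ} (hp : p.Prime)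
    (h : (p : ℤ) ∣ V.Δ) : p ≤ cond V := by
  apply Nat.le_of_dvd
  · apply Nat.pos_of_ne_zero
    apply Finset.prod_ne_zero_iff.mpr
    intro q hq
    exact (Nat.prime_of_mem_primeFactors hq).ne_zero
  · apply Finset.dvd_prod_of_mem (fun q => q)
    rw [Nat.mem_primeFactors]
    exact ⟨hp, Int.natCast_dvd.mp h, Int.natAbs_ne_zero.mpr hV⟩

variable {K : Type} [Field K] [Algebra ℚ K] [DecidableEq K] [CharZero K]

variable (K) in
/-- **Szpiro's exponent in every class of congruence modulo 6** -/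
theorem main (W : WeierstrassCurve ℤ) (hD : W.Δ ≠ 0) (hc : IsCoprime W.c₄ W.Δ) :
    ∃ c : ℝ, 0 < c ∧ ∀ X : ℕ, ∃ V : WeierstrassCurve ℤ, V.Δ ≠ 0 ∧ IsCoprime V.c₄ V.Δ ∧
      (∃ f g, TI 6 (act K W) (act K V) f g) ∧ X < cond V ∧
      c * (cond V : ℝ) ^ 6 * Real.log (cond V) ^ 3 ≤ (V.Δ.natAbs : ℝ) := by
  set h := base_of W hD hc with hh
  set m0 := modu W.Δ with hm0
  have hHpos : 0 < (1728 * W.Δ).natAbs :=
    Int.natAbs_pos.mpr (mul_ne_zero (by norm_num) hD)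
  have hm00 : m0 ≠ 0 := by
    rw [hm0, modu]
    exact mul_ne_zero (by norm_num) (pow_ne_zero 6 hHpos.ne')
  -- the first prime
  obtain ⟨n1, hn10, hn11, p, hp, hp1, hpd⟩ := large_prime h 1 m0 one_ne_zero hm00 1
  rw [mul_one] at hpd
  have hdn1 : dn h 1 = 1 := by
    rw [dn, one_smul]
    change ((W.c₄ : ℚ)).den = 1
    simp
  have hn1 : 1 < n1 := by
    rcases Nat.lt_or_ge 1 n1 with h1 | h1
    · exact h1
    · exfalso
      have : n1 = 1 := by omega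
      rw [this, hdn1] at hpd
      exact hp.one_lt.ne' (Nat.dvd_one.mp hpd)
  have fp : Fact p.Prime := ⟨hp⟩
  -- p is prime to m0
  obtain ⟨V1, ω1, x1, y1, k1, e1, w10, -, -, -, cop1, den1, -⟩ :=
    curve_of K W hD hc n1 hn1 hn11
  have hdn1' : dn h n1 = ω1 ^ 2 := by
    rw [← den1, dn]
    rw [hh, e1]
    rfl
  have hpω1 : p ∣ ω1 := by
    rw [hdn1'] at hpd; exact hp.dvd_of_dvd_pow hpd
  have hp1728 : ¬ (p : ℤ) ∣ 1728 * W.Δ := by
    intro h1
    have h2 : (p : ℤ) ∣ (ω1 : ℤ) := by exact_mod_cast hpω1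
    have := cop1.isUnit_of_dvd' h1 h2
    rw [Int.isUnit_iff] at this
    have := hp.two_le
    omega
  have hpm0 : Nat.Coprime p m0 := by
    rw [hp.coprime_iff_not_dvd, hm0, modu]
    intro h1
    rcases hp.dvd_mul.mp h1 with h2 | h2
    · apply hp1728
      have : p ∣ 1728 := h2.trans (by norm_num)
      exact (by exact_mod_cast this : (p : ℤ) ∣ 1728).mul_right _
    · apply hp1728
      exact Int.natCast_dvd.mpr (hp.dvd_of_dvd_pow h2)
  set q := p ^ Nat.totient m0 with hq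
  have hq1 : q ≡ 1 [MOD m0] := Nat.ModEq.pow_totient hpm0
  have hφ : 1 ≤ Nat.totient m0 := Nat.totient_pos.mpr (Nat.pos_of_ne_zero hm00)
  have hq2 : 2 ≤ q := by
    rw [hq]
    calc 2 ≤ p := hp.two_le
      _ = p ^ 1 := (pow_one p).symm
      _ ≤ p ^ Nat.totient m0 := Nat.pow_le_pow_right hp.pos hφ
  set Δ0 := W.Δ.natAbs with hΔ0
  have hΔ0pos : 0 < Δ0 := Int.natAbs_pos.mpr hD
  -- the data of the curve with parameters `s`, `j`
  have key : ∀ s : ℕ, s ≠ 0 → s ≡ 1 [MOD m0] → ∀ j : ℕ, ∃ V : WeierstrassCurve ℤ, V.Δ ≠ 0 ∧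
      IsCoprime V.c₄ V.Δ ∧ (∃ f g, TI 6 (act K W) (act K V) f g) ∧
      (cond V * q ^ j) ^ 6 ≤ Δ0 ^ 5 * V.Δ.natAbs ∧
      (∀ ℓ : ℕ, ℓ.Prime → ℓ ∣ dn h (s * n1) → ℓ ≤ cond V) ∧
      cond V = ∏ ℓ ∈ (Δ0 * dn h (n1 * s * q ^ j)).primeFactors, ℓ ∧
      (cond V : ℝ) ^ 2 ≤ (Δ0 : ℝ) ^ 2 * dn h (n1 * s * q ^ j) := by
    intro s hs0 hs1 j
    set n := n1 * s * q ^ j with hn
    have hqj : q ^ j ≠ 0 := pow_ne_zero j (by omega)
    have hn0 : n ≠ 0 := mul_ne_zero (mul_ne_zero hn10 hs0) hqj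
    have hnn : 1 < n := by
      have h1 : 1 ≤ s * q ^ j := Nat.one_le_iff_ne_zero.mpr (mul_ne_zero hs0 hqj)
      calc 1 < n1 := hn1
        _ = n1 * 1 := (mul_one _).symm
        _ ≤ n1 * (s * q ^ j) := Nat.mul_le_mul_left _ h1
        _ = n := by rw [hn]; ring
    have hnmod : n ≡ 1 [MOD m0] := by
      have h1 := (hn11.mul hs1).mul (hq1.pow j)
      simpa using h1
    obtain ⟨V, ω, x, y, kk', e, ω0, VD, Vc, VD0, -, den, hTI⟩ := curve_of K W hD hc n hnn hnmod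
    have hdn : dn h n = ω ^ 2 := by
      rw [← den, dn]
      rw [hh, e]
      rfl
    have hVabs : V.Δ.natAbs = Δ0 * ω ^ 6 := by
      rw [VD, Int.natAbs_mul, Int.natAbs_pow, Int.natAbs_natCast]
    -- the prime power dividing ω
    have hval := dn_val h hp (n := n1) (s := s * q ^ j) hn10 (mul_ne_zero hs0 hqj)
      (by rw [hdn1']; exact dvd_pow hpω1 (by norm_num))
    have hnn1 : s * q ^ j * n1 = n := by rw [hn]; ring
    rw [hnn1, hdn, hdn1', padicValNat.pow ω 2, padicValNat.pow ω1 2, padicValNat.mul hs0 hqj, hq,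
      ← pow_mul, padicValNat.prime_pow] at hval
    have hv1 : 1 ≤ padicValNat p ω1 :=
      one_le_padicValNat_of_dvd w10 hpω1
    have hpow : p ^ (Nat.totient m0 * j + 1) ∣ ω := by
      rw [padicValNat_dvd_iff_le ω0]
      omega
    obtain ⟨ω', hω'⟩ := hpow
    have hω'' : ω = p * q ^ j * ω' := by rw [hω', hq]; ring
    have hω'0 : ω' ≠ 0 := by rintro rfl; apply ω0; rw [hω']; simp
    have hcV : cond V ≤ Δ0 * (p * ω') := by
      apply cond_le (mul_ne_zero hΔ0pos.ne' (mul_ne_zero hp.ne_zero hω'0))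
      intro ℓ hℓ hd
      have h1 : ℓ ∣ Δ0 * ω ^ 6 := by
        rw [← hVabs]; exact Int.natCast_dvd.mp hd
      rcases hℓ.dvd_mul.mp h1 with h2 | h2
      · exact h2.mul_right _
      · have h3 := hℓ.dvd_of_dvd_pow h2
        rw [hω''] at h3
        apply Dvd.dvd.mul_left
        rcases hℓ.dvd_mul.mp h3 with h4 | h4
        · rcases hℓ.dvd_mul.mp h4 with h5 | h5
          · exact h5.mul_right _
          · have h6 := hℓ.dvd_of_dvd_pow h5
            rw [hq] at h6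
            exact (hℓ.dvd_of_dvd_pow h6).mul_right _
        · exact h4.mul_left _
    have hcq : cond V * q ^ j ≤ Δ0 * ω := by
      calc cond V * q ^ j ≤ Δ0 * (p * ω') * q ^ j := Nat.mul_le_mul_right _ hcV
        _ = Δ0 * ω := by rw [hω'']; ring
    refine ⟨V, VD0, Vc, hTI, ?_, ?_, ?_, ?_⟩
    · calc (cond V * q ^ j) ^ 6 ≤ (Δ0 * ω) ^ 6 := Nat.pow_le_pow_left hcq 6
        _ = Δ0 ^ 5 * V.Δ.natAbs := by rw [hVabs]; ring
    · intro ℓ hℓ hd
      apply le_cond VD0 hℓ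
      have h1 : ℓ ∣ dn h n := by
        have := dn_dvd h hℓ (n := s * n1) (s := q ^ j) (mul_ne_zero hs0 hn10) hqj hd
        have e5 : q ^ j * (s * n1) = n := by rw [hn]; ring
        rwa [e5] at this
      rw [hdn] at h1
      rw [VD]
      apply Dvd.dvd.mul_left
      have h2 := hℓ.dvd_of_dvd_pow h1
      exact_mod_cast dvd_pow h2 (by norm_num : (6 : ℕ) ≠ 0)
    · rw [cond]
      congr 1
      rw [hdn, hVabs, Nat.primeFactors_mul hΔ0pos.ne' (pow_ne_zero 6 ω0),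
        Nat.primeFactors_mul hΔ0pos.ne' (pow_ne_zero 2 ω0), Nat.primeFactors_pow _ (by norm_num),
        Nat.primeFactors_pow _ (by norm_num)]
    · have h1 : cond V ≤ Δ0 * ω := by
        calc cond V = cond V * 1 := (mul_one _).symm
          _ ≤ cond V * q ^ j := Nat.mul_le_mul_left _ (Nat.one_le_iff_ne_zero.mpr hqj)
          _ ≤ _ := hcq
      rw [hdn]
      have h2 : (cond V : ℝ) ≤ (Δ0 : ℝ) * ω := by exact_mod_cast h1
      have h3 : (0 : ℝ) ≤ cond V := Nat.cast_nonneg _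
      calc (cond V : ℝ) ^ 2 ≤ ((Δ0 : ℝ) * ω) ^ 2 := pow_le_pow_left₀ h3 h2 2
        _ = _ := by push_cast; ring
  obtain ⟨C, hC0, hC⟩ := sht_quad h
  have hΔ1 : (1 : ℝ) ≤ Δ0 := by exact_mod_cast hΔ0pos
  have hlΔ : 0 ≤ Real.log Δ0 := Real.log_nonneg hΔ1
  set L := Real.log Δ0 + C + 1 with hL
  have hL0 : 0 < L := by positivity
  set rd : ℕ → ℕ → ℕ := fun s j => ∏ ℓ ∈ (Δ0 * dn h (n1 * s * q ^ j)).primeFactors, ℓ with hrd
  have hrd1 : ∀ s j, 1 ≤ rd s j := by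
    intro s j
    apply Nat.one_le_iff_ne_zero.mpr
    apply Finset.prod_ne_zero_iff.mpr
    intro ℓ hℓ
    exact (Nat.prime_of_mem_primeFactors hℓ).ne_zero
  have hlog : ∀ s j : ℕ, s ≠ 0 → (rd s j : ℝ) ^ 2 ≤ (Δ0 : ℝ) ^ 2 * dn h (n1 * s * q ^ j) →
      Real.log (rd s j) ≤ L * ((n1 * s * q ^ j : ℕ) : ℝ) ^ 2 := by
    intro s j hs0 hle
    have hqj : q ^ j ≠ 0 := pow_ne_zero j (by omega)
    have hn0 : n1 * s * q ^ j ≠ 0 := mul_ne_zero (mul_ne_zero hn10 hs0) hqj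
    have h1 : (1 : ℝ) ≤ rd s j := by exact_mod_cast hrd1 s j
    have hdpos : (0 : ℝ) < dn h (n1 * s * q ^ j) := by exact_mod_cast dn_pos h _
    have h2 : Real.log ((rd s j : ℝ) ^ 2) ≤
        Real.log ((Δ0 : ℝ) ^ 2 * dn h (n1 * s * q ^ j)) :=
      Real.log_le_log (by positivity) hle
    rw [Real.log_pow, Real.log_mul (by positivity) hdpos.ne', Real.log_pow] at h2
    have h3 := log_dn h _ hn0
    have h4 := hC _ hn0
    have h5 : (1 : ℝ) ≤ ((n1 * s * q ^ j : ℕ) : ℝ) ^ 2 := by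
      have : (1 : ℝ) ≤ ((n1 * s * q ^ j : ℕ) : ℝ) := by
        exact_mod_cast Nat.one_le_iff_ne_zero.mpr hn0
      exact one_le_pow₀ this
    set N2 := ((n1 * s * q ^ j : ℕ) : ℝ) ^ 2 with hN2
    push_cast at h2
    have h6 : Real.log Δ0 ≤ Real.log Δ0 * N2 := le_mul_of_one_le_right hlΔ h5
    have h7 : 0 ≤ C * N2 := by positivity
    rw [hL]
    nlinarith
  by_cases hA : ∃ s, s ≠ 0 ∧ s ≡ 1 [MOD m0] ∧ ∀ X : ℕ, ∃ j, X < rd s j
  · obtain ⟨s, hs0, hs1, hX⟩ := hA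
    have hns : (0 : ℝ) < ((n1 * s : ℕ) : ℝ) := by
      exact_mod_cast Nat.pos_of_ne_zero (mul_ne_zero hn10 hs0)
    have hΔp : (0 : ℝ) < Δ0 := by linarith
    refine ⟨1 / ((Δ0 : ℝ) ^ 5 * (L ^ 3 * ((n1 * s : ℕ) : ℝ) ^ 6)), by positivity, fun X => ?_⟩
    obtain ⟨j, hj⟩ := hX X
    obtain ⟨V, k1, k2, k3, k4, k5, k6, k7⟩ := key s hs0 hs1 j
    have k6' : cond V = rd s j := k6
    refine ⟨V, k1, k2, k3, by rw [k6']; exact hj, ?_⟩
    have hl := hlog s j hs0 (by rw [← k6']; exact k7)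
    rw [← k6'] at hl
    have hN1 : (1 : ℝ) ≤ cond V := by rw [k6']; exact_mod_cast hrd1 s j
    have hlN : 0 ≤ Real.log (cond V) := Real.log_nonneg hN1
    have hl3 : Real.log (cond V) ^ 3 ≤ (L * ((n1 * s * q ^ j : ℕ) : ℝ) ^ 2) ^ 3 :=
      pow_le_pow_left₀ hlN hl 3
    have k4' : ((cond V : ℝ) * (q : ℝ) ^ j) ^ 6 ≤ (Δ0 : ℝ) ^ 5 * (V.Δ.natAbs : ℝ) := by
      exact_mod_cast k4
    rw [mul_assoc, div_mul_eq_mul_div, one_mul, div_le_iff₀ (by positivity)]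
    calc (cond V : ℝ) ^ 6 * Real.log (cond V) ^ 3
        ≤ (cond V : ℝ) ^ 6 * (L * ((n1 * s * q ^ j : ℕ) : ℝ) ^ 2) ^ 3 :=
          mul_le_mul_of_nonneg_left hl3 (by positivity)
      _ = ((cond V : ℝ) * (q : ℝ) ^ j) ^ 6 * (L ^ 3 * ((n1 * s : ℕ) : ℝ) ^ 6) := by
          push_cast; ring
      _ ≤ ((Δ0 : ℝ) ^ 5 * (V.Δ.natAbs : ℝ)) * (L ^ 3 * ((n1 * s : ℕ) : ℝ) ^ 6) :=
          mul_le_mul_of_nonneg_right k4' (by positivity)
      _ = _ := by ring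
  · push Not at hA
    refine ⟨1, one_pos, fun X => ?_⟩
    obtain ⟨s, hs0, hs1, ℓ, hℓ, hℓX, hℓd⟩ := large_prime h n1 m0 hn10 hm00 X
    obtain ⟨Y, hY⟩ := hA s hs0 hs1
    obtain ⟨j, hj⟩ := pow_unbounded_of_one_lt ((Δ0 : ℝ) ^ 5 * Real.log Y ^ 3)
      (by exact_mod_cast hq2 : (1 : ℝ) < q)
    obtain ⟨V, k1, k2, k3, k4, k5, k6, k7⟩ := key s hs0 hs1 j
    have k6' : cond V = rd s j := k6
    refine ⟨V, k1, k2, k3, lt_of_lt_of_le hℓX (k5 ℓ hℓ hℓd), ?_⟩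
    have hN1 : (1 : ℝ) ≤ cond V := by rw [k6']; exact_mod_cast hrd1 s j
    have hlN : 0 ≤ Real.log (cond V) := Real.log_nonneg hN1
    have hNY : (cond V : ℝ) ≤ Y := by rw [k6']; exact_mod_cast hY j
    have hl : Real.log (cond V) ≤ Real.log Y := Real.log_le_log (by linarith) hNY
    have hl3 : Real.log (cond V) ^ 3 ≤ Real.log Y ^ 3 := pow_le_pow_left₀ hlN hl 3
    have k4' : ((cond V : ℝ) * (q : ℝ) ^ j) ^ 6 ≤ (Δ0 : ℝ) ^ 5 * (V.Δ.natAbs : ℝ) := by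
      exact_mod_cast k4
    have hqj1 : (1 : ℝ) ≤ (q : ℝ) ^ j := one_le_pow₀ (by exact_mod_cast (by omega : 1 ≤ q))
    have hqj6 : (q : ℝ) ^ j ≤ ((q : ℝ) ^ j) ^ 6 := le_self_pow₀ hqj1 (by norm_num)
    have hΔ5 : (0 : ℝ) < (Δ0 : ℝ) ^ 5 := by positivity
    have hfin : (Δ0 : ℝ) ^ 5 * ((cond V : ℝ) ^ 6 * Real.log (cond V) ^ 3) ≤
        (Δ0 : ℝ) ^ 5 * (V.Δ.natAbs : ℝ) := by
      calc (Δ0 : ℝ) ^ 5 * ((cond V : ℝ) ^ 6 * Real.log (cond V) ^ 3)
          = (cond V : ℝ) ^ 6 * ((Δ0 : ℝ) ^ 5 * Real.log (cond V) ^ 3) := by ring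
        _ ≤ (cond V : ℝ) ^ 6 * ((Δ0 : ℝ) ^ 5 * Real.log Y ^ 3) := by gcongr
        _ ≤ (cond V : ℝ) ^ 6 * ((q : ℝ) ^ j) ^ 6 := by
            apply mul_le_mul_of_nonneg_left _ (by positivity)
            exact hj.le.trans hqj6
        _ = ((cond V : ℝ) * (q : ℝ) ^ j) ^ 6 := by ring
        _ ≤ _ := k4'
    rw [one_mul]
    exact le_of_mul_le_mul_left hfin hΔ5

end Pool.Agent.Y680.M
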